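import Pool.Agent.N66.AF.Stm

set_option autoImplicit false

/-! Project AF, leaf CC: the congruence subgroup `Cp`. -/

namespace Pool.Agent.N66.AF.CC

open Pool.Agent.N66.AF
open FreeGroup (of)

variable {n : ℕ}

theorem ex_one (j : Fin n) : ex j (1 : FreeGroup (Fin n)) = 0 := by
  unfold ex
  rw [map_one]
  rfl

theorem ex_mul (j : Fin n) (g h : FreeGroup (Fin n)) : ex j (g * h) = ex j g + ex j h := by
  unfold ex
  rw [map_mul]
  rfl

theorem ex_inv (j : Fin n) (g : FreeGroup (Fin n)) : ex j g⁻¹ = - ex j g := by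
  have h := ex_mul j g g⁻¹
  rw [mul_inv_cancel, ex_one] at h
  linarith

theorem ex_of (j i : Fin n) : ex j (of i) = if i = j then 1 else 0 := by
  unfold ex
  rw [FreeGroup.lift_apply_of]
  rfl

theorem mu_of (j k i : Fin n) : ((mu j k (of i) : Matrix.SpecialLinearGroup (Fin 3) ℤ) :
    Matrix (Fin 3) (Fin 3) ℤ) =
      !![1, if i = j then 1 else 0, 0; 0, 1, if i = k then 1 else 0; 0, 0, 1] := by
  unfold mu
  rw [FreeGroup.lift_apply_of]

theorem mu_shape (j k : Fin n) (g : FreeGroup (Fin n)) : ∃ c : ℤ,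
    ((mu j k g : Matrix.SpecialLinearGroup (Fin 3) ℤ) : Matrix (Fin 3) (Fin 3) ℤ) =
      !![1, ex j g, c; 0, 1, ex k g; 0, 0, 1] := by
  induction g using FreeGroup.induction_on with
  | C1 =>
    refine ⟨0, ?_⟩
    rw [map_one, ex_one, ex_one, Matrix.SpecialLinearGroup.coe_one]
    exact Matrix.one_fin_three
  | of i =>
    refine ⟨0, ?_⟩
    have h := mu_of j k i
    rw [← ex_of, ← ex_of] at h
    exact h
  | inv_of i h =>
    obtain ⟨c, hc⟩ := h
    refine ⟨ex j (of i) * ex k (of i) - c, ?_⟩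
    rw [map_inv, Matrix.SpecialLinearGroup.coe_inv, hc, Matrix.adjugate_fin_three_of, ex_inv,
      ex_inv]
    ext a b
    fin_cases a <;> fin_cases b <;> simp
  | mul x y hx hy =>
    obtain ⟨c, hc⟩ := hx
    obtain ⟨c', hc'⟩ := hy
    refine ⟨c' + ex j x * ex k y + c, ?_⟩
    rw [map_mul, Matrix.SpecialLinearGroup.coe_mul, hc, hc', ex_mul, ex_mul]
    ext a b
    fin_cases a <;> fin_cases b <;> simp [Matrix.mul_apply, Fin.sum_univ_three] <;> ring

theorem mu_zero_one (j k : Fin n) (g : FreeGroup (Fin n)) :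
    ((mu j k g : Matrix.SpecialLinearGroup (Fin 3) ℤ) : Matrix (Fin 3) (Fin 3) ℤ) 0 1 =
      ex j g := by
  obtain ⟨c, hc⟩ := mu_shape j k g
  rw [hc]
  rfl

/-- the reduction of `mu` modulo `p` -/
def red (p : ℕ) (j k : Fin n) :
    FreeGroup (Fin n) →* Matrix.GeneralLinearGroup (Fin 3) (ZMod p) :=
  (Matrix.SpecialLinearGroup.toGL).comp
    ((Matrix.SpecialLinearGroup.map (Int.castRingHom (ZMod p))).comp (mu j k))

theorem red_apply (p : ℕ) (j k : Fin n) (g : FreeGroup (Fin n)) (a b : Fin 3) :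
    (red p j k g : Matrix (Fin 3) (Fin 3) (ZMod p)) a b =
      ((((mu j k g : Matrix.SpecialLinearGroup (Fin 3) ℤ) : Matrix (Fin 3) (Fin 3) ℤ) a b : ℤ) :
        ZMod p) := rfl

theorem dvd_of (p : ℕ) {φ : MulAut (FreeGroup (Fin n))} (h : ∀ x, φ x * x⁻¹ ∈ Cp n p)
    (j k : Fin n) (x : FreeGroup (Fin n)) (a b : Fin 3) :
    (p : ℤ) ∣ ((mu j k (φ x) : Matrix.SpecialLinearGroup (Fin 3) ℤ) : Matrix (Fin 3) (Fin 3) ℤ) a b
      - ((mu j k x : Matrix.SpecialLinearGroup (Fin 3) ℤ) : Matrix (Fin 3) (Fin 3) ℤ) a b := by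
  have h1 := h x
  rw [Cp, Subgroup.mem_iInf] at h1
  have h2 := h1 (red p j k)
  rw [MonoidHom.mem_ker, map_mul, map_inv, mul_inv_eq_one] at h2
  rw [← ZMod.intCast_eq_intCast_iff_dvd_sub, ← red_apply, ← red_apply, h2]

theorem t_CC : S_CC := by
  intro n p hp
  have : NeZero p := ⟨hp.ne_zero⟩
  refine ⟨?_, ?_, ?_⟩
  · rw [Subgroup.characteristic_iff_le_comap]
    intro φ x hx
    rw [Subgroup.mem_comap]
    rw [Cp, Subgroup.mem_iInf] at hx ⊢
    intro f
    exact hx (f.comp φ.toMonoidHom)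
  · have : Finite (FreeGroup (Fin n) →* Matrix.GeneralLinearGroup (Fin 3) (ZMod p)) :=
      Finite.of_equiv _ (FreeGroup.lift (α := Fin n)
        (β := Matrix.GeneralLinearGroup (Fin 3) (ZMod p)))
    unfold Cp
    exact Subgroup.finiteIndex_iInf fun f => inferInstance
  · intro φ hφ
    refine ⟨fun k i => ?_, fun j k i => ?_⟩
    · have h1 := dvd_of p hφ k k (of i) 0 1
      rw [mu_zero_one, mu_zero_one, ex_of] at h1
      have e : (1 : Matrix (Fin n) (Fin n) ℤ) k i = if i = k then 1 else 0 := by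
        rw [Matrix.one_apply]
        simp only [eq_comm]
      rw [e]
      exact h1
    · have h1 := dvd_of p hφ j k (of i) 0 2
      rw [mu_of] at h1
      have e : (!![1, if i = j then 1 else 0, 0; 0, 1, if i = k then 1 else 0; 0, 0, 1] :
        Matrix (Fin 3) (Fin 3) ℤ) 0 2 = 0 := rfl
      rw [e, sub_zero] at h1
      exact h1

end Pool.Agent.N66.AF.CC
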