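import Pool.Agent.N66.AF.Stm

set_option autoImplicit false

/-! Leaf CN of project AF: the commutator rule for the operators of the transvections. -/

namespace Pool.Agent.N66.AF.CN

open Pool.Agent.N66.AF
open FreeGroup (of)

universe v

variable {n : ℕ}

theorem TT_ne (s : Bool) {i j k : Fin n} (h : k ≠ i) : TT s i j (of k) = of k := by
  cases s
  · exact LL_ne h
  · exact RR_ne h

theorem TT_true {i j : Fin n} (h : i ≠ j) : TT true i j (of i) = of i * of j := RR_self h

theorem TT_false {i j : Fin n} (h : i ≠ j) : TT false i j (of i) = of j * of i := LL_self h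

/-- the relation for transvections on the same side -/
theorem same_side (a : Bool) {i j k : Fin n} (hij : i ≠ j) (hjk : j ≠ k) (hik : i ≠ k) :
    TT a j k * TT a i j = TT a i j * TT a i k * TT a j k := by
  apply aut_ext
  intro x
  simp only [MulAut.mul_apply]
  by_cases hxi : x = i
  · subst hxi
    rw [TT_ne a hij]
    cases a
    · rw [TT_false hij, TT_false hik, map_mul, map_mul, TT_false hjk, TT_false hij,
        TT_ne false hij, TT_ne false hik.symm, mul_assoc]
    · rw [TT_true hij, TT_true hik, map_mul, map_mul, TT_true hjk, TT_true hij,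
        TT_ne true hij, TT_ne true hik.symm, mul_assoc]
  · rw [TT_ne a hxi]
    by_cases hxj : x = j
    · subst hxj
      cases a
      · rw [TT_false hjk, map_mul, map_mul, TT_ne false hij.symm, TT_ne false hik.symm,
          TT_ne false hij.symm, TT_ne false hik.symm]
      · rw [TT_true hjk, map_mul, map_mul, TT_ne true hij.symm, TT_ne true hik.symm,
          TT_ne true hij.symm, TT_ne true hik.symm]
    · rw [TT_ne a hxj, TT_ne a hxi, TT_ne a hxi]

/-- the relation for transvections on different sides -/
theorem other_side (a b : Bool) (hab : a ≠ b) {i j k : Fin n} (hij : i ≠ j) (hjk : j ≠ k)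
    (hik : i ≠ k) : TT b j k * TT a i j = TT a i k * TT a i j * TT b j k := by
  apply aut_ext
  intro x
  simp only [MulAut.mul_apply]
  by_cases hxi : x = i
  · subst hxi
    rw [TT_ne b hij]
    cases a <;> cases b <;> first | exact absurd rfl hab | skip
    · rw [TT_false hij, map_mul, map_mul, TT_true hjk, TT_false hik, TT_ne true hij,
        TT_ne false hij.symm, mul_assoc]
    · rw [TT_true hij, map_mul, map_mul, TT_false hjk, TT_true hik, TT_ne false hij,
        TT_ne true hij.symm, mul_assoc]
  · rw [TT_ne a hxi]
    by_cases hxj : x = j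
    · subst hxj
      cases b
      · rw [TT_false hjk, map_mul, map_mul, TT_ne a hij.symm, TT_ne a hik.symm,
          TT_ne a hij.symm, TT_ne a hik.symm]
      · rw [TT_true hjk, map_mul, map_mul, TT_ne a hij.symm, TT_ne a hik.symm,
          TT_ne a hij.symm, TT_ne a hik.symm]
    · rw [TT_ne b hxj, TT_ne a hxi, TT_ne a hxi]

theorem t_CN : S_CN.{v} := by
  intro A _ n _ f hZ a b i j k hij hjk hik
  have h1 : (f (TT a i k) - 1) * (f (TT b j k) - 1) = 0 := hZ a b i k j k hik hjk hjk.symm hik
  by_cases hab : a = b
  · subst hab
    have h2 : (f (TT a i j) - 1) * (f (TT a i k) - 1) = 0 :=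
      hZ a a i j i k hij hik hij.symm hik
    have h3 := congrArg f (same_side a hij hjk hik)
    rw [map_mul, map_mul, map_mul] at h3
    generalize f (TT a i k) = Z at *
    generalize f (TT a i j) = X at *
    generalize f (TT a j k) = Y at *
    have h4 : (Y - 1) * (X - 1) - (X - 1) * (Y - 1) - (Z - 1)
        = (Y * X - X * Z * Y) + X * ((Z - 1) * (Y - 1)) + (X - 1) * (Z - 1) := by
      noncomm_ring
    rw [h1, h2, h3, sub_self, mul_zero, add_zero, add_zero] at h4
    exact (sub_eq_zero.mp h4).symm
  · have h2 : (f (TT a i k) - 1) * (f (TT a i j) - 1) = 0 :=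
      hZ a a i k i j hik hij hik.symm hij
    have h3 := congrArg f (other_side a b hab hij hjk hik)
    rw [map_mul, map_mul, map_mul] at h3
    generalize f (TT a i k) = Z at *
    generalize f (TT a i j) = X at *
    generalize f (TT b j k) = Y at *
    have h4 : (Y - 1) * (X - 1) - (X - 1) * (Y - 1) - (Z - 1)
        = (Y * X - Z * X * Y) + (Z - 1) * (X - 1) * Y + (Z - 1) * (Y - 1) := by
      noncomm_ring
    rw [h1, h2, h3, sub_self, zero_mul, add_zero, add_zero] at h4
    exact (sub_eq_zero.mp h4).symm

end Pool.Agent.N66.AF.CN
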