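import Pool.Agent.N66.AF.Stm

set_option autoImplicit false

/-! Leaf CR of project AF: the crossed homomorphism `cr` and the transvections. -/

namespace Pool.Agent.N66.AF.CR

open Pool.Agent.N66.AF
open FreeGroup (of)

variable {n : ℕ}

theorem TT_ne {s : Bool} {a b i : Fin n} (h : i ≠ a) : TT s a b (of i) = of i := by
  unfold TT
  split_ifs
  · exact RR_ne h
  · exact LL_ne h

theorem mat_TT (hM : S_MM) (φ : MulAut (FreeGroup (Fin n))) {a b : Fin n} (hab : a ≠ b) (s : Bool)
    (k i : Fin n) : mat (φ * TT s a b) k i = mat φ k i + if i = a then mat φ k b else 0 := by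
  obtain ⟨-, hex, -, -⟩ := hM n
  show ex k ((φ * TT s a b) (of i)) = ex k (φ (of i)) + if i = a then ex k (φ (of b)) else 0
  rw [MulAut.mul_apply]
  by_cases h : i = a
  · subst h
    rw [if_pos rfl]
    cases s
    · have h1 : TT false i b (of i) = of b * of i := LL_self hab
      rw [h1, map_mul, hex, add_comm]
    · have h1 : TT true i b (of i) = of i * of b := RR_self hab
      rw [h1, map_mul, hex]
  · rw [TT_ne h, if_neg h, add_zero]

theorem mat_one (hM : S_MM) : mat (1 : MulAut (FreeGroup (Fin n))) = 1 := by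
  obtain ⟨-, -, -, h4⟩ := hM n
  ext k i
  show ex k (of i) = _
  rw [(h4 k k i).2, Matrix.one_apply]
  by_cases h : k = i
  · rw [if_pos h.symm, if_pos h]
  · rw [if_neg (Ne.symm h), if_neg h]

theorem mat_TT_one (hM : S_MM) {a b : Fin n} (hab : a ≠ b) (s : Bool) :
    mat (TT s a b) = 1 + Matrix.single b a 1 := by
  ext k i
  have h := mat_TT hM 1 hab s k i
  rw [one_mul] at h
  rw [h, mat_one hM, Matrix.add_apply, Matrix.single_apply]
  congr 1
  rw [Matrix.one_apply]
  by_cases h1 : i = a
  · rw [if_pos h1]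
    by_cases h2 : k = b
    · rw [if_pos h2, if_pos ⟨h2.symm, h1.symm⟩]
    · rw [if_neg h2, if_neg (fun h => h2 h.1.symm)]
  · rw [if_neg h1, if_neg (fun h => h1 h.2.symm)]

theorem mat_TT_inv (hM : S_MM) {a b : Fin n} (hab : a ≠ b) (s : Bool) :
    mat (TT s a b)⁻¹ = 1 - Matrix.single b a 1 := by
  obtain ⟨hmul, -, -, -⟩ := hM n
  have h1 : mat (TT s a b) * mat (TT s a b)⁻¹ = 1 := by
    rw [← hmul, mul_inv_cancel, mat_one hM]
  have h2 : (1 - Matrix.single b a (1 : ℤ)) * mat (TT s a b) = 1 := by
    rw [mat_TT_one hM hab]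
    have h3 : Matrix.single b a (1 : ℤ) * Matrix.single b a 1 = 0 := by
      apply Matrix.single_mul_single_of_ne
      exact hab
    rw [sub_mul, mul_add, mul_add, h3]
    simp
  calc mat (TT s a b)⁻¹ = ((1 - Matrix.single b a (1 : ℤ)) * mat (TT s a b)) * mat (TT s a b)⁻¹ := by
        rw [h2, one_mul]
    _ = 1 - Matrix.single b a 1 := by rw [mul_assoc, h1, mul_one]

theorem mat_inv (hM : S_MM) (φ : MulAut (FreeGroup (Fin n))) {a b : Fin n} (hab : a ≠ b) (s : Bool)
    (k i : Fin n) : mat (φ * TT s a b)⁻¹ k i = mat φ⁻¹ k i - if k = b then mat φ⁻¹ a i else 0 := by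
  obtain ⟨hmul, -, -, -⟩ := hM n
  rw [mul_inv_rev, hmul, mat_TT_inv hM hab, sub_mul, one_mul, Matrix.sub_apply]
  congr 1
  rw [Matrix.mul_apply]
  by_cases h : k = b
  · subst h
    rw [if_pos rfl, Finset.sum_eq_single a]
    · simp
    · intro l _ hl
      rw [Matrix.single_apply_of_ne, zero_mul]
      exact fun h => hl h.2.symm
    · intro h
      exact absurd (Finset.mem_univ _) h
  · rw [if_neg h]
    apply Finset.sum_eq_zero
    intro l _
    rw [Matrix.single_apply_of_ne, zero_mul]
    exact fun h' => h h'.1.symm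

theorem sum_id (Q M' : Fin n → Fin n → ℤ) (G : Fin n → ℤ) {a b : Fin n} (hab : a ≠ b) :
    ∑ i, ∑ k, (Q i k + if i = a then (Q b k + G k) else 0) * (M' i k - if i = b then M' a k else 0) =
      ∑ i, ∑ k, Q i k * M' i k + ∑ k, G k * M' a k := by
  have h1 : ∀ i k, (Q i k + if i = a then (Q b k + G k) else 0) *
      (M' i k - if i = b then M' a k else 0) = Q i k * M' i k +
      ((if i = a then (Q b k + G k) * M' a k else 0) - if i = b then Q b k * M' a k else 0) := by
    intro i k
    by_cases h : i = a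
    · subst h
      rw [if_pos rfl, if_pos rfl, if_neg hab, if_neg hab]
      ring
    · rw [if_neg h, if_neg h]
      by_cases h2 : i = b
      · subst h2
        rw [if_pos rfl, if_pos rfl]
        ring
      · rw [if_neg h2, if_neg h2]
        ring
  simp only [h1, Finset.sum_add_distrib, Finset.sum_sub_distrib]
  congr 1
  have h2 : ∀ (c : Fin n) (g : Fin n → ℤ), ∑ i, ∑ k, (if i = c then g k else 0) = ∑ k, g k := by
    intro c g
    rw [Finset.sum_eq_single c]
    · simp
    · intro i _ hi
      simp [hi]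
    · intro h
      exact absurd (Finset.mem_univ _) h
  rw [h2, h2, ← Finset.sum_sub_distrib]
  apply Finset.sum_congr rfl
  intro k _
  ring

theorem t_CR : S_CR := by
  intro hM n φ a b hab
  refine ⟨fun s => ⟨mat_TT hM φ hab s, mat_inv hM φ hab s⟩, ?_, ?_⟩
  all_goals
    obtain ⟨hmul, hex, hq, hof⟩ := hM n
    have hinv : mat φ⁻¹ * mat φ = 1 := by rw [← hmul, inv_mul_cancel, mat_one hM]
  · funext j
    have h1 : ∀ i k, q j k ((φ * RR a b) (of i)) = q j k (φ (of i)) +
        if i = a then (q j k (φ (of b)) + mat φ j a * mat φ k b) else 0 := by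
      intro i k
      rw [MulAut.mul_apply]
      by_cases h : i = a
      · subst h
        rw [if_pos rfl, RR_self hab, map_mul, hq]
        show _ = q j k (φ (of i)) + (q j k (φ (of b)) + ex j (φ (of i)) * ex k (φ (of b)))
        ring
      · rw [RR_ne h, if_neg h, add_zero]
    have h2 : ∀ i k, mat (φ * RR a b)⁻¹ i k = mat φ⁻¹ i k - if i = b then mat φ⁻¹ a k else 0 :=
      fun i k => mat_inv hM φ hab true i k
    show - ∑ i, ∑ k, q j k ((φ * RR a b) (of i)) * mat (φ * RR a b)⁻¹ i k = _
    simp only [h1, h2]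
    rw [sum_id (fun i k => q j k (φ (of i))) (mat φ⁻¹) (fun k => mat φ j a * mat φ k b) hab]
    have h3 : ∑ k, mat φ j a * mat φ k b * mat φ⁻¹ a k = 0 := by
      have h4 := congrFun (congrFun hinv a) b
      rw [Matrix.mul_apply, Matrix.one_apply_ne hab] at h4
      calc ∑ k, mat φ j a * mat φ k b * mat φ⁻¹ a k = mat φ j a * ∑ k, mat φ⁻¹ a k * mat φ k b := by
            rw [Finset.mul_sum]
            exact Finset.sum_congr rfl fun k _ => by ring
        _ = 0 := by rw [h4, mul_zero]
    rw [h3, add_zero]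
    rfl
  · intro j
    have h1 : ∀ i k, q j k ((φ * LL a b) (of i)) = q j k (φ (of i)) +
        if i = a then (q j k (φ (of b)) + mat φ j b * mat φ k a) else 0 := by
      intro i k
      rw [MulAut.mul_apply]
      by_cases h : i = a
      · subst h
        rw [if_pos rfl, LL_self hab, map_mul, hq]
        show _ = q j k (φ (of i)) + (q j k (φ (of b)) + ex j (φ (of b)) * ex k (φ (of i)))
        ring
      · rw [LL_ne h, if_neg h, add_zero]
    have h2 : ∀ i k, mat (φ * LL a b)⁻¹ i k = mat φ⁻¹ i k - if i = b then mat φ⁻¹ a k else 0 :=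
      fun i k => mat_inv hM φ hab false i k
    show - ∑ i, ∑ k, q j k ((φ * LL a b) (of i)) * mat (φ * LL a b)⁻¹ i k = _
    simp only [h1, h2]
    rw [sum_id (fun i k => q j k (φ (of i))) (mat φ⁻¹) (fun k => mat φ j b * mat φ k a) hab]
    have h3 : ∑ k, mat φ j b * mat φ k a * mat φ⁻¹ a k = mat φ j b := by
      have h4 := congrFun (congrFun hinv a) a
      rw [Matrix.mul_apply, Matrix.one_apply_eq] at h4
      calc ∑ k, mat φ j b * mat φ k a * mat φ⁻¹ a k = mat φ j b * ∑ k, mat φ⁻¹ a k * mat φ k a := by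
            rw [Finset.mul_sum]
            exact Finset.sum_congr rfl fun k _ => by ring
        _ = mat φ j b := by rw [h4, mul_one]
    rw [h3]
    show -(_ + _) = - _ - _
    ring

end Pool.Agent.N66.AF.CR
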