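import Pool.Agent.N66.AF.Stm

set_option autoImplicit false

/-!
# Project AF, leaf DU (helper738): properties of `D`
-/

namespace Pool.Agent.N66.AF.DU

open Pool.Agent.N66.AF

universe v

theorem ex3 {n : ℕ} (hn : 6 ≤ n) (i j k : Fin n) : ∃ l : Fin n, l ≠ i ∧ l ≠ j ∧ l ≠ k := by
  classical
  have h1 : ({i, j, k} : Finset (Fin n)).card ≤ 3 := Finset.card_le_three
  have h2 : ({i, j, k} : Finset (Fin n)) ≠ Finset.univ := by
    intro h
    rw [h, Finset.card_univ, Fintype.card_fin] at h1
    omega
  obtain ⟨l, hl⟩ : ∃ l, l ∉ ({i, j, k} : Finset (Fin n)) := by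
    by_contra hcon
    push Not at hcon
    exact h2 (Finset.eq_univ_iff_forall.2 hcon)
  simp only [Finset.mem_insert, Finset.mem_singleton, not_or] at hl
  exact ⟨l, hl⟩

theorem t_DU : S_DU.{v} := by
  intro A _ n hn X hX
  choose mm hmm _ _ using fun j : Fin n => ex3 hn j j j
  have hD : ∀ i j, i ≠ j → X true (mm j) j - X false (mm j) j = X true i j - X false i j := by
    intro i j hij
    by_cases h : mm j = i
    · rw [h]
    · exact hX.same (mm j) i j h (hmm j) hij
  obtain ⟨D, hD'⟩ : ∃ D : Fin n → A, ∀ i j, i ≠ j → D j = X true i j - X false i j :=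
    ⟨fun j => X true (mm j) j - X false (mm j) j, hD⟩
  refine ⟨D, hD', ?_⟩
  -- `D` commutes
  have c1 : ∀ i j k, i ≠ j → j ≠ k → i ≠ k → D k * X true i j = X true i j * D k := by
    intro i j k hij hjk hik
    have h1 := hX.comm true true i j k hij hjk hik
    have h2 := hX.comm true false i j k hij hjk hik
    rw [hD' j k hjk, sub_mul, mul_sub]
    rw [h1] at h2
    have h3 : X true j k * X true i j - X false j k * X true i j -
        (X true i j * X true j k - X true i j * X false j k) =
        (X true j k * X true i j - X true i j * X true j k) -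
        (X false j k * X true i j - X true i j * X false j k) := by abel
    rw [← sub_eq_zero, h3, h2, sub_self]
  have z1 : ∀ k i l j, j ≠ k → i ≠ l → k ≠ i → j ≠ l → D k * X true i l = 0 := by
    intro k i l j h1 h2 h3 h4
    rw [hD' j k h1, sub_mul, hX.zero true true j k i l h1 h2 h3 h4,
      hX.zero false true j k i l h1 h2 h3 h4, sub_zero]
  have dn : ∀ i j k : Fin n, i ≠ j → k ≠ i → k ≠ j → D k * X true i j = 0 := by
    intro i j k hij hki hkj
    obtain ⟨l, hli, hlj, hlk⟩ := ex3 hn i j k
    rw [hX.comm true true i l j hli.symm hlj hij, mul_sub, ← mul_assoc, ← mul_assoc,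
      c1 l j k hlj hkj.symm hlk, mul_assoc, z1 k i l j hkj.symm hli.symm hki hlj.symm, mul_zero,
      zero_mul, sub_zero]
  refine ⟨?_, ?_, ?_, ?_⟩
  · intro i j k hij hki
    by_cases hkj : k = j
    · subst hkj
      obtain ⟨m, hmi, hmk, -⟩ := ex3 hn i k k
      exact z1 k i k m hmk hij hki hmk
    · exact dn i j k hij hki hkj
  · intro i j k hij hki
    by_cases hkj : k = j
    · subst hkj
      obtain ⟨m, hmi, hmk, -⟩ := ex3 hn i k k
      rw [hD' m k hmk, mul_sub, hX.zero true true i k m k hij hmk hmk.symm hij,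
        hX.zero true false i k m k hij hmk hmk.symm hij, sub_zero]
    · rw [← c1 i j k hij (Ne.symm hkj) hki.symm]
      exact dn i j k hij hki hkj
  · intro i j hij
    obtain ⟨m, hmi, hmj, -⟩ := ex3 hn i j j
    rw [hD' m j hmj, hD' m i hmi, mul_sub, sub_mul, hX.comm true true m i j hmi hij hmj,
      hX.comm false true m i j hmi hij hmj]
    abel
  · intro i j
    obtain ⟨m, hmi, hmj, -⟩ := ex3 hn i j j
    rw [hD' m i hmi, hD' m j hmj, sub_mul, mul_sub, mul_sub,
      hX.zero true true m i m j hmi hmj hmi.symm hmj,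
      hX.zero true false m i m j hmi hmj hmi.symm hmj,
      hX.zero false true m i m j hmi hmj hmi.symm hmj,
      hX.zero false false m i m j hmi hmj hmi.symm hmj]
    simp

end Pool.Agent.N66.AF.DU
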