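import Pool.Agent.N66.AF.Stm

set_option autoImplicit false

/-! Project AF (helper66), leaf FI (helper507): finite index and inner automorphisms. -/

namespace Pool.Agent.N66.AF.FI

open Pool.Agent.N66.AF

theorem t_FI : S_FI := by
  intro n C hC hCf N hN
  have hn : C.Normal := inferInstance
  have hmap : ∀ φ : MulAut (FreeGroup (Fin n)), C.map (φ : FreeGroup (Fin n) →* FreeGroup (Fin n)) = C :=
    fun φ => Subgroup.characteristic_iff_map_eq.1 hC φ
  constructor
  · -- the action on the quotient
    let ρ : MulAut (FreeGroup (Fin n)) →* MulAut (FreeGroup (Fin n) ⧸ C) :=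
      { toFun := fun φ => QuotientGroup.congr C C φ (hmap φ)
        map_one' := by
          apply MulEquiv.ext
          intro y
          induction y using QuotientGroup.induction_on with
          | H z => rfl
        map_mul' := by
          intro φ ψ
          apply MulEquiv.ext
          intro y
          induction y using QuotientGroup.induction_on with
          | H z => rfl }
    have hfin : Finite (FreeGroup (Fin n) ⧸ C) := Subgroup.finite_quotient_of_finiteIndex
    have hfin2 : Finite (MulAut (FreeGroup (Fin n) ⧸ C)) := DFunLike.finite _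
    have hker : ρ.ker.FiniteIndex := Subgroup.finiteIndex_ker ρ
    have hle : ρ.ker ≤ N := by
      intro φ hφ
      apply hN
      intro x
      rw [MonoidHom.mem_ker] at hφ
      have h1 : ρ φ (x : FreeGroup (Fin n) ⧸ C) = (x : FreeGroup (Fin n) ⧸ C) := by
        rw [hφ]
        rfl
      have h2 : ((φ x : FreeGroup (Fin n)) : FreeGroup (Fin n) ⧸ C) = (x : FreeGroup (Fin n) ⧸ C) := h1
      rw [QuotientGroup.eq_iff_div_mem, div_eq_mul_inv] at h2
      exact h2
    exact Subgroup.finiteIndex_of_le hle
  · rintro hconj ψ ⟨g, hg⟩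
    have h1 : (MulAut.conj g)⁻¹ * ψ ∈ N := by
      apply hN
      intro x
      have h2 := hn.conj_mem _ (hg x) g⁻¹
      have h3 : ((MulAut.conj g)⁻¹ * ψ) x * x⁻¹ = g⁻¹ * (ψ x * (g * x * g⁻¹)⁻¹) * g⁻¹⁻¹ := by
        rw [MulAut.mul_apply, MulAut.conj_inv_apply]
        group
      rw [h3]
      exact h2
    have h4 := N.mul_mem (hconj g) h1
    rwa [mul_inv_cancel_left] at h4

end Pool.Agent.N66.AF.FI
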