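import Pool.Agent.N66.AF.Stm

/-! Leaf FV of project AF: the recursion of the value. -/

set_option autoImplicit false

namespace Pool.Agent.N66.AF.FV

open Pool.Agent.N66.AF

universe v

variable {A : Type v} [Ring A] {n : ℕ} {X : Bool → Fin n → Fin n → A}
  {P R : Fin n → Fin n → A} {U W : Fin n → A}

theorem mulP (T : Tab X P R U W) (M M' : Matrix (Fin n) (Fin n) ℤ) (c b : Fin n → ℤ)
    (x y : Fin n) : Fv P R U W M M' c b * P x y = ∑ k, M k y • P x k := by
  have h1 : (∑ i, P i i) * P x y = P x y := by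
    rw [Finset.sum_mul, Finset.sum_eq_single y]
    · exact T.PP x y y
    · intro i _ hi
      exact T.PP0 x y i i (Ne.symm hi)
    · simp
  have h2 : (∑ i, R i i) * P x y = 0 := by
    rw [Finset.sum_mul]
    exact Finset.sum_eq_zero fun i _ => T.RP x y i i
  have h3 : (∑ i, ∑ k, M k i • P i k) * P x y = ∑ k, M k y • P x k := by
    rw [Finset.sum_mul, Finset.sum_eq_single y]
    · rw [Finset.sum_mul]
      refine Finset.sum_congr rfl fun k _ => ?_
      rw [smul_mul_assoc, T.PP x y k]
    · intro i _ hi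
      rw [Finset.sum_mul]
      refine Finset.sum_eq_zero fun k _ => ?_
      rw [smul_mul_assoc, T.PP0 x y i k (Ne.symm hi), smul_zero]
    · simp
  have h4 : (∑ i, ∑ k, M' k i • R i k) * P x y = 0 := by
    rw [Finset.sum_mul]
    refine Finset.sum_eq_zero fun i _ => ?_
    rw [Finset.sum_mul]
    refine Finset.sum_eq_zero fun k _ => ?_
    rw [smul_mul_assoc, T.RP x y i k, smul_zero]
  have h5 : (∑ j, c j • U j) * P x y = 0 := by
    rw [Finset.sum_mul]
    refine Finset.sum_eq_zero fun j _ => ?_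
    rw [smul_mul_assoc, T.UP x j y, smul_zero]
  have h6 : (∑ j, b j • W j) * P x y = 0 := by
    rw [Finset.sum_mul]
    refine Finset.sum_eq_zero fun j _ => ?_
    rw [smul_mul_assoc, T.WP x j y, smul_zero]
  unfold Fv
  rw [add_mul, add_mul, add_mul, add_mul, sub_mul, sub_mul, one_mul, h1, h2, h3, h4, h5, h6]
  abel

theorem mulR (T : Tab X P R U W) (M M' : Matrix (Fin n) (Fin n) ℤ) (c b : Fin n → ℤ)
    (x y : Fin n) : Fv P R U W M M' c b * R x y = ∑ i, M' x i • R i y + b x • W y := by
  have h1 : (∑ i, P i i) * R x y = 0 := by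
    rw [Finset.sum_mul]
    exact Finset.sum_eq_zero fun i _ => T.PR i i x y
  have h2 : (∑ i, R i i) * R x y = R x y := by
    rw [Finset.sum_mul, Finset.sum_eq_single x]
    · exact T.RR x x y
    · intro i _ hi
      exact T.RR0 i i x y hi
    · simp
  have h3 : (∑ i, ∑ k, M k i • P i k) * R x y = 0 := by
    rw [Finset.sum_mul]
    refine Finset.sum_eq_zero fun i _ => ?_
    rw [Finset.sum_mul]
    refine Finset.sum_eq_zero fun k _ => ?_
    rw [smul_mul_assoc, T.PR i k x y, smul_zero]
  have h4 : (∑ i, ∑ k, M' k i • R i k) * R x y = ∑ i, M' x i • R i y := by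
    rw [Finset.sum_mul]
    refine Finset.sum_congr rfl fun i _ => ?_
    rw [Finset.sum_mul, Finset.sum_eq_single x]
    · rw [smul_mul_assoc, T.RR i x y]
    · intro k _ hk
      rw [smul_mul_assoc, T.RR0 i k x y hk, smul_zero]
    · simp
  have h5 : (∑ j, c j • U j) * R x y = 0 := by
    rw [Finset.sum_mul]
    refine Finset.sum_eq_zero fun j _ => ?_
    rw [smul_mul_assoc, T.UR x j y, smul_zero]
  have h6 : (∑ j, b j • W j) * R x y = b x • W y := by
    rw [Finset.sum_mul, Finset.sum_eq_single x]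
    · rw [smul_mul_assoc, T.WR x y]
    · intro j _ hj
      rw [smul_mul_assoc, T.WR0 x j y (Ne.symm hj), smul_zero]
    · simp
  unfold Fv
  rw [add_mul, add_mul, add_mul, add_mul, sub_mul, sub_mul, one_mul, h1, h2, h3, h4, h5, h6]
  abel

theorem mulU (T : Tab X P R U W) (M M' : Matrix (Fin n) (Fin n) ℤ) (c b : Fin n → ℤ)
    (y : Fin n) : Fv P R U W M M' c b * U y = ∑ k, M k y • U k := by
  have h1 : (∑ i, P i i) * U y = U y := by
    rw [Finset.sum_mul, Finset.sum_eq_single y]
    · exact T.PU y y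
    · intro i _ hi
      exact T.PU0 i y i hi
    · simp
  have h2 : (∑ i, R i i) * U y = 0 := by
    rw [Finset.sum_mul]
    exact Finset.sum_eq_zero fun i _ => T.RU i y i
  have h3 : (∑ i, ∑ k, M k i • P i k) * U y = ∑ k, M k y • U k := by
    rw [Finset.sum_mul, Finset.sum_eq_single y]
    · rw [Finset.sum_mul]
      refine Finset.sum_congr rfl fun k _ => ?_
      rw [smul_mul_assoc, T.PU y k]
    · intro i _ hi
      rw [Finset.sum_mul]
      refine Finset.sum_eq_zero fun k _ => ?_
      rw [smul_mul_assoc, T.PU0 i y k hi, smul_zero]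
    · simp
  have h4 : (∑ i, ∑ k, M' k i • R i k) * U y = 0 := by
    rw [Finset.sum_mul]
    refine Finset.sum_eq_zero fun i _ => ?_
    rw [Finset.sum_mul]
    refine Finset.sum_eq_zero fun k _ => ?_
    rw [smul_mul_assoc, T.RU i y k, smul_zero]
  have h5 : (∑ j, c j • U j) * U y = 0 := by
    rw [Finset.sum_mul]
    refine Finset.sum_eq_zero fun j _ => ?_
    rw [smul_mul_assoc, T.UU j y, smul_zero]
  have h6 : (∑ j, b j • W j) * U y = 0 := by
    rw [Finset.sum_mul]
    refine Finset.sum_eq_zero fun j _ => ?_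
    rw [smul_mul_assoc, T.WU j y, smul_zero]
  unfold Fv
  rw [add_mul, add_mul, add_mul, add_mul, sub_mul, sub_mul, one_mul, h1, h2, h3, h4, h5, h6]
  abel

theorem mulW (T : Tab X P R U W) (M M' : Matrix (Fin n) (Fin n) ℤ) (c b : Fin n → ℤ)
    (y : Fin n) : Fv P R U W M M' c b * W y = W y := by
  have h1 : (∑ i, P i i) * W y = 0 := by
    rw [Finset.sum_mul]
    exact Finset.sum_eq_zero fun i _ => T.PW i y i
  have h2 : (∑ i, R i i) * W y = 0 := by
    rw [Finset.sum_mul]
    exact Finset.sum_eq_zero fun i _ => T.RW i y i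
  have h3 : (∑ i, ∑ k, M k i • P i k) * W y = 0 := by
    rw [Finset.sum_mul]
    refine Finset.sum_eq_zero fun i _ => ?_
    rw [Finset.sum_mul]
    refine Finset.sum_eq_zero fun k _ => ?_
    rw [smul_mul_assoc, T.PW i y k, smul_zero]
  have h4 : (∑ i, ∑ k, M' k i • R i k) * W y = 0 := by
    rw [Finset.sum_mul]
    refine Finset.sum_eq_zero fun i _ => ?_
    rw [Finset.sum_mul]
    refine Finset.sum_eq_zero fun k _ => ?_
    rw [smul_mul_assoc, T.RW i y k, smul_zero]
  have h5 : (∑ j, c j • U j) * W y = 0 := by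
    rw [Finset.sum_mul]
    refine Finset.sum_eq_zero fun j _ => ?_
    rw [smul_mul_assoc, T.UW j y, smul_zero]
  have h6 : (∑ j, b j • W j) * W y = 0 := by
    rw [Finset.sum_mul]
    refine Finset.sum_eq_zero fun j _ => ?_
    rw [smul_mul_assoc, T.WW j y, smul_zero]
  unfold Fv
  rw [add_mul, add_mul, add_mul, add_mul, sub_mul, sub_mul, one_mul, h1, h2, h3, h4, h5, h6]
  abel

theorem sumP (P : Fin n → Fin n → A) (M : Matrix (Fin n) (Fin n) ℤ) (x y : Fin n) :
    ∑ i, ∑ k, (M k i + if i = x then M k y else 0) • P i k =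
      ∑ i, ∑ k, M k i • P i k + ∑ k, M k y • P x k := by
  have h : ∀ i, ∑ k, (M k i + if i = x then M k y else 0) • P i k =
      ∑ k, M k i • P i k + if i = x then ∑ k, M k y • P x k else 0 := by
    intro i
    by_cases hi : i = x
    · subst hi
      simp only [if_true, add_smul, Finset.sum_add_distrib]
    · simp only [if_neg hi, add_zero]
  rw [Finset.sum_congr rfl fun i _ => h i, Finset.sum_add_distrib, Finset.sum_ite_eq']
  simp

theorem sumR (R : Fin n → Fin n → A) (M' : Matrix (Fin n) (Fin n) ℤ) (x y : Fin n) :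
    ∑ i, ∑ k, (M' k i - if k = y then M' x i else 0) • R i k =
      ∑ i, ∑ k, M' k i • R i k - ∑ i, M' x i • R i y := by
  rw [← Finset.sum_sub_distrib]
  refine Finset.sum_congr rfl fun i _ => ?_
  have h : ∀ k, (M' k i - if k = y then M' x i else 0) • R i k =
      M' k i • R i k - if k = y then M' x i • R i y else 0 := by
    intro k
    by_cases hk : k = y
    · subst hk
      simp only [if_true, sub_smul]
    · simp only [if_neg hk, sub_zero]
  rw [Finset.sum_congr rfl fun k _ => h k, Finset.sum_sub_distrib, Finset.sum_ite_eq']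
  simp

theorem sumW (W : Fin n → A) (b : Fin n → ℤ) (y : Fin n) (e : ℤ) :
    ∑ j, (b j - if j = y then e else 0) • W j = ∑ j, b j • W j - e • W y := by
  have h : ∀ k, (b k - if k = y then e else 0) • W k =
      b k • W k - if k = y then e • W y else 0 := by
    intro k
    by_cases hk : k = y
    · subst hk
      simp only [if_true, sub_smul]
    · simp only [if_neg hk, sub_zero]
  rw [Finset.sum_congr rfl fun k _ => h k, Finset.sum_sub_distrib, Finset.sum_ite_eq']
  simp

theorem sumU (U : Fin n → A) (c d : Fin n → ℤ) :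
    ∑ j, (c j - d j) • U j = ∑ j, c j • U j - ∑ j, d j • U j := by
  rw [← Finset.sum_sub_distrib]
  exact Finset.sum_congr rfl fun j _ => sub_smul _ _ _

/-- leaf FV -/
theorem t_FV : S_FV.{v} := by
  intro A _ n X P R U W T M M' c b x y hxy
  have hP := mulP T M M' c b x y
  have hR := mulR T M M' c b x y
  have hU := mulU T M M' c b y
  have hW := mulW T M M' c b y
  refine ⟨?_, ?_⟩
  · rw [mul_add, mul_one, T.tr x y hxy, mul_sub, hP, hR]
    unfold Fv
    rw [sumP P M x y, sumR R M' x y, sumW W b y (b x)]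
    abel
  · rw [mul_add, mul_one, T.fl x y hxy, mul_sub, mul_sub, mul_sub, hP, hR, hU, hW]
    unfold Fv
    rw [sumP P M x y, sumR R M' x y, sumW W b y (b x + 1), sumU U c (fun j => M j y), add_smul,
      one_smul]
    abel

end Pool.Agent.N66.AF.FV
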