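import Pool.Agent.N66.AF.Stm

set_option autoImplicit false

/-! Leaf GA: automorphisms which are trivial modulo the third term of the lower central series. -/

namespace Pool.Agent.N66.AF.GA

open Pool.Agent.N66.AF
open FreeGroup (of)
open scoped commutatorElement

variable {n : ℕ}

theorem ex_mul (k : Fin n) (a b : FreeGroup (Fin n)) : ex k (a * b) = ex k a + ex k b := by
  simp [ex]

theorem ex_inv (k : Fin n) (a : FreeGroup (Fin n)) : ex k a⁻¹ = - ex k a := by
  simp [ex]

theorem ex_one (k : Fin n) : ex k (1 : FreeGroup (Fin n)) = 0 := by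
  simp [ex]

theorem ex_of (k i : Fin n) : ex k (of i) = if i = k then 1 else 0 := by
  simp [ex]

theorem mu_of (j k i : Fin n) : ((mu j k (of i) : Matrix.SpecialLinearGroup (Fin 3) ℤ) : Matrix (Fin 3) (Fin 3) ℤ) =
    !![1, if i = j then 1 else 0, 0; 0, 1, if i = k then 1 else 0; 0, 0, 1] := by
  have h : mu j k (of i) = (⟨!![1, if i = j then 1 else 0, 0; 0, 1, if i = k then 1 else 0; 0, 0, 1], by
      simp [Matrix.det_fin_three]⟩ : Matrix.SpecialLinearGroup (Fin 3) ℤ) :=
    FreeGroup.lift_apply_of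
  exact congrArg Subtype.val h

theorem mu_mul (j k : Fin n) (a b : FreeGroup (Fin n)) :
    ((mu j k (a * b) : Matrix.SpecialLinearGroup (Fin 3) ℤ) : Matrix (Fin 3) (Fin 3) ℤ) =
      (mu j k a : Matrix (Fin 3) (Fin 3) ℤ) * (mu j k b : Matrix (Fin 3) (Fin 3) ℤ) := by
  rw [map_mul, Matrix.SpecialLinearGroup.coe_mul]

/-- the form of the matrices -/
theorem form (j k : Fin n) (g : FreeGroup (Fin n)) :
    ∃ x : ℤ, ((mu j k g : Matrix.SpecialLinearGroup (Fin 3) ℤ) : Matrix (Fin 3) (Fin 3) ℤ) =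
      !![1, ex j g, x; 0, 1, ex k g; 0, 0, 1] := by
  induction g using FreeGroup.induction_on with
  | C1 =>
    refine ⟨0, ?_⟩
    rw [map_one, Matrix.SpecialLinearGroup.coe_one, ex_one, ex_one]
    ext a b
    fin_cases a <;> fin_cases b <;> rfl
  | of i =>
    refine ⟨0, ?_⟩
    have h : (pure i : FreeGroup (Fin n)) = of i := rfl
    rw [mu_of, ex_of, ex_of]
  | inv_of i ih =>
    obtain ⟨x, hx⟩ := ih
    refine ⟨ex j (of i) * ex k (of i) - x, ?_⟩
    rw [map_inv, Matrix.SpecialLinearGroup.coe_inv, hx, ex_inv, ex_inv, Matrix.adjugate_fin_three]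
    ext a b
    fin_cases a <;> fin_cases b <;> simp
  | mul a b ha hb =>
    obtain ⟨x, hx⟩ := ha
    obtain ⟨y, hy⟩ := hb
    refine ⟨y + ex j a * ex k b + x, ?_⟩
    rw [mu_mul, hx, hy, ex_mul, ex_mul]
    ext c d
    fin_cases c <;> fin_cases d <;> simp [Matrix.mul_apply, Fin.sum_univ_three] <;> ring

/-- the exponent sums vanish on the commutator subgroup -/
theorem ex_comm (k : Fin n) (g : FreeGroup (Fin n))
    (hg : g ∈ (⊤ : Subgroup (FreeGroup (Fin n))).lowerCentralSeries 1) : ex k g = 0 := by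
  have h1 : (⊤ : Subgroup (FreeGroup (Fin n))).lowerCentralSeries 1 ≤
      (FreeGroup.lift (fun i : Fin n => Multiplicative.ofAdd (if i = k then (1 : ℤ) else 0))).ker := by
    rw [Subgroup.lowerCentralSeries_succ, Subgroup.commutator_le]
    intro a _ b _
    rw [MonoidHom.mem_ker, map_commutatorElement]
    exact commutatorElement_eq_one_iff_mul_comm.2 (mul_comm _ _)
  have h2 := h1 hg
  rw [MonoidHom.mem_ker] at h2
  unfold ex
  rw [h2]
  rfl

theorem mu_gamma (j k : Fin n) (g : FreeGroup (Fin n))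
    (hg : g ∈ (⊤ : Subgroup (FreeGroup (Fin n))).lowerCentralSeries 2) : mu j k g = 1 := by
  have h1 : (⊤ : Subgroup (FreeGroup (Fin n))).lowerCentralSeries 2 ≤ (mu j k).ker := by
    rw [Subgroup.lowerCentralSeries_succ, Subgroup.commutator_le]
    intro a ha b _
    rw [MonoidHom.mem_ker, map_commutatorElement]
    apply commutatorElement_eq_one_iff_mul_comm.2
    apply Subtype.ext
    rw [Matrix.SpecialLinearGroup.coe_mul, Matrix.SpecialLinearGroup.coe_mul]
    obtain ⟨x, hx⟩ := form j k a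
    obtain ⟨y, hy⟩ := form j k b
    rw [hx, hy, ex_comm j a ha, ex_comm k a ha]
    ext c d
    fin_cases c <;> fin_cases d <;> simp [Matrix.mul_apply, Fin.sum_univ_three]
    ring
  exact MonoidHom.mem_ker.1 (h1 hg)

theorem t_GA : S_GA := by
  intro n φ h
  have h1 : ∀ j k i : Fin n, mu j k (φ (of i)) = mu j k (of i) := by
    intro j k i
    have h2 := mu_gamma j k _ (h (of i))
    rw [map_mul, map_inv] at h2
    exact mul_inv_eq_one.1 h2
  refine ⟨?_, ?_⟩
  · ext k i
    obtain ⟨x, hx⟩ := form k k (φ (of i))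
    obtain ⟨y, hy⟩ := form k k (of i)
    rw [h1 k k i, hy] at hx
    have h3 := congrFun (congrFun hx 0) 1
    have h4 : ex k (of i) = ex k (φ (of i)) := by simpa using h3
    show ex k (φ (of i)) = _
    rw [← h4, ex_of, Matrix.one_apply]
    by_cases h5 : i = k
    · simp [h5]
    · rw [if_neg h5, if_neg (Ne.symm h5)]
  · intro j k i
    unfold q
    rw [h1 j k i, mu_of]
    rfl

end Pool.Agent.N66.AF.GA
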