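import Pool.Agent.N66.AF.Stm

/-!
# Project AF, leaf MM: exponent sums and Magnus coefficients
-/

set_option autoImplicit false

namespace Pool.Agent.N66.AF.MM

open Pool.Agent.N66.AF
open FreeGroup (of)

variable {n : ℕ}

theorem ex_mul (k : Fin n) (g h : FreeGroup (Fin n)) : ex k (g * h) = ex k g + ex k h := by
  unfold ex
  rw [map_mul, toAdd_mul]

theorem ex_one (k : Fin n) : ex k (1 : FreeGroup (Fin n)) = 0 := by
  unfold ex
  rw [map_one, toAdd_one]

theorem ex_inv (k : Fin n) (g : FreeGroup (Fin n)) : ex k g⁻¹ = - ex k g := by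
  unfold ex
  rw [map_inv, toAdd_inv]

theorem ex_of (k i : Fin n) : ex k (of i) = if i = k then 1 else 0 := by
  unfold ex
  rw [FreeGroup.lift_apply_of, toAdd_ofAdd]

theorem ex_map (φ : MulAut (FreeGroup (Fin n))) (k : Fin n) (w : FreeGroup (Fin n)) :
    ex k (φ w) = ∑ i, mat φ k i * ex i w := by
  induction w using FreeGroup.induction_on with
  | C1 => simp [ex_one]
  | of x =>
    have h : ∀ i, ex i (of x) = if x = i then 1 else 0 := fun i => ex_of i x
    simp [h, mat]
  | inv_of x ih =>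
    simp only [map_inv, ex_inv, mul_neg, Finset.sum_neg_distrib]
    rw [← ih]
  | mul x y hx hy =>
    rw [map_mul, ex_mul, hx, hy, ← Finset.sum_add_distrib]
    refine Finset.sum_congr rfl fun i _ => ?_
    rw [ex_mul, mul_add]

/-- the entries of the matrices `mu j k g`, except one -/
structure Ent (j k : Fin n) (g : FreeGroup (Fin n)) (M : Matrix (Fin 3) (Fin 3) ℤ) : Prop where
  h00 : M 0 0 = 1
  h01 : M 0 1 = ex j g
  h10 : M 1 0 = 0
  h11 : M 1 1 = 1
  h12 : M 1 2 = ex k g
  h20 : M 2 0 = 0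
  h21 : M 2 1 = 0
  h22 : M 2 2 = 1

theorem mu_of (j k x : Fin n) : (mu j k (of x) : Matrix (Fin 3) (Fin 3) ℤ) =
    !![1, if x = j then 1 else 0, 0; 0, 1, if x = k then 1 else 0; 0, 0, 1] := by
  have h := @FreeGroup.lift_apply_of (Fin n) (Matrix.SpecialLinearGroup (Fin 3) ℤ) _
    (fun i => ⟨!![1, if i = j then 1 else 0, 0; 0, 1, if i = k then 1 else 0; 0, 0, 1], by
      simp [Matrix.det_fin_three]⟩) x
  exact congrArg Subtype.val h

theorem ent (j k : Fin n) (g : FreeGroup (Fin n)) :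
    Ent j k g (mu j k g : Matrix (Fin 3) (Fin 3) ℤ) := by
  induction g using FreeGroup.induction_on with
  | C1 => constructor <;> simp [ex_one]
  | of x =>
    rw [mu_of]
    constructor <;> simp [ex_of]
  | inv_of x ih =>
    have h : (mu j k (of x)⁻¹ : Matrix (Fin 3) (Fin 3) ℤ) =
        (mu j k (of x) : Matrix (Fin 3) (Fin 3) ℤ).adjugate := by
      rw [map_inv, Matrix.SpecialLinearGroup.coe_inv]
    rw [h, Matrix.adjugate_fin_three]
    obtain ⟨a, b, c, d, e, f, g, h'⟩ := ih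
    constructor <;> simp [a, b, c, d, e, f, g, h', ex_inv]
  | mul x y hx hy =>
    have h : (mu j k (x * y) : Matrix (Fin 3) (Fin 3) ℤ) =
        (mu j k x : Matrix (Fin 3) (Fin 3) ℤ) * (mu j k y : Matrix (Fin 3) (Fin 3) ℤ) := by
      rw [map_mul, Matrix.SpecialLinearGroup.coe_mul]
    rw [h]
    constructor <;> rw [Matrix.mul_apply, Fin.sum_univ_three] <;>
      simp [hx.h00, hx.h01, hx.h10, hx.h11, hx.h12, hx.h20, hx.h21, hx.h22,
        hy.h00, hy.h01, hy.h10, hy.h11, hy.h12, hy.h20, hy.h21, hy.h22, ex_mul, add_comm]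

theorem q_mul (j k : Fin n) (g h : FreeGroup (Fin n)) :
    q j k (g * h) = q j k g + q j k h + ex j g * ex k h := by
  have e : (mu j k (g * h) : Matrix (Fin 3) (Fin 3) ℤ) =
      (mu j k g : Matrix (Fin 3) (Fin 3) ℤ) * (mu j k h : Matrix (Fin 3) (Fin 3) ℤ) := by
    rw [map_mul, Matrix.SpecialLinearGroup.coe_mul]
  unfold q
  rw [e, Matrix.mul_apply, Fin.sum_univ_three, (ent j k g).h00, (ent j k g).h01, (ent j k h).h12,
    (ent j k h).h22]
  ring

theorem t_MM : S_MM := by
  intro n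
  refine ⟨fun φ ψ => ?_, fun j g h => ex_mul j g h, fun j k g h => q_mul j k g h, fun j k i => ?_⟩
  · ext k i
    rw [Matrix.mul_apply]
    show ex k ((φ * ψ) (of i)) = _
    rw [MulAut.mul_apply, ex_map]
    rfl
  · refine ⟨?_, ex_of j i⟩
    unfold q
    rw [mu_of]
    simp

end Pool.Agent.N66.AF.MM
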