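import Mathlib

set_option autoImplicit false

/-! Project AF: representations of `Aut(F_n)` of dimension less than `binom (n / 2 - 5) 2`.
Definitions and the statements of the leaves. -/

namespace Pool.Agent.N66.AF

open FreeGroup (of)

universe u v

section aut
variable {n : ℕ}

/-- the endomorphism `x_i ↦ u x_i v`, the other generators are fixed -/
def uvE (i : Fin n) (u v : FreeGroup (Fin n)) : FreeGroup (Fin n) →* FreeGroup (Fin n) :=
  FreeGroup.lift fun k => if k = i then u * of i * v else of k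

theorem uvE_comp (i : Fin n) {u v : FreeGroup (Fin n)}
    (hu : ∀ u' v', uvE i u' v' u = u) (hv : ∀ u' v', uvE i u' v' v = v) :
    (uvE i u v).comp (uvE i u⁻¹ v⁻¹) = MonoidHom.id _ := by
  apply FreeGroup.ext_hom
  intro k
  rw [MonoidHom.comp_apply]
  by_cases h : k = i
  · subst h
    simp only [uvE, FreeGroup.lift_apply_of, if_true, map_mul, map_inv, MonoidHom.id_apply]
    have h1 := hu u v
    have h2 := hv u v
    simp only [uvE] at h1 h2
    rw [h1, h2]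
    group
  · simp [uvE, h]

theorem uvE_of (i : Fin n) {j : Fin n} (h : j ≠ i) (u v : FreeGroup (Fin n)) :
    uvE i u v (of j) = of j := by
  simp [uvE, h]

/-- `x_i ↦ x_i x_j` -/
def RR (i j : Fin n) : MulAut (FreeGroup (Fin n)) :=
  if h : j = i then 1 else
    MonoidHom.toMulEquiv (uvE i 1 (of j)) (uvE i 1 (of j)⁻¹)
      (by
        have := uvE_comp i (u := (1 : FreeGroup (Fin n))⁻¹) (v := (of j)⁻¹) (fun _ _ => by simp)
          (fun u' v' => by rw [map_inv, uvE_of i h])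
        simpa using this)
      (by
        have := uvE_comp i (u := (1 : FreeGroup (Fin n))) (v := of j) (fun _ _ => by simp)
          (fun u' v' => by rw [uvE_of i h])
        simpa using this)

/-- `x_i ↦ x_j x_i` -/
def LL (i j : Fin n) : MulAut (FreeGroup (Fin n)) :=
  if h : j = i then 1 else
    MonoidHom.toMulEquiv (uvE i (of j) 1) (uvE i (of j)⁻¹ 1)
      (by
        have := uvE_comp i (u := (of j)⁻¹) (v := (1 : FreeGroup (Fin n))⁻¹)
          (fun u' v' => by rw [map_inv, uvE_of i h]) (fun _ _ => by simp)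
        simpa using this)
      (by
        have := uvE_comp i (u := of j) (v := (1 : FreeGroup (Fin n)))
          (fun u' v' => by rw [uvE_of i h]) (fun _ _ => by simp)
        simpa using this)

theorem RR_self {i j : Fin n} (h : i ≠ j) : RR i j (of i) = of i * of j := by
  unfold RR
  rw [dif_neg h.symm]
  show uvE i 1 (of j) (of i) = _
  simp [uvE]

theorem RR_ne {i j k : Fin n} (h : k ≠ i) : RR i j (of k) = of k := by
  unfold RR
  split_ifs with h1
  · rfl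
  · show uvE i 1 (of j) (of k) = _
    simp [uvE, h]

theorem LL_self {i j : Fin n} (h : i ≠ j) : LL i j (of i) = of j * of i := by
  unfold LL
  rw [dif_neg h.symm]
  show uvE i (of j) 1 (of i) = _
  simp [uvE]

theorem LL_ne {i j k : Fin n} (h : k ≠ i) : LL i j (of k) = of k := by
  unfold LL
  split_ifs with h1
  · rfl
  · show uvE i (of j) 1 (of k) = _
    simp [uvE, h]

theorem aut_ext {φ ψ : MulAut (FreeGroup (Fin n))} (h : ∀ x, φ (of x) = ψ (of x)) : φ = ψ := by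
  apply MulEquiv.ext
  intro w
  have h1 : (φ : FreeGroup (Fin n) →* FreeGroup (Fin n)) = (ψ : FreeGroup (Fin n) →* FreeGroup (Fin n)) :=
    FreeGroup.ext_hom _ _ h
  exact DFunLike.congr_fun h1 w

/-- the transvections: `TT true i j = RR i j`, `TT false i j = LL i j` -/
def TT (s : Bool) (i j : Fin n) : MulAut (FreeGroup (Fin n)) := if s then RR i j else LL i j

/-- the subgroup generated by the transvections -/
def SA (n : ℕ) : Subgroup (MulAut (FreeGroup (Fin n))) :=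
  Subgroup.closure {τ | ∃ (s : Bool) (i j : Fin n), i ≠ j ∧ τ = TT s i j}

/-- the exponent sum of `x_k` -/
def ex (k : Fin n) (g : FreeGroup (Fin n)) : ℤ :=
  Multiplicative.toAdd
    (FreeGroup.lift (fun i : Fin n => Multiplicative.ofAdd (if i = k then (1 : ℤ) else 0)) g)

/-- the matrix of `φ` on the abelianization; column `i` is the image of `x_i` -/
def mat (φ : MulAut (FreeGroup (Fin n))) : Matrix (Fin n) (Fin n) ℤ :=
  fun k i => ex k (φ (of i))

/-- the homomorphism to the Heisenberg group given by the exponent sums of `x_j` and `x_k` -/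
def mu (j k : Fin n) : FreeGroup (Fin n) →* Matrix.SpecialLinearGroup (Fin 3) ℤ :=
  FreeGroup.lift fun i =>
    ⟨!![1, if i = j then 1 else 0, 0; 0, 1, if i = k then 1 else 0; 0, 0, 1], by
      simp [Matrix.det_fin_three]⟩

/-- the coefficient of `X_j X_k` in the Magnus expansion of `g` -/
def q (j k : Fin n) (g : FreeGroup (Fin n)) : ℤ :=
  (mu j k g : Matrix (Fin 3) (Fin 3) ℤ) 0 2

/-- the crossed homomorphism of `Aut(F_n)` with values in `ℤ ^ n` -/
def cr (φ : MulAut (FreeGroup (Fin n))) : Fin n → ℤ :=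
  fun j => - ∑ i, ∑ k, q j k (φ (of i)) * mat φ⁻¹ i k

/-- the intersection of the kernels of all homomorphisms to `GL_3(𝔽_p)` -/
def Cp (n p : ℕ) : Subgroup (FreeGroup (Fin n)) :=
  ⨅ f : FreeGroup (Fin n) →* Matrix.GeneralLinearGroup (Fin 3) (ZMod p), f.ker

end aut

section alg
variable {A : Type v} [Ring A] {n : ℕ}

/-- relations of the operators `N i j = f (RR i j) - 1` -/
structure RelN (N : Fin n → Fin n → A) : Prop where
  zero : ∀ i j k l : Fin n, i ≠ j → k ≠ l → j ≠ k → i ≠ l → N i j * N k l = 0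
  comm : ∀ i j k : Fin n, i ≠ j → j ≠ k → i ≠ k → N i k = N j k * N i j - N i j * N j k

/-- relations of the operators `X s i j = f (TT s i j) - 1` -/
structure Rel (X : Bool → Fin n → Fin n → A) : Prop where
  zero : ∀ (a b : Bool) (i j k l : Fin n), i ≠ j → k ≠ l → j ≠ k → i ≠ l → X a i j * X b k l = 0
  comm : ∀ (a b : Bool) (i j k : Fin n), i ≠ j → j ≠ k → i ≠ k →
    X a i k = X b j k * X a i j - X a i j * X b j k
  same : ∀ i j l : Fin n, i ≠ j → i ≠ l → j ≠ l →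
    X true i l - X false i l = X true j l - X false j l

/-- the matrix units `P i j : e_i ↦ e_j` -/
structure Unit1 (N P : Fin n → Fin n → A) : Prop where
  val : ∀ i k j m : Fin n, j ≠ m → j ≠ i → j ≠ k → m ≠ i → m ≠ k →
    P i k = N m k * N j m * N i j
  NP : ∀ i j k : Fin n, j ≠ k → N j k * P i j = P i k
  NP0 : ∀ i j k l : Fin n, k ≠ l → j ≠ k → N k l * P i j = 0
  PN : ∀ i j k : Fin n, i ≠ j → P j k * N i j = P i k
  PN0 : ∀ i j k l : Fin n, i ≠ j → j ≠ k → P k l * N i j = 0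

/-- properties of `D j = N i j - L i j` -/
structure RelD (N : Fin n → Fin n → A) (D : Fin n → A) : Prop where
  DN : ∀ i j k : Fin n, i ≠ j → k ≠ i → D k * N i j = 0
  ND : ∀ i j k : Fin n, i ≠ j → k ≠ i → N i j * D k = 0
  comm : ∀ i j : Fin n, i ≠ j → D j = N i j * D i - D i * N i j
  DD : ∀ i j : Fin n, D i * D j = 0

/-- the parts `U j`, `W j` of `D j` -/
structure RelU (N : Fin n → Fin n → A) (D U W : Fin n → A) : Prop where
  sum : ∀ j, D j = U j + W j
  NU : ∀ i j : Fin n, i ≠ j → N i j * U i = U j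
  NU0 : ∀ i j k : Fin n, i ≠ j → k ≠ i → N i j * U k = 0
  UN : ∀ i j k : Fin n, i ≠ j → U k * N i j = 0
  NW : ∀ i j k : Fin n, i ≠ j → N i j * W k = 0
  WN : ∀ i j : Fin n, i ≠ j → W i * N i j = - W j
  WN0 : ∀ i j k : Fin n, i ≠ j → k ≠ i → W k * N i j = 0
  UU : ∀ i j, U i * U j = 0
  UW : ∀ i j, U i * W j = 0
  WU : ∀ i j, W i * U j = 0
  WW : ∀ i j, W i * W j = 0

/-- the table of products -/
structure Tab (X : Bool → Fin n → Fin n → A) (P R : Fin n → Fin n → A) (U W : Fin n → A) :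
    Prop where
  tr : ∀ i j, i ≠ j → X true i j = P i j - R i j
  fl : ∀ i j, i ≠ j → X false i j = P i j - R i j - U j - W j
  PP : ∀ i j k, P j k * P i j = P i k
  PP0 : ∀ i j k l, j ≠ k → P k l * P i j = 0
  RR : ∀ i j k, R i j * R j k = R i k
  RR0 : ∀ i j k l, j ≠ k → R i j * R k l = 0
  PR : ∀ i j k l, P i j * R k l = 0
  RP : ∀ i j k l, R k l * P i j = 0
  PU : ∀ i k, P i k * U i = U k
  PU0 : ∀ i j k, i ≠ j → P i k * U j = 0
  UP : ∀ i j k, U j * P i k = 0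
  UR : ∀ i j k, U j * R i k = 0
  RU : ∀ i j k, R i k * U j = 0
  WR : ∀ i k, W i * R i k = W k
  WR0 : ∀ i j k, i ≠ j → W j * R i k = 0
  RW : ∀ i j k, R i k * W j = 0
  PW : ∀ i j k, P i k * W j = 0
  WP : ∀ i j k, W j * P i k = 0
  UU : ∀ i j, U i * U j = 0
  UW : ∀ i j, U i * W j = 0
  WU : ∀ i j, W i * U j = 0
  WW : ∀ i j, W i * W j = 0

/-- the value of the representation determined by a table -/
def Fv (P R : Fin n → Fin n → A) (U W : Fin n → A) (M M' : Matrix (Fin n) (Fin n) ℤ)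
    (c b : Fin n → ℤ) : A :=
  1 - ∑ i, P i i - ∑ i, R i i + ∑ i, ∑ k, M k i • P i k + ∑ i, ∑ k, M' k i • R i k +
    ∑ j, c j • U j + ∑ j, b j • W j

end alg

/-! ### The statements of the leaves -/

/-- leaf ZA -/
def S_ZA : Prop := ∀ (A : Type v) [Ring A] (n : ℕ), 6 ≤ n → ∀ f : MulAut (FreeGroup (Fin n)) →* A,
  (∀ i j : Fin n, i ≠ j → (f (RR i j) - 1) * (f (RR i j) - 1) = 0) →
  (∀ i j k l : Fin n, i ≠ j → i ≠ k → i ≠ l → j ≠ k → j ≠ l → k ≠ l →
    (f (RR i j) - 1) * (f (RR k l) - 1) = 0) →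
  ∀ i j k l : Fin n, i ≠ j → k ≠ l → j ≠ k → i ≠ l → (f (RR i j) - 1) * (f (RR k l) - 1) = 0

/-- leaf ZB -/
def S_ZB : Prop := ∀ (A : Type v) [Ring A] (n : ℕ), 6 ≤ n → ∀ f : MulAut (FreeGroup (Fin n)) →* A,
  (∀ i j k l : Fin n, i ≠ j → k ≠ l → j ≠ k → i ≠ l →
    (f (RR i j) - 1) * (f (RR k l) - 1) = 0) →
  ∀ (a b : Bool) (i j k l : Fin n), i ≠ j → k ≠ l → j ≠ k → i ≠ l →
    (f (TT a i j) - 1) * (f (TT b k l) - 1) = 0

/-- leaf CN -/
def S_CN : Prop := ∀ (A : Type v) [Ring A] (n : ℕ), 6 ≤ n → ∀ f : MulAut (FreeGroup (Fin n)) →* A,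
  (∀ (a b : Bool) (i j k l : Fin n), i ≠ j → k ≠ l → j ≠ k → i ≠ l →
    (f (TT a i j) - 1) * (f (TT b k l) - 1) = 0) →
  ∀ (a b : Bool) (i j k : Fin n), i ≠ j → j ≠ k → i ≠ k →
    f (TT a i k) - 1 = (f (TT b j k) - 1) * (f (TT a i j) - 1) -
      (f (TT a i j) - 1) * (f (TT b j k) - 1)

/-- leaf SN -/
def S_SN : Prop := ∀ (A : Type v) [Ring A] (n : ℕ), 6 ≤ n → ∀ f : MulAut (FreeGroup (Fin n)) →* A,
  (∀ (a b : Bool) (i j k l : Fin n), i ≠ j → k ≠ l → j ≠ k → i ≠ l →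
    (f (TT a i j) - 1) * (f (TT b k l) - 1) = 0) →
  ∀ i j l : Fin n, i ≠ j → i ≠ l → j ≠ l →
    f (RR i l) - f (LL i l) = f (RR j l) - f (LL j l)

/-- leaf PU -/
def S_PU : Prop := ∀ (A : Type v) [Ring A] (n : ℕ), 6 ≤ n → ∀ N : Fin n → Fin n → A,
  RelN N → ∃ P : Fin n → Fin n → A, Unit1 N P

/-- leaf DU -/
def S_DU : Prop := ∀ (A : Type v) [Ring A] (n : ℕ), 6 ≤ n → ∀ X : Bool → Fin n → Fin n → A,
  Rel X → ∃ D : Fin n → A, (∀ i j, i ≠ j → D j = X true i j - X false i j) ∧ RelD (X true) D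

/-- leaf UW -/
def S_UW : Prop := ∀ (A : Type v) [Ring A] (n : ℕ), 6 ≤ n → ∀ (N : Fin n → Fin n → A)
  (D : Fin n → A), RelN N → RelD N D → ∃ U W : Fin n → A, RelU N D U W

/-- leaf TB -/
def S_TB : Prop := ∀ (A : Type v) [Ring A] (n : ℕ), 6 ≤ n → ∀ (X : Bool → Fin n → Fin n → A)
  (P Q : Fin n → Fin n → A) (D U W : Fin n → A), RelN (X true) → Unit1 (X true) P →
  Unit1 (fun i j => - X true j i) Q → (∀ i j, i ≠ j → D j = X true i j - X false i j) →
  RelU (X true) D U W → Tab X P (fun i j => Q j i) U W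

/-- leaf MM -/
def S_MM : Prop := ∀ n : ℕ,
  (∀ φ ψ : MulAut (FreeGroup (Fin n)), mat (φ * ψ) = mat φ * mat ψ) ∧
  (∀ (j : Fin n) (g h : FreeGroup (Fin n)), ex j (g * h) = ex j g + ex j h) ∧
  (∀ (j k : Fin n) (g h : FreeGroup (Fin n)), q j k (g * h) = q j k g + q j k h + ex j g * ex k h) ∧
  (∀ (j k i : Fin n), q j k (of i) = 0 ∧ ex j (of i) = if i = j then 1 else 0)

/-- leaf CR -/
def S_CR : Prop := S_MM → ∀ (n : ℕ) (φ : MulAut (FreeGroup (Fin n))) (a b : Fin n), a ≠ b →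
  (∀ s : Bool, (∀ k i, mat (φ * TT s a b) k i = mat φ k i + if i = a then mat φ k b else 0) ∧
    ∀ k i, mat (φ * TT s a b)⁻¹ k i = mat φ⁻¹ k i - if k = b then mat φ⁻¹ a i else 0) ∧
  cr (φ * RR a b) = cr φ ∧ (∀ j, cr (φ * LL a b) j = cr φ j - mat φ j b)

/-- leaf FV -/
def S_FV : Prop := ∀ (A : Type v) [Ring A] (n : ℕ) (X : Bool → Fin n → Fin n → A)
  (P R : Fin n → Fin n → A) (U W : Fin n → A), Tab X P R U W →
  ∀ (M M' : Matrix (Fin n) (Fin n) ℤ) (c b : Fin n → ℤ) (x y : Fin n), x ≠ y →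
  Fv P R U W M M' c b * (1 + X true x y) =
    Fv P R U W (fun k i => M k i + if i = x then M k y else 0)
      (fun k i => M' k i - if k = y then M' x i else 0) c (fun j => b j - if j = y then b x else 0) ∧
  Fv P R U W M M' c b * (1 + X false x y) =
    Fv P R U W (fun k i => M k i + if i = x then M k y else 0)
      (fun k i => M' k i - if k = y then M' x i else 0) (fun j => c j - M j y)
      (fun j => b j - if j = y then b x + 1 else 0)

/-- leaf SG -/
def S_SG : Prop := ∀ (n : ℕ) (φ : MulAut (FreeGroup (Fin n))), (mat φ).det = 1 → φ ∈ SA n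

/-- leaf CC -/
def S_CC : Prop := ∀ (n p : ℕ), p.Prime → (Cp n p).Characteristic ∧ (Cp n p).FiniteIndex ∧
  ∀ φ : MulAut (FreeGroup (Fin n)), (∀ x, φ x * x⁻¹ ∈ Cp n p) →
    (∀ k i, (p : ℤ) ∣ mat φ k i - (1 : Matrix (Fin n) (Fin n) ℤ) k i) ∧
    ∀ j k i, (p : ℤ) ∣ q j k (φ (of i))

/-- leaf FI -/
def S_FI : Prop := ∀ (n : ℕ) (C : Subgroup (FreeGroup (Fin n))), C.Characteristic → C.FiniteIndex →
  ∀ N : Subgroup (MulAut (FreeGroup (Fin n))),
    (∀ φ : MulAut (FreeGroup (Fin n)), (∀ x, φ x * x⁻¹ ∈ C) → φ ∈ N) →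
    N.FiniteIndex ∧ ((∀ g : FreeGroup (Fin n), MulAut.conj g ∈ N) →
      ∀ ψ : MulAut (FreeGroup (Fin n)),
        (∃ g : FreeGroup (Fin n), ∀ x, ψ x * (g * x * g⁻¹)⁻¹ ∈ C) → ψ ∈ N)

/-- leaf GA -/
def S_GA : Prop := ∀ (n : ℕ) (φ : MulAut (FreeGroup (Fin n))),
  (∀ x, φ x * x⁻¹ ∈ (⊤ : Subgroup (FreeGroup (Fin n))).lowerCentralSeries 2) →
    mat φ = 1 ∧ ∀ j k i, q j k (φ (of i)) = 0

/-- leaf IN -/
def S_IN : Prop := ∀ (A : Type v) [Ring A] (n : ℕ), 6 ≤ n → ∀ f : MulAut (FreeGroup (Fin n)) →* A,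
  Rel (fun s i j => f (TT s i j) - 1) →
  ∀ i j : Fin n, i ≠ j → f (MulAut.conj (of j)) = 1 - ((n : ℤ) - 1) • (f (RR i j) - f (LL i j))

/-- leaf PA -/
def S_PA : Prop := ∀ (n d : ℕ), d < (n / 2 - 5).choose 2 → ∀ (K : Type u) [Field K]
  (f : MulAut (FreeGroup (Fin n)) →* Matrix.GeneralLinearGroup (Fin d) K),
  (∀ i j : Fin n, i ≠ j → ((f (RR i j) : Matrix (Fin d) (Fin d) K) - 1) *
    ((f (RR i j) : Matrix (Fin d) (Fin d) K) - 1) = 0) ∧
  ∀ i j k l : Fin n, i ≠ j → i ≠ k → i ≠ l → j ≠ k → j ≠ l → k ≠ l →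
    ((f (RR i j) : Matrix (Fin d) (Fin d) K) - 1) *
      ((f (RR k l) : Matrix (Fin d) (Fin d) K) - 1) = 0

end Pool.Agent.N66.AF
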