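import Mathlib
import Pool.Agent.N66.AF.Stm
import Pool.Agent.R352.CH.A
import Pool.Agent.TH35.CH.TrvQ

set_option autoImplicit false

/-! Project AF, leaf PA: products of operators of transvections in representations of
`Aut(F_n)` of dimension less than `binom (n / 2 - 5) 2`. -/

namespace Pool.Agent.N66.AF.PA

open Pool.Agent.N66.AF
open Pool.Agent.H798R3.MG Pool.Agent.H29R2.MG Pool.Agent.TH35.MG Pool.Agent.TH35.CH
  Pool.Agent.Helper950.BG Pool.Agent.R352.MG Module

universe u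

/-- two disjoint transvections in representations of dimension less than `binom (n / 2 - 5) 2` -/
theorem pair_zero {n d : ℕ} (hn : 7 ≤ n / 2) (hd1 : d < (n / 2 - 5).choose 2)
    (hd2 : d < 2 ^ (n / 2 - 6))
    (K : Type u) [Field K] (f : MulAut (FreeGroup (Fin n)) →* Matrix.GeneralLinearGroup (Fin d) K)
    {τ τ' : MulAut (FreeGroup (Fin n))} {i j i' j' : Fin n} (hij : i ≠ j) (hii : i ≠ i')
    (hij' : i ≠ j') (hji : j ≠ i') (hjj : j ≠ j') (hij'' : i' ≠ j')
    (h1 : τ (FreeGroup.of i) = FreeGroup.of i * FreeGroup.of j)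
    (h2 : ∀ k, k ≠ i → τ (FreeGroup.of k) = FreeGroup.of k)
    (h1' : τ' (FreeGroup.of i') = FreeGroup.of i' * FreeGroup.of j')
    (h2' : ∀ k, k ≠ i' → τ' (FreeGroup.of k) = FreeGroup.of k) :
    ((f τ : Matrix (Fin d) (Fin d) K) - 1) * ((f τ' : Matrix (Fin d) (Fin d) K) - 1) = 0 := by
  have hg0 : 0 < n / 2 := by omega
  have hg1 : 1 < n / 2 := by omega
  let γ := (Fin (n / 2) ⊕ Fin (n / 2)) ⊕ Fin (n - (n / 2 + n / 2))
  let e0 : γ ≃ Fin n :=
    Fintype.equivFinOfCardEq (by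
      simp only [γ, Fintype.card_sum, Fintype.card_fin]
      omega)
  let b0 : γ := Sum.inl (Sum.inr ⟨0, hg0⟩)
  let a0 : γ := Sum.inl (Sum.inl ⟨0, hg0⟩)
  let b1 : γ := Sum.inl (Sum.inr ⟨1, hg1⟩)
  let a1 : γ := Sum.inl (Sum.inl ⟨1, hg1⟩)
  have n1 : b0 ≠ a0 := fun h => Sum.inr_ne_inl (Sum.inl_injective h)
  have n2 : b0 ≠ b1 := fun h =>
    absurd (Fin.mk.inj_iff.1 (Sum.inr_injective (Sum.inl_injective h))) (by omega)
  have n3 : b0 ≠ a1 := fun h => Sum.inr_ne_inl (Sum.inl_injective h)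
  have n4 : a0 ≠ b1 := fun h => Sum.inl_ne_inr (Sum.inl_injective h)
  have n5 : a0 ≠ a1 := fun h =>
    absurd (Fin.mk.inj_iff.1 (Sum.inl_injective (Sum.inl_injective h))) (by omega)
  have n6 : b1 ≠ a1 := fun h => Sum.inr_ne_inl (Sum.inl_injective h)
  obtain ⟨π, p1, p2, p3, p4⟩ := Pool.Agent.TH35.CH.perm_four
    (e0.injective.ne n1) (e0.injective.ne n2)
    (e0.injective.ne n3) (e0.injective.ne n4) (e0.injective.ne n5) (e0.injective.ne n6)
    hij hii hij' hji hjj hij''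
  let e : γ ≃ Fin n := e0.trans π
  have c : Ctx (n / 2) (n / 2 - 3) (n / 2 - 3 + 2) := ⟨by omega, le_refl _, by omega⟩
  have hA0 := Pool.Agent.TH35.CH.congr_sA c (s := 0) (by omega) hg0 e p1 p2 h1 h2
  have hA1 := Pool.Agent.TH35.CH.congr_sA c (s := 1) (by omega) hg1 e p3 p4 h1' h2'
  let Ψ : MulAut (FreeGroup γ) →* MulAut (FreeGroup (Fin n)) :=
    (MulAut.congr (FreeGroup.freeGroupCongr e)).toMonoidHom
  have r := inn_rel (β := Fin (n - (n / 2 + n / 2))) c
  have hfr : finrank (AlgebraicClosure K) (Fin d → AlgebraicClosure K) = d := by simp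
  have h0 := X_zero r (((glEnd d K).comp f).comp Ψ) (k := 2) (by omega) (by omega)
    (by rw [hfr, show n / 2 - 3 - 2 = n / 2 - 5 by omega]; exact hd1)
    (by rw [hfr, show n / 2 - 3 - 1 - 2 = n / 2 - 6 by omega]; exact hd2)
  have h3 := X_list (((glEnd d K).comp f).comp Ψ) r.commAA (E := Finset.range 2)
    (fun i hi => by have := Finset.mem_range.1 hi; omega) (l := [0, 1]) (by simp)
    (fun i => by
      rw [Finset.mem_range]
      simp only [List.mem_cons, List.not_mem_nil, or_false]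
      omega)
  rw [h0] at h3
  simp only [List.map_cons, List.map_nil, List.prod_cons, List.prod_nil, mul_one] at h3
  have e0' : ((glEnd d K).comp f).comp Ψ
      (fh (n / 2) (Fin (n - (n / 2 + n / 2))) (sA (n / 2) 0)) =
      phi' d K (f τ : Matrix (Fin d) (Fin d) K) := by
    rw [← hA0, phi'_gl]; rfl
  have e1' : ((glEnd d K).comp f).comp Ψ
      (fh (n / 2) (Fin (n - (n / 2 + n / 2))) (sA (n / 2) 1)) =
      phi' d K (f τ' : Matrix (Fin d) (Fin d) K) := by
    rw [← hA1, phi'_gl]; rfl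
  apply phi'_inj d K
  rw [map_zero, map_mul, map_sub, map_sub, map_one, ← e0', ← e1']
  exact h3

theorem t_PA : S_PA.{u} := by
  intro n d hd K _ f
  have hM : 2 ≤ n / 2 - 5 := by
    by_contra h
    have : (n / 2 - 5).choose 2 = 0 := Nat.choose_eq_zero_of_lt (by omega)
    omega
  have hd2 : d < 2 ^ (n / 2 - 6) := by
    have := Pool.Agent.R352.CH.choose_two_le (M := n / 2 - 5) (by omega)
    rw [show n / 2 - 5 - 1 = n / 2 - 6 by omega] at this
    omega
  refine ⟨fun i j hij => ?_, fun i j k l hij hik hil hjk hjl hkl => ?_⟩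
  · have h1 : Pool.Agent.TH35.CH.TrV (RR i j) := ⟨i, j, hij, RR_self hij, fun k hk => RR_ne hk⟩
    have := Pool.Agent.R352.CH.trv_nil (k := 2) (by omega) (by omega) hd
      (by rw [show n / 2 - 4 - 2 = n / 2 - 6 by omega]; exact hd2) K f h1
    rwa [pow_two] at this
  · exact pair_zero (by omega) hd hd2 K f hij hik hil hjk hjl hkl (RR_self hij)
      (fun m hm => RR_ne hm) (RR_self hkl) (fun m hm => RR_ne hm)

end Pool.Agent.N66.AF.PA
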