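import Pool.Agent.N66.AF.Stm

/-! Project AF (helper66), leaf PU (helper793): matrix units. -/

set_option autoImplicit false

namespace Pool.Agent.N66.AF.PU

open Pool.Agent.N66.AF

universe v

theorem pick {n : ℕ} (hn : 6 ≤ n) (a b c d e : Fin n) : ∃ x : Fin n, x ≠ a ∧ x ≠ b ∧ x ≠ c ∧ x ≠ d ∧ x ≠ e := by
  have h1 : ({a, b, c, d, e} : Finset (Fin n)).card < (Finset.univ : Finset (Fin n)).card := by
    rw [Finset.card_univ, Fintype.card_fin]
    exact lt_of_le_of_lt Finset.card_le_five (by omega)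
  obtain ⟨x, -, hx⟩ := Finset.exists_mem_notMem_of_card_lt_card h1
  simp only [Finset.mem_insert, Finset.mem_singleton, not_or] at hx
  exact ⟨x, hx.1, hx.2.1, hx.2.2.1, hx.2.2.2.1, hx.2.2.2.2⟩

section

variable {A : Type v} [Ring A] {n : ℕ} {N : Fin n → Fin n → A}

theorem stepA (h : RelN N) {i m j j' : Fin n} (him : i ≠ m) (h1 : j ≠ i) (h2 : j ≠ m) (h3 : j' ≠ i) (h4 : j' ≠ m) :
    N j m * N i j = N j' m * N i j' := by
  by_cases hjj : j = j'
  · rw [hjj]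
  have e1 : N i j = N j' j * N i j' - N i j' * N j' j := h.comm i j' j h3.symm (Ne.symm hjj) h1.symm
  have z1 : N j m * N i j' = 0 := h.zero j m i j' h2 h3.symm him.symm hjj
  have e2 : N j' m = N j m * N j' j - N j' j * N j m := h.comm j' j m (Ne.symm hjj) h2 h4
  have e3 : N j m * N j' j = N j' m + N j' j * N j m := by rw [e2]; abel
  rw [e1, mul_sub, ← mul_assoc, ← mul_assoc, z1, zero_mul, sub_zero, e3, add_mul, mul_assoc (N j' j), z1,
    mul_zero, add_zero]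

theorem indep (hn : 6 ≤ n) (h : RelN N) {i k j m j' m' : Fin n} (h1 : j ≠ m) (h2 : j ≠ i) (h3 : j ≠ k)
    (h4 : m ≠ i) (h5 : m ≠ k) (h1' : j' ≠ m') (h2' : j' ≠ i) (h3' : j' ≠ k) (h4' : m' ≠ i) (h5' : m' ≠ k) :
    N m k * N j m * N i j = N m' k * N j' m' * N i j' := by
  obtain ⟨l, l1, l2, l3, l4, -⟩ := pick hn i k m m' m
  rw [mul_assoc, stepA h (Ne.symm h4) h2 h1 l1 l3, ← mul_assoc, stepA h l2 (Ne.symm l3) h5 (Ne.symm l4) h5',
    mul_assoc, stepA h (Ne.symm h4') l1 l4 h2' h1', ← mul_assoc]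

end

theorem t_PU : S_PU.{v} := by
  intro A _ n hn N h
  have hex : ∀ i k : Fin n, ∃ j m : Fin n, j ≠ m ∧ j ≠ i ∧ j ≠ k ∧ m ≠ i ∧ m ≠ k := by
    intro i k
    obtain ⟨m, m1, m2, -⟩ := pick hn i k i k i
    obtain ⟨j, j1, j2, j3, -⟩ := pick hn i k m i k
    exact ⟨j, m, j3, j1, j2, m1, m2⟩
  choose J M hJM hJi hJk hMi hMk using hex
  obtain ⟨P, hP⟩ : ∃ P : Fin n → Fin n → A, ∀ i k, P i k = N (M i k) k * N (J i k) (M i k) * N i (J i k) :=
    ⟨fun i k => _, fun _ _ => rfl⟩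
  have val : ∀ i k j m : Fin n, j ≠ m → j ≠ i → j ≠ k → m ≠ i → m ≠ k → P i k = N m k * N j m * N i j := by
    intro i k j m h1 h2 h3 h4 h5
    rw [hP]
    exact indep hn h (hJM i k) (hJi i k) (hJk i k) (hMi i k) (hMk i k) h1 h2 h3 h4 h5
  refine ⟨P, val, ?_, ?_, ?_, ?_⟩
  · intro i j k hjk
    obtain ⟨m, m1, m2, m3, -⟩ := pick hn i j k i i
    obtain ⟨l, l1, l2, l3, l4, -⟩ := pick hn i j k m i
    rw [val i j l m l4 l1 l2 m1 m2, val i k l m l4 l1 l3 m1 m3]
    have e1 : N m k = N j k * N m j - N m j * N j k := h.comm m j k m2 hjk m3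
    have e2 : N j k * N m j = N m k + N m j * N j k := by rw [e1]; abel
    have z : N j k * N l m = 0 := h.zero j k l m hjk l4 (Ne.symm l3) (Ne.symm m2)
    rw [← mul_assoc, ← mul_assoc, e2, add_mul, mul_assoc (N m j), z, mul_zero, add_zero]
  · intro i j k l hkl hjk
    obtain ⟨m, m1, m2, m3, -⟩ := pick hn i j l i i
    obtain ⟨j', l1, l2, l3, -⟩ := pick hn i j m i i
    rw [val i j j' m l3 l1 l2 m1 m2]
    have z : N k l * N m j = 0 := h.zero k l m j hkl m2 (Ne.symm m3) (Ne.symm hjk)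
    rw [← mul_assoc, ← mul_assoc, z, zero_mul, zero_mul]
  · intro i j k hij
    obtain ⟨m, m1, m2, m3, -⟩ := pick hn i j k i i
    obtain ⟨l, l1, l2, l3, l4, -⟩ := pick hn i j k m i
    rw [val j k l m l4 l2 l3 m2 m3, val i k l m l4 l1 l3 m1 m3]
    have e1 : N i l = N j l * N i j - N i j * N j l := h.comm i j l hij (Ne.symm l2) (Ne.symm l1)
    have e2 : N j l * N i j = N i l + N i j * N j l := by rw [e1]; abel
    have z : N l m * N i j = 0 := h.zero l m i j l4 hij m1 l2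
    have z2 : N m k * N l m * (N i j * N j l) = 0 := by
      rw [← mul_assoc, mul_assoc (N m k), z, mul_zero, zero_mul]
    rw [mul_assoc, e2, mul_add, z2, add_zero]
  · intro i j k l hij hjk
    obtain ⟨m, m1, m2, -⟩ := pick hn k l k k k
    obtain ⟨j', l1, l2, l3, l4, -⟩ := pick hn k l m i k
    rw [val k l j' m l3 l1 l2 m1 m2]
    have z : N k j' * N i j = 0 := h.zero k j' i j (Ne.symm l1) hij l4 (Ne.symm hjk)
    rw [mul_assoc, z, mul_zero]

end Pool.Agent.N66.AF.PU
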