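import Pool.Agent.N66.AF.Stm
import Pool.Agent.Helper156.OF.RelAut
import Pool.Agent.Helper156.OF.Nielsen

set_option autoImplicit false

/-! Project AF, leaf SG: the automorphisms with determinant one are products of transvections. -/

namespace Pool.Agent.N66.AF.SG

open Pool.Agent.N66.AF Pool.Agent.Helper156.OF
open FreeGroup (of)

section mat
variable {n : ℕ}

lemma ex_mul (k : Fin n) (g h : FreeGroup (Fin n)) : ex k (g * h) = ex k g + ex k h := by
  simp [ex]

lemma ex_inv (k : Fin n) (g : FreeGroup (Fin n)) : ex k g⁻¹ = - ex k g := by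
  simp [ex]

lemma ex_one (k : Fin n) : ex k (1 : FreeGroup (Fin n)) = 0 := by
  simp [ex]

lemma ex_of (k i : Fin n) : ex k (of i) = if i = k then 1 else 0 := by
  simp [ex]

lemma ex_map (φ : MulAut (FreeGroup (Fin n))) (k : Fin n) (g : FreeGroup (Fin n)) :
    ex k (φ g) = ∑ j, mat φ k j * ex j g := by
  induction g using FreeGroup.induction_on with
  | C1 => simp [ex_one]
  | of i =>
    simp only [ex_of, mul_ite, mul_one, mul_zero, Finset.sum_ite_eq, Finset.mem_univ, if_true]
    rfl
  | inv_of i ih => rw [map_inv, ex_inv, ih]; simp [ex_inv]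
  | mul g h ihg ihh =>
    rw [map_mul, ex_mul, ihg, ihh, ← Finset.sum_add_distrib]
    exact Finset.sum_congr rfl fun j _ => by rw [ex_mul, mul_add]

lemma mat_mul (φ ψ : MulAut (FreeGroup (Fin n))) : mat (φ * ψ) = mat φ * mat ψ := by
  ext k i
  rw [Matrix.mul_apply]
  exact ex_map φ k (ψ (of i))

lemma mat_one : mat (1 : MulAut (FreeGroup (Fin n))) = 1 := by
  ext k i
  show ex k (of i) = _
  rw [ex_of, Matrix.one_apply]
  simp only [eq_comm]

lemma det_TT (s : Bool) {i j : Fin n} (h : i ≠ j) : (mat (TT s i j)).det = 1 := by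
  have h1 : mat (TT s i j) = Matrix.transvection j i 1 := by
    ext k l
    show ex k (TT s i j (of l)) = _
    unfold TT
    rw [Matrix.transvection, Matrix.add_apply, Matrix.one_apply, Matrix.single_apply]
    by_cases hl : l = i
    · subst hl
      cases s
      · rw [if_neg (by simp), LL_self h, ex_mul, ex_of, ex_of]
        simp only [eq_comm, and_true]
        ring
      · rw [if_pos rfl, RR_self h, ex_mul, ex_of, ex_of]
        simp only [eq_comm, and_true]
    · cases s
      · rw [if_neg (by simp), LL_ne hl, ex_of]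
        simp [eq_comm, Ne.symm hl]
      · rw [if_pos rfl, RR_ne hl, ex_of]
        simp [eq_comm, Ne.symm hl]
  rw [h1, Matrix.det_transvection_of_ne _ _ h.symm]

lemma det_SA {φ : MulAut (FreeGroup (Fin n))} (h : φ ∈ SA n) : (mat φ).det = 1 := by
  induction h using Subgroup.closure_induction with
  | mem x hx =>
    obtain ⟨s, i, j, hij, rfl⟩ := hx
    exact det_TT s hij
  | one => rw [mat_one, Matrix.det_one]
  | mul x y _ _ hx hy => rw [mat_mul, Matrix.det_mul, hx, hy, mul_one]
  | inv x _ hx =>
    have h1 : mat x⁻¹ * mat x = 1 := by rw [← mat_mul, inv_mul_cancel, mat_one]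
    have h2 := congrArg Matrix.det h1
    rwa [Matrix.det_mul, hx, mul_one, Matrix.det_one] at h2

end mat

section gen
variable {n : ℕ}

lemma gl_false (i : Fin n) : gl (i, false) = (of i)⁻¹ := by
  have h : ((i, false) : Lt (Fin n)) = nv (i, true) := rfl
  rw [h, gl_nv, gl_true]

lemma eAut_tt {i j : Fin n} (h : i ≠ j) : eAut (i, true) (j, true) = RR i j := by
  apply aut_ext
  intro k
  rw [← gl_true, eAut_gl]
  unfold eFun
  by_cases hk : k = i
  · subst hk
    simp only [h, if_false, if_true]
    rw [gl_true, gl_true, RR_self h]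
  · rw [gl_true, RR_ne hk]
    simp [h, hk, nv]

lemma eAut_ff {i j : Fin n} (h : i ≠ j) : eAut (i, false) (j, false) = LL i j := by
  apply aut_ext
  intro k
  rw [← gl_true, eAut_gl]
  unfold eFun
  by_cases hk : k = i
  · subst hk
    simp [h, nv, gl_true, gl_false, LL_self h]
  · rw [gl_true, LL_ne hk]
    simp [h, hk, nv]

lemma eAut_mem {x a : Lt (Fin n)} (h : x.1 ≠ a.1) : eAut x a ∈ SA n := by
  obtain ⟨i, s⟩ := x
  obtain ⟨j, t⟩ := a
  have hij : i ≠ j := h
  have h1 : RR i j ∈ SA n := Subgroup.subset_closure ⟨true, i, j, hij, rfl⟩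
  have h2 : LL i j ∈ SA n := Subgroup.subset_closure ⟨false, i, j, hij, rfl⟩
  have R := rel_aut (α := Fin n)
  cases s <;> cases t
  · rw [eAut_ff hij]; exact h2
  · have h3 := R.e1 (i, false) (j, false)
    have h4 : nv ((j, false) : Lt (Fin n)) = (j, true) := rfl
    rw [h4, eAut_ff hij] at h3
    rw [h3]
    exact inv_mem h2
  · have h3 := R.e1 (i, true) (j, true)
    have h4 : nv ((j, true) : Lt (Fin n)) = (j, false) := rfl
    rw [h4, eAut_tt hij] at h3
    rw [h3]
    exact inv_mem h1
  · rw [eAut_tt hij]; exact h1

lemma fst_ne (w : SP (Fin n)) {x a : Lt (Fin n)} (h : x.1 ≠ a.1) :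
    ((w : Equiv.Perm (Lt (Fin n))) x).1 ≠ ((w : Equiv.Perm (Lt (Fin n))) a).1 := by
  intro e
  apply h
  rcases fst_eq_iff.1 e with e | e
  · rw [(w : Equiv.Perm (Lt (Fin n))).injective e]
  · rw [← SP.map_nv] at e
    rw [(w : Equiv.Perm (Lt (Fin n))).injective e, nv_fst]

lemma conj_mem (w : SP (Fin n)) {s : MulAut (FreeGroup (Fin n))} (hs : s ∈ SA n) :
    toAut w * s * (toAut w)⁻¹ ∈ SA n := by
  have R := rel_aut (α := Fin n)
  induction hs using Subgroup.closure_induction with
  | mem x hx =>
    obtain ⟨s, i, j, hij, rfl⟩ := hx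
    cases s
    · show toAut w * LL i j * (toAut w)⁻¹ ∈ SA n
      rw [← eAut_ff hij, R.e0]
      exact eAut_mem (fst_ne w hij)
    · show toAut w * RR i j * (toAut w)⁻¹ ∈ SA n
      rw [← eAut_tt hij, R.e0]
      exact eAut_mem (fst_ne w hij)
  | one => simp [one_mem]
  | mul x y _ _ hx hy =>
    have h1 : toAut w * (x * y) * (toAut w)⁻¹ =
        (toAut w * x * (toAut w)⁻¹) * (toAut w * y * (toAut w)⁻¹) := by group
    rw [h1]
    exact mul_mem hx hy
  | inv x _ hx =>
    have h1 : toAut w * x⁻¹ * (toAut w)⁻¹ = (toAut w * x * (toAut w)⁻¹)⁻¹ := by group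
    rw [h1]
    exact inv_mem hx

lemma sg_mem {a b : Lt (Fin n)} (h : a.1 ≠ b.1) : toAut (sg a b) ∈ SA n := by
  have R := rel_aut (α := Fin n)
  have h4 := R.e4 a b (sg a b) h sg_left (sg_right h) (fun c => sg_other)
  have h5 : toAut (sg a b) = eAut (nv a) b * eAut b a * (eAut a b)⁻¹ := by
    rw [h4]; group
  rw [h5]
  exact mul_mem (mul_mem (eAut_mem (by simpa using h)) (eAut_mem (Ne.symm h)))
    (inv_mem (eAut_mem h))

/-- inversion of a generator -/
def io (a : Lt (Fin n)) : SP (Fin n) := swp a (nv a)

lemma io_sq (a : Lt (Fin n)) : io a * io a = 1 := swp_mul_self _ _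

lemma io_self (a : Lt (Fin n)) : (io a : Equiv.Perm (Lt (Fin n))) a = nv a := swp_left _ _

lemma io_other {a c : Lt (Fin n)} (h : c.1 ≠ a.1) : (io a : Equiv.Perm (Lt (Fin n))) c = c :=
  swp_other h (by simpa using h)

lemma sg_sq {a b : Lt (Fin n)} (h : a.1 ≠ b.1) : sg a b * sg a b = io a * io b := by
  apply SP_ext
  intro x
  have hb : b.1 ≠ a.1 := Ne.symm h
  rw [Subgroup.coe_mul, Subgroup.coe_mul, Equiv.Perm.mul_apply, Equiv.Perm.mul_apply]
  by_cases hx : x.1 = a.1
  · have key : (sg a b : Equiv.Perm (Lt (Fin n))) ((sg a b : Equiv.Perm (Lt (Fin n))) a) =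
        (io a : Equiv.Perm (Lt (Fin n))) ((io b : Equiv.Perm (Lt (Fin n))) a) := by
      rw [sg_left, SP.map_nv, sg_right h, io_other h, io_self]
    rcases fst_eq_iff.1 hx with rfl | rfl
    · exact key
    · rw [SP.map_nv, SP.map_nv, key, SP.map_nv, SP.map_nv]
  · by_cases hx2 : x.1 = b.1
    · have key : (sg a b : Equiv.Perm (Lt (Fin n))) ((sg a b : Equiv.Perm (Lt (Fin n))) b) =
          (io a : Equiv.Perm (Lt (Fin n))) ((io b : Equiv.Perm (Lt (Fin n))) b) := by
        rw [sg_right h, sg_left, io_self, SP.map_nv, io_other hb]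
      rcases fst_eq_iff.1 hx2 with rfl | rfl
      · exact key
      · rw [SP.map_nv, SP.map_nv, key, SP.map_nv, SP.map_nv]
    · rw [sg_other hx hx2, sg_other hx hx2, io_other hx2, io_other hx]

lemma io_io_mem {a b : Lt (Fin n)} (h : a.1 ≠ b.1) : toAut (io a) * toAut (io b) ∈ SA n := by
  rw [← map_mul, ← sg_sq h, map_mul]
  exact mul_mem (sg_mem h) (sg_mem h)

lemma sp_elem (i0 : Fin n) (T : Finset (Fin n)) : ∀ σ : SP (Fin n),
    (∀ i, i ∉ T → (σ : Equiv.Perm (Lt (Fin n))) (i, true) = (i, true)) →
    toAut σ ∈ SA n ∨ toAut σ * toAut (io (i0, true)) ∈ SA n := by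
  have h00 : toAut (io ((i0, true) : Lt (Fin n))) * toAut (io (i0, true)) = 1 := by
    rw [← map_mul, io_sq, map_one]
  have hinv : (toAut (io ((i0, true) : Lt (Fin n))))⁻¹ = toAut (io (i0, true)) :=
    inv_eq_of_mul_eq_one_left h00
  induction T using Finset.induction_on with
  | empty =>
    intro σ h2
    left
    have : σ = 1 := by
      apply SP_ext
      intro x
      obtain ⟨i, b⟩ := x
      cases b
      · have : ((i, false) : Lt (Fin n)) = nv (i, true) := rfl
        rw [this, SP.map_nv, h2 i (by simp)]
        rfl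
      · exact h2 i (by simp)
    rw [this, map_one]
    exact one_mem _
  | insert b T _ ih =>
    intro σ h2
    by_cases hb : (σ : Equiv.Perm (Lt (Fin n))) (b, true) = (b, true)
    · refine ih σ (fun i hi => ?_)
      by_cases hib : i = b
      · rw [hib, hb]
      · exact h2 i (by simp [hib, hi])
    · by_cases hb' : ((σ : Equiv.Perm (Lt (Fin n))) (b, true)).1 = b
      · have hb1 : (σ : Equiv.Perm (Lt (Fin n))) (b, true) = nv (b, true) := by
          have h3 : ((σ : Equiv.Perm (Lt (Fin n))) (b, true)).1 = ((b, true) : Lt (Fin n)).1 := hb'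
          rcases fst_eq_iff.1 h3 with h | h
          · exact absurd h hb
          · exact h
        have key := ih (io (b, true) * σ) (fun i hi => by
          rw [Subgroup.coe_mul, Equiv.Perm.mul_apply]
          by_cases hib : i = b
          · rw [hib, hb1, SP.map_nv, io_self, nv_nv]
          · rw [h2 i (by simp [hib, hi]), io_other (by simpa using hib)])
        have hbb : toAut (io ((b, true) : Lt (Fin n))) * toAut (io (b, true)) = 1 := by
          rw [← map_mul, io_sq, map_one]
        have hbe : toAut (io ((b, true) : Lt (Fin n))) * toAut (io (i0, true)) ∈ SA n := by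
          by_cases hbi : b = i0
          · rw [hbi, h00]; exact one_mem _
          · exact io_io_mem hbi
        rw [map_mul] at key
        rcases key with key | key
        · right
          have h5 := mul_mem hbe (conj_mem (io (i0, true)) key)
          have e : toAut (io ((b, true) : Lt (Fin n))) * toAut (io (i0, true)) *
              (toAut (io (i0, true)) * (toAut (io (b, true)) * toAut σ) *
                (toAut (io (i0, true)))⁻¹) = toAut σ * toAut (io (i0, true)) := by
            rw [hinv]
            calc _ = toAut (io ((b, true) : Lt (Fin n))) *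
                  (toAut (io (i0, true)) * toAut (io (i0, true))) *
                  toAut (io (b, true)) * toAut σ * toAut (io (i0, true)) := by
                    simp only [mul_assoc]
              _ = _ := by rw [h00, mul_one, hbb, one_mul]
          rwa [e] at h5
        · left
          have h5 := mul_mem hbe (conj_mem (io (i0, true)) key)
          have e : toAut (io ((b, true) : Lt (Fin n))) * toAut (io (i0, true)) *
              (toAut (io (i0, true)) * (toAut (io (b, true)) * toAut σ * toAut (io (i0, true))) *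
                (toAut (io (i0, true)))⁻¹) = toAut σ := by
            rw [hinv]
            calc _ = toAut (io ((b, true) : Lt (Fin n))) *
                  (toAut (io (i0, true)) * toAut (io (i0, true))) *
                  toAut (io (b, true)) * toAut σ *
                  (toAut (io (i0, true)) * toAut (io (i0, true))) := by
                    simp only [mul_assoc]
              _ = toAut (io ((b, true) : Lt (Fin n))) * toAut (io (b, true)) * toAut σ := by
                    rw [h00, mul_one, mul_one]
              _ = _ := by rw [hbb, one_mul]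
          rwa [e] at h5
      · obtain ⟨y, hy⟩ : ∃ y, y = (σ : Equiv.Perm (Lt (Fin n))) (b, true) := ⟨_, rfl⟩
        rw [← hy] at hb'
        have hne : ((b, true) : Lt (Fin n)).1 ≠ y.1 := fun h => hb' h.symm
        have key := ih (sg (b, true) y * σ) (fun i hi => by
          rw [Subgroup.coe_mul, Equiv.Perm.mul_apply]
          by_cases hib : i = b
          · rw [hib, ← hy, sg_right hne]
          · have h3 := h2 i (by simp [hib, hi])
            rw [h3]
            refine sg_other (by simpa using hib) ?_
            intro h4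
            have h5 : ((σ : Equiv.Perm (Lt (Fin n))) (i, true)).1 =
                ((σ : Equiv.Perm (Lt (Fin n))) (b, true)).1 := by
              rw [h3, ← hy]
              exact h4
            exact fst_ne σ (x := (i, true)) (a := (b, true)) hib h5)
        rw [map_mul] at key
        have hsg := inv_mem (sg_mem hne)
        rcases key with key | key
        · left
          have h5 := mul_mem hsg key
          rwa [inv_mul_cancel_left] at h5
        · right
          have h5 := mul_mem hsg key
          rwa [mul_assoc (toAut (sg ((b, true) : Lt (Fin n)) y)), inv_mul_cancel_left] at h5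

lemma all_elem (i0 : Fin n) (φ : MulAut (FreeGroup (Fin n))) :
    φ ∈ SA n ∨ φ * toAut (io (i0, true)) ∈ SA n := by
  obtain ⟨e, he⟩ : ∃ e : MulAut (FreeGroup (Fin n)), e = toAut (io (i0, true)) := ⟨_, rfl⟩
  have h00 : e * e = 1 := by rw [he, ← map_mul, io_sq, map_one]
  have hinv : e⁻¹ = e := inv_eq_of_mul_eq_one_left h00
  have hconj : ∀ s ∈ SA n, e * s * e ∈ SA n := by
    intro s hs
    have h := conj_mem (io (i0, true)) hs
    rw [← he, hinv] at h
    exact h
  rw [← he]
  induction nielsen_generation φ using Subgroup.closure_induction with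
  | mem x hx =>
    rcases hx with ⟨σ, rfl⟩ | ⟨x, a, hxa, rfl⟩
    · rw [he]
      exact sp_elem i0 Finset.univ σ (fun i hi => absurd (Finset.mem_univ i) hi)
    · exact Or.inl (eAut_mem hxa)
  | one => exact Or.inl (one_mem _)
  | mul x y _ _ hx hy =>
    rcases hx with hx | hx <;> rcases hy with hy | hy
    · exact Or.inl (mul_mem hx hy)
    · right
      rw [mul_assoc]
      exact mul_mem hx hy
    · right
      have h := mul_mem hx (hconj y hy)
      have e1 : x * e * (e * y * e) = x * y * e := by
        calc x * e * (e * y * e) = x * (e * e) * y * e := by simp only [mul_assoc]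
          _ = _ := by rw [h00, mul_one]
      rwa [e1] at h
    · left
      have h := mul_mem hx (hconj _ hy)
      have e1 : x * e * (e * (y * e) * e) = x * y := by
        calc x * e * (e * (y * e) * e) = x * (e * e) * y * (e * e) := by simp only [mul_assoc]
          _ = _ := by rw [h00, mul_one, mul_one]
      rwa [e1] at h
  | inv x _ hx =>
    rcases hx with hx | hx
    · exact Or.inl (inv_mem hx)
    · right
      have h := hconj _ (inv_mem hx)
      have e1 : e * (x * e)⁻¹ * e = x⁻¹ * e := by
        rw [mul_inv_rev, hinv]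
        calc e * (e * x⁻¹) * e = (e * e) * x⁻¹ * e := by simp only [mul_assoc]
          _ = _ := by rw [h00, one_mul]
      rwa [e1] at h

lemma det_io (i0 : Fin n) : (mat (toAut (io ((i0, true) : Lt (Fin n))))).det = -1 := by
  have h1 : mat (toAut (io ((i0, true) : Lt (Fin n)))) =
      Matrix.diagonal fun i => if i = i0 then -1 else 1 := by
    ext k i
    show ex k (toAut (io ((i0, true) : Lt (Fin n))) (of i)) = _
    rw [← gl_true, toAut_gl, Matrix.diagonal_apply]
    by_cases hi : i = i0
    · subst hi
      rw [io_self, gl_nv, gl_true, ex_inv, ex_of]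
      by_cases hk : k = i
      · simp [hk]
      · simp [hk, Ne.symm hk]
    · rw [io_other (by simpa using hi), gl_true, ex_of]
      by_cases hk : k = i
      · simp [hk, hi]
      · simp [hk, Ne.symm hk]
  rw [h1, Matrix.det_diagonal, Finset.prod_ite_eq' Finset.univ i0]
  simp

end gen

theorem t_SG : S_SG := by
  intro n φ hφ
  rcases n with _ | n
  · have : φ = 1 := aut_ext fun x => x.elim0
    rw [this]
    exact one_mem _
  · rcases all_elem (0 : Fin (n + 1)) φ with h | h
    · exact h
    · exfalso
      have h1 := det_SA h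
      rw [mat_mul, Matrix.det_mul, hφ, det_io] at h1
      norm_num at h1

end Pool.Agent.N66.AF.SG
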