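import Pool.Agent.N66.AF.Stm

set_option autoImplicit false
set_option linter.unusedSimpArgs false

namespace Pool.Agent.N66.AF.SN

open Pool.Agent.N66.AF
open FreeGroup (of)

universe v

section grp
variable {n : ℕ}

theorem RRi_ne {i j k : Fin n} (h : k ≠ i) : (RR i j)⁻¹ (of k) = of k := by
  rw [MulAut.inv_apply, MulEquiv.symm_apply_eq, RR_ne h]

theorem LLi_ne {i j k : Fin n} (h : k ≠ i) : (LL i j)⁻¹ (of k) = of k := by
  rw [MulAut.inv_apply, MulEquiv.symm_apply_eq, LL_ne h]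

theorem RRi_self {i j : Fin n} (h : i ≠ j) : (RR i j)⁻¹ (of i) = of i * (of j)⁻¹ := by
  rw [MulAut.inv_apply, MulEquiv.symm_apply_eq, map_mul, map_inv, RR_self h, RR_ne h.symm]
  group

theorem LLi_self {i j : Fin n} (h : i ≠ j) : (LL i j)⁻¹ (of i) = (of j)⁻¹ * of i := by
  rw [MulAut.inv_apply, MulEquiv.symm_apply_eq, map_mul, map_inv, LL_self h, LL_ne h.symm]
  group

theorem G1 {i j l : Fin n} (hij : i ≠ j) (hil : i ≠ l) (hjl : j ≠ l) :
    RR j i * RR i l * RR j l = RR i l * RR j i := by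
  apply aut_ext
  intro x
  simp only [MulAut.mul_apply]
  by_cases hx : x = i
  · subst hx
    simp only [RR_ne hij, RR_self hil, map_mul, RR_ne hjl.symm]
  · by_cases hx' : x = j
    · subst hx'
      simp only [RR_self hjl, RR_self hij.symm, map_mul, RR_ne hij.symm, RR_ne hil.symm,
        RR_ne hjl.symm, RR_self hil]
      group
    · simp only [RR_ne hx, RR_ne hx']

theorem G2 {i j l : Fin n} (hij : i ≠ j) (hil : i ≠ l) (hjl : j ≠ l) :
    (RR j i * RR i j * (RR j i)⁻¹) * (RR i l * (RR j l)⁻¹) =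
    (LL i l * (LL j i * (LL j l)⁻¹ * (LL j i)⁻¹) * ((RR j l)⁻¹ * RR j i * RR j l * (RR j i)⁻¹)) *
      (RR j i * RR i j * (RR j i)⁻¹) := by
  apply aut_ext
  intro x
  simp only [MulAut.mul_apply]
  by_cases hx : x = i
  · subst hx
    simp only [RRi_ne hij, RR_self hil, map_mul, map_inv, RR_ne hjl.symm, RRi_self hij.symm,
      RRi_self hjl, RR_self hij, RR_self hij.symm, RR_self hjl, RR_ne hij, RR_ne hij.symm,
      RR_ne hil.symm, RRi_ne hij.symm, RRi_ne hil.symm, RRi_ne hjl.symm, LL_self hil, LL_self hij.symm,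
      LL_self hjl, LLi_self hjl, LLi_self hij.symm, LL_ne hij, LL_ne hij.symm, LL_ne hjl.symm,
      LL_ne hil.symm, LLi_ne hij, LLi_ne hij.symm, LLi_ne hjl.symm, LLi_ne hil.symm]
    group
  · by_cases hx' : x = j
    · subst hx'
      simp only [RRi_ne hij, RR_self hil, map_mul, map_inv, RR_ne hjl.symm, RRi_self hij.symm,
        RRi_self hjl, RR_self hij, RR_self hij.symm, RR_self hjl, RR_ne hij, RR_ne hij.symm,
        RR_ne hil.symm, RRi_ne hij.symm, RRi_ne hil.symm, RRi_ne hjl.symm, LL_self hil,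
        LL_self hij.symm,
        LL_self hjl, LLi_self hjl, LLi_self hij.symm, LL_ne hij, LL_ne hij.symm, LL_ne hjl.symm,
        LL_ne hil.symm, LLi_ne hij, LLi_ne hij.symm, LLi_ne hjl.symm, LLi_ne hil.symm]
      group
    · simp only [RR_ne hx, RR_ne hx', RRi_ne hx, RRi_ne hx', LL_ne hx, LL_ne hx', LLi_ne hx,
        LLi_ne hx']

end grp

theorem units_calc {G : Type v} [Group G] (a b c d e p s : G) (hbc : b * c = c * b)
    (had : a * d = d * a) (hps : p * s = s * p) (g1 : a * c * d = c * a)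
    (g2 : (a * b * a⁻¹) * (c * d⁻¹) =
      (e * (p * s⁻¹ * p⁻¹) * (d⁻¹ * a * d * a⁻¹)) * (a * b * a⁻¹)) :
    c * d⁻¹ = e * s⁻¹ := by
  have h1 : d⁻¹ * a * d * a⁻¹ = 1 := by
    rw [mul_assoc d⁻¹ a d, had]; group
  have h2 : p * s⁻¹ * p⁻¹ = s⁻¹ := by
    have : p * s⁻¹ = s⁻¹ * p := by
      rw [mul_inv_eq_iff_eq_mul, mul_assoc, hps, ← mul_assoc]; simp
    rw [this]; group
  rw [h1, h2, mul_one] at g2
  have h3 : c * d⁻¹ = a * c * a⁻¹ := by
    have h4 : a * c = c * a * d⁻¹ := by rw [← g1]; group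
    have h5 : a * d⁻¹ = d⁻¹ * a := by
      rw [mul_inv_eq_iff_eq_mul, mul_assoc, had, ← mul_assoc]; simp
    rw [h4, mul_assoc c a d⁻¹, h5]; group
  have h6 : (a * b * a⁻¹) * (c * d⁻¹) = (c * d⁻¹) * (a * b * a⁻¹) := by
    rw [h3]
    calc (a * b * a⁻¹) * (a * c * a⁻¹) = a * (b * c) * a⁻¹ := by group
      _ = a * (c * b) * a⁻¹ := by rw [hbc]
      _ = (a * c * a⁻¹) * (a * b * a⁻¹) := by group
  rw [h6] at g2
  exact mul_right_cancel g2

theorem t_SN : S_SN.{v} := by
  intro A _ n _ f hz i j l hij hil hjl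
  have hR : ∀ i j k l : Fin n, i ≠ j → k ≠ l → j ≠ k → i ≠ l →
      (f (RR i j) - 1) * (f (RR k l) - 1) = 0 := fun i j k l h1 h2 h3 h4 =>
    hz true true i j k l h1 h2 h3 h4
  have hL : ∀ i j k l : Fin n, i ≠ j → k ≠ l → j ≠ k → i ≠ l →
      (f (LL i j) - 1) * (f (LL k l) - 1) = 0 := fun i j k l h1 h2 h3 h4 =>
    hz false false i j k l h1 h2 h3 h4
  have com : ∀ x y : A, (x - 1) * (y - 1) = 0 → (y - 1) * (x - 1) = 0 → x * y = y * x := by
    intro x y h1 h2
    have h3 : x * y = x + y - 1 := by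
      have h : x * y = x + y - 1 + (x - 1) * (y - 1) := by noncomm_ring
      rwa [h1, add_zero] at h
    have h4 : y * x = y + x - 1 := by
      have h : y * x = y + x - 1 + (y - 1) * (x - 1) := by noncomm_ring
      rwa [h2, add_zero] at h
    rw [h3, h4, add_comm]
  have hun : ∀ x : MulAut (FreeGroup (Fin n)), ((f.toHomUnits x : Aˣ) : A) = f x := fun x => rfl
  have key := units_calc (f.toHomUnits (RR j i)) (f.toHomUnits (RR i j)) (f.toHomUnits (RR i l))
    (f.toHomUnits (RR j l)) (f.toHomUnits (LL i l)) (f.toHomUnits (LL j i))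
    (f.toHomUnits (LL j l))
    (Units.ext (by
      simp only [Units.val_mul, hun]
      exact com _ _ (hR i j i l hij hil hij.symm hil) (hR i l i j hil hij hil.symm hij)))
    (Units.ext (by
      simp only [Units.val_mul, hun]
      exact com _ _ (hR j i j l hij.symm hjl hij hjl) (hR j l j i hjl hij.symm hjl.symm hij.symm)))
    (Units.ext (by
      simp only [Units.val_mul, hun]
      exact com _ _ (hL j i j l hij.symm hjl hij hjl) (hL j l j i hjl hij.symm hjl.symm hij.symm)))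
    (by simp only [← map_mul]; rw [G1 hij hil hjl])
    (by simp only [← map_mul, ← map_inv]; rw [G2 hij hil hjl])
  have inv2 : ∀ u : Aˣ, ((u : A) - 1) * ((u : A) - 1) = 0 → ((u⁻¹ : Aˣ) : A) = 2 - (u : A) := by
    intro u hu
    apply Units.inv_eq_of_mul_eq_one_right
    have h1 : (u : A) * (2 - (u : A)) = 1 - ((u : A) - 1) * ((u : A) - 1) := by noncomm_ring
    rw [h1, hu, sub_zero]
  have key2 := congrArg (fun u : Aˣ => (u : A)) key
  simp only [Units.val_mul, hun] at key2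
  rw [inv2 _ (by rw [hun]; exact hR j l j l hjl hjl hjl.symm hjl),
    inv2 _ (by rw [hun]; exact hL j l j l hjl hjl hjl.symm hjl), hun, hun] at key2
  have e1 : f (RR i l) * (2 - f (RR j l)) = f (RR i l) - f (RR j l) + 1 -
      (f (RR i l) - 1) * (f (RR j l) - 1) := by noncomm_ring
  have e2 : f (LL i l) * (2 - f (LL j l)) = f (LL i l) - f (LL j l) + 1 -
      (f (LL i l) - 1) * (f (LL j l) - 1) := by noncomm_ring
  rw [e1, e2, hR i l j l hil hjl hjl.symm hil, hL i l j l hil hjl hjl.symm hil, sub_zero,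
    sub_zero] at key2
  have key3 : f (RR i l) - f (RR j l) = f (LL i l) - f (LL j l) := add_right_cancel key2
  rw [sub_eq_sub_iff_add_eq_add] at key3 ⊢
  rw [key3, add_comm]

end Pool.Agent.N66.AF.SN
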