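import Mathlib
import Pool.Agent.N66.AF.Stm

/-!
# AF/TB: the table of products (helper402)
-/

set_option autoImplicit false

namespace Pool.Agent.N66.AF.TB

open Pool.Agent.N66.AF

universe v

/-- two further indices -/
lemma two {n : ℕ} (hn : 6 ≤ n) (a b c : Fin n) :
    ∃ x y : Fin n, x ≠ y ∧ x ≠ a ∧ x ≠ b ∧ x ≠ c ∧ y ≠ a ∧ y ≠ b ∧ y ≠ c := by
  have h1 : ({a, b, c} : Finset (Fin n)).card ≤ 3 := Finset.card_le_three
  have h2 : 1 < (Finset.univ \ ({a, b, c} : Finset (Fin n))).card := by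
    have h3 := Finset.le_card_sdiff ({a, b, c} : Finset (Fin n)) Finset.univ
    rw [Finset.card_univ, Fintype.card_fin] at h3
    omega
  obtain ⟨x, hx, y, hy, hxy⟩ := Finset.one_lt_card.1 h2
  simp only [Finset.mem_sdiff, Finset.mem_univ, true_and, Finset.mem_insert,
    Finset.mem_singleton, not_or] at hx hy
  exact ⟨x, y, hxy, hx.1, hx.2.1, hx.2.2, hy.1, hy.2.1, hy.2.2⟩

section
variable {A : Type v} [Ring A] {n : ℕ}

lemma pp (hn : 6 ≤ n) {N P : Fin n → Fin n → A} (h : Unit1 N P) (i j k : Fin n) :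
    P j k * P i j = P i k := by
  obtain ⟨x, y, hxy, hxj, hxk, hxi, hyj, hyk, hyi⟩ := two hn j k i
  rw [h.val j k x y hxy hxj hxk hyj hyk, mul_assoc, mul_assoc, h.NP i j x hxj.symm,
    h.NP i x y hxy, h.NP i y k hyk]

lemma pp0 (hn : 6 ≤ n) {N P : Fin n → Fin n → A} (h : Unit1 N P) (i j k l : Fin n) (hjk : j ≠ k) :
    P k l * P i j = 0 := by
  obtain ⟨x, y, hxy, hxj, hxk, hxi, hyj, hyk, hyi⟩ := two hn k l i
  rw [h.val k l x y hxy hxj hxk hyj hyk, mul_assoc, h.NP0 i j k x hxj.symm hjk, mul_zero]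

lemma qv {N Q : Fin n → Fin n → A} (h : Unit1 (fun i j => - N j i) Q) {i k x y : Fin n}
    (hxy : x ≠ y) (hxi : x ≠ i) (hxk : x ≠ k) (hyi : y ≠ i) (hyk : y ≠ k) :
    Q k i = -(N i x * N x y * N y k) := by
  rw [h.val k i y x hxy.symm hyk hyi hxk hxi]
  noncomm_ring

end

theorem t_TB : S_TB.{v} := by
  intro A _ n hn X P Q D U W hN hP hQ hD hU
  have htr : ∀ i j, i ≠ j → X true i j = P i j - Q j i := by
    intro i j hij
    obtain ⟨x, y, hxy, hxi, hxj, -, hyi, hyj, -⟩ := two hn i j i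
    have h1 : P i j = X true x j * X true i x := by
      rw [hP.val i j y x hxy.symm hyi hyj hxi hxj, mul_assoc]
      have h2 := hN.comm i y x hyi.symm hxy.symm hxi.symm
      have h3 : X true y x * X true i y = X true i x + X true i y * X true y x := by
        rw [h2]
        abel
      rw [h3, mul_add, ← mul_assoc (X true x j) (X true i y),
        hN.zero x j i y hxj hyi.symm hij.symm hxy, zero_mul, add_zero]
    have h4 : Q j i = X true i x * X true x j := by
      rw [qv hQ hxy hxi hxj hyi hyj, mul_assoc]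
      have h2 := hN.comm x y j hxy hyj hxj
      have h3 : X true x y * X true y j = X true y j * X true x y - X true x j := by
        rw [h2]
        abel
      rw [h3, mul_sub, ← mul_assoc (X true i x) (X true y j),
        hN.zero i x y j hxi.symm hyj hxy hij, zero_mul, zero_sub, neg_neg]
    rw [h1, h4]
    exact hN.comm i x j hxi.symm hxj hij
  refine
    { tr := ?tr, fl := ?fl, PP := ?PP, PP0 := ?PP0, RR := ?RR, RR0 := ?RR0, PR := ?PR, RP := ?RP, PU := ?PU,
      PU0 := ?PU0, UP := ?UP, UR := ?UR, RU := ?RU, WR := ?WR, WR0 := ?WR0, RW := ?RW, PW := ?PW, WP := ?WP,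
      UU := hU.UU, UW := hU.UW, WU := hU.WU, WW := hU.WW }
  case tr => exact htr
  case fl =>
    intro i j hij
    have h1 := htr i j hij
    have h2 := hD i j hij
    have h3 := hU.sum j
    show X false i j = P i j - Q j i - U j - W j
    rw [← h1, sub_sub, ← h3, h2]
    abel
  case PP => exact fun i j k => pp hn hP i j k
  case PP0 => exact fun i j k l h => pp0 hn hP i j k l h
  case RR => exact fun i j k => pp hn hQ k j i
  case RR0 => exact fun i j k l h => pp0 hn hQ l k j i h.symm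
  case PR =>
    intro i j k l
    obtain ⟨x, y, hxy, hxi, hxk, hxl, hyi, hyk, hyl⟩ := two hn i k l
    show P i j * Q l k = 0
    rw [qv hQ hxy hxk hxl hyk hyl, mul_neg, mul_assoc, ← mul_assoc (P i j),
      hP.PN0 k x i j hxk.symm hxi, zero_mul, neg_zero]
  case RP =>
    intro i j k l
    obtain ⟨x, y, hxy, hxj, hxk, hxl, hyj, hyk, hyl⟩ := two hn j k l
    show Q l k * P i j = 0
    rw [qv hQ hxy hxk hxl hyk hyl, neg_mul, mul_assoc, hP.NP0 i j y l hyl hyj.symm, mul_zero,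
      neg_zero]
  case PU =>
    intro i k
    obtain ⟨x, y, hxy, hxi, hxk, -, hyi, hyk, -⟩ := two hn i k i
    rw [hP.val i k x y hxy hxi hxk hyi hyk, mul_assoc, mul_assoc, hU.NU i x hxi.symm,
      hU.NU x y hxy, hU.NU y k hyk]
  case PU0 =>
    intro i j k hij
    obtain ⟨x, y, hxy, hxi, hxk, -, hyi, hyk, -⟩ := two hn i k i
    rw [hP.val i k x y hxy hxi hxk hyi hyk, mul_assoc, hU.NU0 i x j hxi.symm hij.symm, mul_zero]
  case UP =>
    intro i j k
    obtain ⟨x, y, hxy, hxi, hxk, -, hyi, hyk, -⟩ := two hn i k i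
    rw [hP.val i k x y hxy hxi hxk hyi hyk, mul_assoc, ← mul_assoc, hU.UN y k j hyk, zero_mul]
  case UR =>
    intro i j k
    obtain ⟨x, y, hxy, hxi, hxk, -, hyi, hyk, -⟩ := two hn i k i
    show U j * Q k i = 0
    rw [qv hQ hxy hxi hxk hyi hyk, mul_neg, mul_assoc, ← mul_assoc (U j), hU.UN i x j hxi.symm,
      zero_mul, neg_zero]
  case RU =>
    intro i j k
    obtain ⟨x, y, hxy, hxi, hxk, hxj, hyi, hyk, hyj⟩ := two hn i k j
    show Q k i * U j = 0
    rw [qv hQ hxy hxi hxk hyi hyk, neg_mul, mul_assoc, hU.NU0 y k j hyk hyj.symm, mul_zero,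
      neg_zero]
  case WR =>
    intro i k
    obtain ⟨x, y, hxy, hxi, hxk, -, hyi, hyk, -⟩ := two hn i k i
    show W i * Q k i = W k
    rw [qv hQ hxy hxi hxk hyi hyk, mul_neg, ← mul_assoc, ← mul_assoc, hU.WN i x hxi.symm,
      neg_mul, hU.WN x y hxy, neg_neg, hU.WN y k hyk, neg_neg]
  case WR0 =>
    intro i j k hij
    obtain ⟨x, y, hxy, hxi, hxk, -, hyi, hyk, -⟩ := two hn i k i
    show W j * Q k i = 0
    rw [qv hQ hxy hxi hxk hyi hyk, mul_neg, ← mul_assoc, ← mul_assoc,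
      hU.WN0 i x j hxi.symm hij.symm, zero_mul, zero_mul, neg_zero]
  case RW =>
    intro i j k
    obtain ⟨x, y, hxy, hxi, hxk, -, hyi, hyk, -⟩ := two hn i k i
    show Q k i * W j = 0
    rw [qv hQ hxy hxi hxk hyi hyk, neg_mul, mul_assoc, hU.NW y k j hyk, mul_zero, neg_zero]
  case PW =>
    intro i j k
    obtain ⟨x, y, hxy, hxi, hxk, -, hyi, hyk, -⟩ := two hn i k i
    rw [hP.val i k x y hxy hxi hxk hyi hyk, mul_assoc, hU.NW i x j hxi.symm, mul_zero]
  case WP =>
    intro i j k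
    obtain ⟨x, y, hxy, hxi, hxk, hxj, hyi, hyk, hyj⟩ := two hn i k j
    rw [hP.val i k x y hxy hxi hxk hyi hyk, ← mul_assoc, ← mul_assoc,
      hU.WN0 y k j hyk hyj.symm, zero_mul, zero_mul]

end Pool.Agent.N66.AF.TB
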