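import Pool.Agent.N66.AF.Stm

set_option autoImplicit false

/-! Project AF, leaf UW: the parts `U`, `W` of `D` (helper300). -/

namespace Pool.Agent.N66.AF.UW

open Pool.Agent.N66.AF

universe v

theorem ex4 {n : ℕ} (hn : 6 ≤ n) (a b c d : Fin n) : ∃ k : Fin n, k ≠ a ∧ k ≠ b ∧ k ≠ c ∧ k ≠ d := by
  by_contra h
  push Not at h
  have h1 : (Finset.univ : Finset (Fin n)) ⊆ {a, b, c, d} := by
    intro k _
    simp only [Finset.mem_insert, Finset.mem_singleton]
    by_cases h1 : k = a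
    · exact Or.inl h1
    by_cases h2 : k = b
    · exact Or.inr (Or.inl h2)
    by_cases h3 : k = c
    · exact Or.inr (Or.inr (Or.inl h3))
    exact Or.inr (Or.inr (Or.inr (h k h1 h2 h3)))
  have h2 := Finset.card_le_card h1
  rw [Finset.card_univ, Fintype.card_fin] at h2
  have h3 : ({a, b, c, d} : Finset (Fin n)).card ≤ 4 := Finset.card_le_four
  omega

section
variable {A : Type v} [Ring A] {n : ℕ} {N : Fin n → Fin n → A} {D : Fin n → A}

/-- `N i j N k i D k = N k j D k` -/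
theorem eU (hN : RelN N) (hD : RelD N D) {i j k : Fin n} (hij : i ≠ j) (hki : k ≠ i)
    (hkj : k ≠ j) : N i j * (N k i * D k) = N k j * D k := by
  have h1 := hN.comm k i j hki hij hkj
  have h2 : N i j * N k i = N k j + N k i * N i j := by rw [h1]; abel
  rw [← mul_assoc, h2, add_mul, mul_assoc, hD.ND i j k hij hki, mul_zero, add_zero]

/-- `D k N k i N i j = - D k N k j` -/
theorem eW (hN : RelN N) (hD : RelD N D) {i j k : Fin n} (hij : i ≠ j) (hki : k ≠ i)
    (hkj : k ≠ j) : D k * N k i * N i j = -(D k * N k j) := by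
  have h1 := hN.comm k i j hki hij hkj
  have h2 : N k i * N i j = N i j * N k i - N k j := by rw [h1]; abel
  rw [mul_assoc, h2, mul_sub, ← mul_assoc, hD.DN i j k hij hki, zero_mul, zero_sub]

theorem indU (hN : RelN N) (hD : RelD N D) {i i' j : Fin n} (hij : i ≠ j) (hi'j : i' ≠ j) :
    N i j * D i = N i' j * D i' := by
  by_cases h : i' = i
  · rw [h]
  · rw [hD.comm i' i h, mul_sub, eU hN hD hij h hi'j, ← mul_assoc (N i j) (D i'),
      hD.ND i j i' hij h, zero_mul, sub_zero]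

theorem indW (hN : RelN N) (hD : RelD N D) {i i' j : Fin n} (hij : i ≠ j) (hi'j : i' ≠ j) :
    D i * N i j = D i' * N i' j := by
  by_cases h : i' = i
  · rw [h]
  · rw [hD.comm i' i h, sub_mul, eW hN hD hij h hi'j, mul_assoc (N i' i), hD.DN i j i' hij h,
      mul_zero, zero_sub, neg_neg]

end

theorem t_UW : S_UW.{v} := by
  intro A _ n hn N D hN hD
  choose s hs _ _ _ using fun j : Fin n => ex4 hn j j j j
  have hU : ∀ i j, i ≠ j → N (s j) j * D (s j) = N i j * D i := fun i j h =>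
    indU hN hD (hs j) h
  have hW : ∀ i j, i ≠ j → -(D (s j) * N (s j) j) = -(D i * N i j) := fun i j h => by
    rw [indW hN hD (hs j) h]
  refine ⟨fun j => N (s j) j * D (s j), fun j => -(D (s j) * N (s j) j), ?_⟩
  constructor
  · intro j
    show D j = N (s j) j * D (s j) + -(D (s j) * N (s j) j)
    rw [← sub_eq_add_neg]
    exact hD.comm (s j) j (hs j)
  · intro i j hij
    obtain ⟨k, hki, hkj, -, -⟩ := ex4 hn i j i i
    show N i j * (N (s i) i * D (s i)) = N (s j) j * D (s j)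
    rw [hU k i hki, hU k j hkj]
    exact eU hN hD hij hki hkj
  · intro i j k hij hki
    obtain ⟨m, hmi, hmj, hmk, -⟩ := ex4 hn i j k k
    show N i j * (N (s k) k * D (s k)) = 0
    rw [hU m k hmk, ← mul_assoc, hN.zero i j m k hij hmk hmj.symm hki.symm, zero_mul]
  · intro i j k hij
    obtain ⟨m, hmi, hmk, -, -⟩ := ex4 hn i k k k
    show N (s k) k * D (s k) * N i j = 0
    rw [hU m k hmk, mul_assoc, hD.DN i j m hij hmi, mul_zero]
  · intro i j k hij
    obtain ⟨m, hmi, hmk, -, -⟩ := ex4 hn i k k k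
    show N i j * -(D (s k) * N (s k) k) = 0
    rw [hW m k hmk, mul_neg, ← mul_assoc, hD.ND i j m hij hmi, zero_mul, neg_zero]
  · intro i j hij
    obtain ⟨k, hki, hkj, -, -⟩ := ex4 hn i j i i
    show -(D (s i) * N (s i) i) * N i j = - -(D (s j) * N (s j) j)
    rw [hW k i hki, hW k j hkj, neg_mul, eW hN hD hij hki hkj]
  · intro i j k hij hki
    obtain ⟨m, hmj, hmk, -, -⟩ := ex4 hn j k k k
    show -(D (s k) * N (s k) k) * N i j = 0
    rw [hW m k hmk, neg_mul, mul_assoc, hN.zero m k i j hmk hij hki hmj, mul_zero, neg_zero]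
  · intro i j
    obtain ⟨m, hmi, -, -, -⟩ := ex4 hn i i i i
    obtain ⟨m', hm'j, hm'm, -, -⟩ := ex4 hn j m m m
    show N (s i) i * D (s i) * (N (s j) j * D (s j)) = 0
    rw [hU m i hmi, hU m' j hm'j, mul_assoc, ← mul_assoc (D m), hD.DN m' j m hm'j hm'm.symm,
      zero_mul, mul_zero]
  · intro i j
    show N (s i) i * D (s i) * -(D (s j) * N (s j) j) = 0
    rw [mul_neg, mul_assoc, ← mul_assoc (D (s i)), hD.DD, zero_mul, mul_zero, neg_zero]
  · intro i j
    obtain ⟨m, hmi, hmj, -, -⟩ := ex4 hn i j j j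
    show -(D (s i) * N (s i) i) * (N (s j) j * D (s j)) = 0
    rw [hW m i hmi, hU m j hmj, neg_mul, mul_assoc, ← mul_assoc (N m i),
      hN.zero m i m j hmi hmj hmi.symm hmj, zero_mul, mul_zero, neg_zero]
  · intro i j
    obtain ⟨m, hmi, -, -, -⟩ := ex4 hn i i i i
    obtain ⟨m', hm'j, hm'm, -, -⟩ := ex4 hn j m m m
    show -(D (s i) * N (s i) i) * -(D (s j) * N (s j) j) = 0
    rw [hW m i hmi, hW m' j hm'j, neg_mul_neg, mul_assoc, ← mul_assoc (N m i),
      hD.ND m i m' hmi hm'm, zero_mul, mul_zero]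

end Pool.Agent.N66.AF.UW
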