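import Pool.Agent.N66.AF.Stm

set_option autoImplicit false

/-! Project AF, leaf ZA: products of the operators of right transvections vanish (helper67; the first two
theorems are copied from `Pool/Agent/TH35/CH/Quad2.lean`). -/

namespace Pool.Agent.N66.AF.ZA

open Pool.Agent.N66.AF
open FreeGroup (of)

universe v

section
variable {M G δ : Type*} [Ring M] [Group G]

theorem same_source (ρ : G →* M) (R : δ → δ → G)
    (hrel : ∀ i l k, i ≠ l → i ≠ k → l ≠ k → R l k * R i l = R i l * R l k * R i k)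
    (hsrc : ∀ i k j, i ≠ k → i ≠ j → k ≠ j → Commute (R i j) (R k j))
    (hdis : ∀ i j k l, i ≠ j → i ≠ k → i ≠ l → j ≠ k → j ≠ l → k ≠ l →
      (ρ (R i j) - 1) * (ρ (R k l) - 1) = 0)
    {a c j e : δ} (hac : a ≠ c) (haj : a ≠ j) (hcj : c ≠ j) (hea : e ≠ a) (hec : e ≠ c)
    (hej : e ≠ j) : (ρ (R c j) - 1) * (ρ (R a j) - 1) = 0 := by
  have inv : ∀ (w : G) (Y Z : M), ρ w * Y = ρ w * Z → Y = Z := by
    intro w Y Z h
    have h1 : ρ w⁻¹ * ρ w = 1 := by rw [← map_mul, inv_mul_cancel, map_one]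
    have h2 := congrArg (fun z => ρ w⁻¹ * z) h
    simpa only [← mul_assoc, h1, one_mul] using h2
  have fx : ∀ {x : G} {Y : M}, (ρ x - 1) * Y = 0 → ρ x * Y = Y := by
    intro x Y h
    rw [sub_mul, one_mul, sub_eq_zero] at h
    exact h
  have xf : ∀ {x : G} {Y : M}, ρ x * Y = Y → (ρ x - 1) * Y = 0 := by
    intro x Y h
    rw [sub_mul, one_mul, h, sub_self]
  apply xf
  have k1 : Commute (ρ (R e j)) (ρ (R a j) - 1) :=
    (((hsrc e a j hea hej haj).map ρ).sub_right (Commute.one_right _))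
  have k2 : Commute (ρ (R c j)) (ρ (R a j) - 1) :=
    (((hsrc c a j hac.symm hcj haj).map ρ).sub_right (Commute.one_right _))
  have k3 : ρ (R c e) * (ρ (R a j) - 1) = ρ (R a j) - 1 :=
    fx (hdis c e a j hec.symm hac.symm hcj hea hej haj)
  have k4 := congrArg (fun z => ρ z * (ρ (R a j) - 1)) (hrel c e j hec.symm hcj hej)
  simp only [map_mul] at k4
  rw [mul_assoc, k3] at k4
  rw [mul_assoc (ρ (R c e) * ρ (R e j)), k2.eq, ← mul_assoc, mul_assoc (ρ (R c e)), k1.eq,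
    ← mul_assoc (ρ (R c e)), k3, ← k1.eq, mul_assoc, ← k2.eq] at k4
  exact (inv _ _ _ k4).symm

theorem same_target (ρ : G →* M) (R : δ → δ → G)
    (hrel : ∀ i l k, i ≠ l → i ≠ k → l ≠ k → R l k * R i l = R i l * R l k * R i k)
    (hsrc : ∀ i k j, i ≠ k → i ≠ j → k ≠ j → Commute (R i j) (R k j))
    (hdis : ∀ i j k l, i ≠ j → i ≠ k → i ≠ l → j ≠ k → j ≠ l → k ≠ l →
      (ρ (R i j) - 1) * (ρ (R k l) - 1) = 0)
    (hsq : ∀ i j, i ≠ j → (ρ (R i j) - 1) * (ρ (R i j) - 1) = 0)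
    {i l k m : δ} (h1 : i ≠ l) (h2 : i ≠ k) (h3 : l ≠ k) (h4 : m ≠ i) (h5 : m ≠ l)
    (h6 : m ≠ k) : (ρ (R i l) - 1) * (ρ (R i k) - 1) = 0 := by
  have inv : ∀ (w : G) (Y Z : M), ρ w * Y = ρ w * Z → Y = Z := by
    intro w Y Z h
    have h1 : ρ w⁻¹ * ρ w = 1 := by rw [← map_mul, inv_mul_cancel, map_one]
    have h2 := congrArg (fun z => ρ w⁻¹ * z) h
    simpa only [← mul_assoc, h1, one_mul] using h2
  have fx : ∀ {x : G} {Y : M}, (ρ x - 1) * Y = 0 → ρ x * Y = Y := by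
    intro x Y h
    rw [sub_mul, one_mul, sub_eq_zero] at h
    exact h
  have xf : ∀ {x : G} {Y : M}, ρ x * Y = Y → (ρ x - 1) * Y = 0 := by
    intro x Y h
    rw [sub_mul, one_mul, h, sub_self]
  -- same source
  have src : ∀ a c j e : δ, a ≠ c → a ≠ j → c ≠ j → e ≠ a → e ≠ c → e ≠ j →
      (ρ (R c j) - 1) * (ρ (R a j) - 1) = 0 := by
    intro a c j e hac haj hcj hea hec hej
    apply xf
    have k1 : Commute (ρ (R e j)) (ρ (R a j) - 1) :=
      (((hsrc e a j hea hej haj).map ρ).sub_right (Commute.one_right _))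
    have k2 : Commute (ρ (R c j)) (ρ (R a j) - 1) :=
      (((hsrc c a j hac.symm hcj haj).map ρ).sub_right (Commute.one_right _))
    have k3 : ρ (R c e) * (ρ (R a j) - 1) = ρ (R a j) - 1 :=
      fx (hdis c e a j hec.symm hac.symm hcj hea hej haj)
    have k4 := congrArg (fun z => ρ z * (ρ (R a j) - 1)) (hrel c e j hec.symm hcj hej)
    simp only [map_mul] at k4
    rw [mul_assoc, k3] at k4
    rw [mul_assoc (ρ (R c e) * ρ (R e j)), k2.eq, ← mul_assoc, mul_assoc (ρ (R c e)), k1.eq,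
      ← mul_assoc (ρ (R c e)), k3, ← k1.eq, mul_assoc, ← k2.eq] at k4
    exact (inv _ _ _ k4).symm
  have s1 := src i m l k h4.symm h1 h5 h2.symm h6.symm h3.symm
  -- `r_ml r_lk r_il = 0`
  have s2 : (ρ (R m l) - 1) * ((ρ (R l k) - 1) * (ρ (R i l) - 1)) = 0 := by
    have k1 : ρ (R m l) * (ρ (R i l) - 1) = ρ (R i l) - 1 := fx s1
    have k2 : ρ (R m k) * (ρ (R i l) - 1) = ρ (R i l) - 1 :=
      fx (hdis m k i l h6 h4 h5 h2.symm h3.symm h1)
    have k4 := congrArg (fun z => ρ z * (ρ (R i l) - 1)) (hrel m l k h5 h6 h3)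
    simp only [map_mul] at k4
    rw [mul_assoc, k1, mul_assoc (ρ (R m l) * ρ (R l k)), k2, mul_assoc] at k4
    have k5 : (ρ (R m l) - 1) * (ρ (R l k) * (ρ (R i l) - 1)) = 0 := xf k4.symm
    have e : (ρ (R m l) - 1) * ((ρ (R l k) - 1) * (ρ (R i l) - 1)) =
        (ρ (R m l) - 1) * (ρ (R l k) * (ρ (R i l) - 1)) -
          (ρ (R m l) - 1) * (ρ (R i l) - 1) := by
      rw [sub_mul (ρ (R l k)), one_mul, mul_sub]
    rw [e, k5, s1, sub_zero]
  -- `r_il r_lk r_il = 0`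
  have s3 : (ρ (R i l) - 1) * ((ρ (R l k) - 1) * (ρ (R i l) - 1)) = 0 := by
    apply xf
    have k1 : ρ (R m l) * ((ρ (R l k) - 1) * (ρ (R i l) - 1)) =
        (ρ (R l k) - 1) * (ρ (R i l) - 1) := fx s2
    have k2 : ρ (R i m) * ((ρ (R l k) - 1) * (ρ (R i l) - 1)) =
        (ρ (R l k) - 1) * (ρ (R i l) - 1) := by
      apply fx
      rw [← mul_assoc, hdis i m l k h4.symm h1 h2 h5 h6 h3, zero_mul]
    have k4 := congrArg (fun z => ρ z * ((ρ (R l k) - 1) * (ρ (R i l) - 1)))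
      (hrel i m l h4.symm h1 h5)
    simp only [map_mul] at k4
    rw [mul_assoc, k2, k1] at k4
    have k5 : ρ (R i m * R m l) * (ρ (R i l) * ((ρ (R l k) - 1) * (ρ (R i l) - 1))) =
        ρ (R i m * R m l) * ((ρ (R l k) - 1) * (ρ (R i l) - 1)) := by
      rw [map_mul, ← mul_assoc, ← k4, mul_assoc, k1, k2]
    exact inv _ _ _ k5
  have s4 := src i l k m h1 h2 h3 h4 h5 h6
  -- conclusion
  have k1 := congrArg (fun z => (ρ (R i l) - 1) * ρ z) (hrel i l k h1 h2 h3)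
  simp only [map_mul] at k1
  have k2 : (ρ (R i l) - 1) * ρ (R i l) = ρ (R i l) - 1 := by
    have := hsq i l h1
    rw [mul_sub, mul_one, sub_eq_zero] at this
    exact this
  have k3 : (ρ (R i l) - 1) * (ρ (R l k) * ρ (R i l)) =
      (ρ (R i l) - 1) * ρ (R l k) * ρ (R i k) := by
    rw [k1, mul_assoc (ρ (R i l)), ← mul_assoc (ρ (R i l) - 1), k2, mul_assoc]
  have k4 : (ρ (R i l) - 1) * ρ (R l k) * (ρ (R i l) - 1) = 0 := by
    have e : (ρ (R i l) - 1) * ρ (R l k) * (ρ (R i l) - 1) =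
        (ρ (R i l) - 1) * ((ρ (R l k) - 1) * (ρ (R i l) - 1)) +
          (ρ (R i l) - 1) * (ρ (R i l) - 1) := by
      rw [mul_assoc, sub_mul (ρ (R l k)), one_mul,
        mul_sub (ρ (R i l) - 1) (ρ (R l k) * (ρ (R i l) - 1)), sub_add_cancel]
    rw [e, s3, hsq i l h1, add_zero]
  have k5 : (ρ (R i l) - 1) * ρ (R l k) * (ρ (R i k) - 1) = 0 := by
    rw [mul_sub, ← k3, ← mul_assoc, ← mul_sub, k4]
  have k6 : ρ (R l k) * (ρ (R i k) - 1) = ρ (R i k) - 1 := fx s4
  rw [mul_assoc, k6] at k5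
  exact k5

end

section
variable {n : ℕ}

theorem rel1 (i l k : Fin n) (h1 : i ≠ l) (h2 : i ≠ k) (h3 : l ≠ k) :
    RR l k * RR i l = RR i l * RR l k * RR i k := by
  apply aut_ext
  intro x
  show (RR l k) ((RR i l) (of x)) = (RR i l) ((RR l k) ((RR i k) (of x)))
  by_cases hi : x = i
  · subst hi
    simp only [map_mul, RR_self h1, RR_self h2, RR_self h3, RR_ne h1, RR_ne h1.symm, RR_ne h2.symm,
      RR_ne h3.symm, mul_assoc]
  · by_cases hl : x = l
    · subst hl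
      simp only [map_mul, RR_self h3, RR_ne hi, RR_ne h2.symm]
    · simp only [RR_ne hi, RR_ne hl]

theorem rel2 (i k j : Fin n) (h1 : i ≠ k) (h2 : i ≠ j) (h3 : k ≠ j) :
    Commute (RR i j) (RR k j) := by
  apply aut_ext
  intro x
  show (RR i j) ((RR k j) (of x)) = (RR k j) ((RR i j) (of x))
  by_cases hi : x = i
  · subst hi
    simp only [map_mul, RR_self h2, RR_ne h1, RR_ne h3.symm]
  · by_cases hk : x = k
    · subst hk
      simp only [map_mul, RR_self h3, RR_ne hi, RR_ne h2.symm]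
    · simp only [RR_ne hi, RR_ne hk]

theorem ex3 (hn : 6 ≤ n) (a b c : Fin n) : ∃ m : Fin n, m ≠ a ∧ m ≠ b ∧ m ≠ c := by
  classical
  by_contra h
  push Not at h
  have h1 : (Finset.univ : Finset (Fin n)) ⊆ {a, b, c} := by
    intro m _
    simp only [Finset.mem_insert, Finset.mem_singleton]
    by_cases ha : m = a
    · exact Or.inl ha
    · by_cases hb : m = b
      · exact Or.inr (Or.inl hb)
      · exact Or.inr (Or.inr (h m ha hb))
  have h2 := Finset.card_le_card h1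
  have h3 : ({a, b, c} : Finset (Fin n)).card ≤ 3 := Finset.card_le_three
  rw [Finset.card_univ, Fintype.card_fin] at h2
  omega

end

theorem t_ZA : S_ZA.{v} := by
  intro A _ n hn f hsq hdis i j k l hij hkl hjk hil
  by_cases hik : i = k
  · subst hik
    by_cases hjl : j = l
    · subst hjl
      exact hsq i j hij
    · obtain ⟨m, m1, m2, m3⟩ := ex3 hn i j l
      exact same_target f RR rel1 rel2 hdis hsq hij hkl hjl m1 m2 m3
  · by_cases hjl : j = l
    · subst hjl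
      obtain ⟨m, m1, m2, m3⟩ := ex3 hn k i j
      exact same_source f RR rel1 rel2 hdis (a := k) (c := i) (j := j) (Ne.symm hik) hkl hij m1 m2 m3
    · exact hdis i j k l hij hik hil hjk hjl hkl

end Pool.Agent.N66.AF.ZA
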