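import Mathlib
import Pool.Agent.N66.AF.Stm

/-!
# Project AF (helper66), leaf ZB (helper124): zero rule for left and right transvections
-/

set_option autoImplicit false

namespace Pool.Agent.N66.AF.ZB

open Pool.Agent.N66.AF
open FreeGroup (of)

universe v

section grp
variable {n : ℕ}

/-- the endomorphism `x_i ↦ x_i⁻¹` -/
def eE (i : Fin n) : FreeGroup (Fin n) →* FreeGroup (Fin n) :=
  FreeGroup.lift fun k => if k = i then (of i)⁻¹ else of k

theorem eE_comp (i : Fin n) : (eE i).comp (eE i) = MonoidHom.id _ := by
  apply FreeGroup.ext_hom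
  intro k
  rw [MonoidHom.comp_apply]
  by_cases h : k = i
  · subst h; simp [eE]
  · simp [eE, h]

/-- the automorphism `x_i ↦ x_i⁻¹` -/
def ee (i : Fin n) : MulAut (FreeGroup (Fin n)) :=
  MonoidHom.toMulEquiv (eE i) (eE i) (eE_comp i) (eE_comp i)

theorem ee_self (i : Fin n) : ee i (of i) = (of i)⁻¹ := by
  show eE i (of i) = _
  simp [eE]

theorem ee_ne {i k : Fin n} (h : k ≠ i) : ee i (of k) = of k := by
  show eE i (of k) = _
  simp [eE, h]

theorem ee_mul (i : Fin n) : ee i * ee i = 1 := by
  apply aut_ext
  intro x
  rw [MulAut.mul_apply, MulAut.one_apply]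
  by_cases h : x = i
  · subst h; rw [ee_self, map_inv, ee_self, inv_inv]
  · rw [ee_ne h, ee_ne h]

theorem ee_comm (i k : Fin n) : ee i * ee k = ee k * ee i := by
  by_cases hik : i = k
  · rw [hik]
  apply aut_ext
  intro x
  rw [MulAut.mul_apply, MulAut.mul_apply]
  by_cases h : x = i
  · subst h; rw [ee_ne hik, ee_self, map_inv, ee_ne hik]
  · by_cases h2 : x = k
    · subst h2; rw [ee_self, map_inv, ee_ne h, ee_self]
    · rw [ee_ne h, ee_ne h2, ee_ne h]

theorem ee_RR {i j : Fin n} (h : i ≠ j) : ee i * RR i j * ee i * LL i j = 1 := by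
  apply aut_ext
  intro x
  simp only [MulAut.mul_apply, MulAut.one_apply]
  by_cases hx : x = i
  · subst hx
    rw [LL_self h, map_mul, ee_ne h.symm, ee_self, map_mul, map_inv, RR_ne h.symm, RR_self h,
      map_mul, map_inv, map_mul, ee_ne h.symm, ee_self]
    group
  · rw [LL_ne hx, ee_ne hx, RR_ne hx, ee_ne hx]

theorem ee_RR_comm {i j k : Fin n} (hij : i ≠ j) (hki : k ≠ i) (hkj : k ≠ j) :
    ee k * RR i j = RR i j * ee k := by
  apply aut_ext
  intro x
  simp only [MulAut.mul_apply]
  by_cases hx : x = i
  · subst hx
    rw [RR_self hij, map_mul, ee_ne hki.symm, ee_ne hkj.symm, RR_self hij]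
  · by_cases hx2 : x = k
    · subst hx2
      rw [RR_ne hx, ee_self, map_inv, RR_ne hx]
    · rw [RR_ne hx, ee_ne hx2, RR_ne hx]

theorem RL_comm {i j l : Fin n} (hij : i ≠ j) (hil : i ≠ l) : RR i j * LL i l = LL i l * RR i j := by
  apply aut_ext
  intro x
  simp only [MulAut.mul_apply]
  by_cases hx : x = i
  · subst hx
    rw [LL_self hil, map_mul, RR_ne hil.symm, RR_self hij, map_mul, LL_self hil, LL_ne hij.symm,
      mul_assoc]
  · rw [LL_ne hx, RR_ne hx, LL_ne hx]

theorem RLL {i k l : Fin n} (hik : i ≠ k) (hil : i ≠ l) (hkl : k ≠ l) :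
    RR k l * LL i k = LL i l * LL i k * RR k l := by
  apply aut_ext
  intro x
  simp only [MulAut.mul_apply]
  by_cases hx : x = i
  · subst hx
    rw [LL_self hik, map_mul, RR_self hkl, RR_ne hik, LL_self hik, map_mul, LL_ne hik.symm,
      LL_self hil, mul_assoc]
  · by_cases hx2 : x = k
    · subst hx2
      rw [LL_ne hx, RR_self hkl, map_mul, map_mul, LL_ne hx, LL_ne hil.symm, LL_ne hx,
        LL_ne hil.symm]
    · rw [LL_ne hx, RR_ne hx2, LL_ne hx, LL_ne hx]

theorem exists_ne3 {n : ℕ} (hn : 6 ≤ n) (i j l : Fin n) : ∃ k : Fin n, k ≠ i ∧ k ≠ j ∧ k ≠ l := by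
  by_contra hcon
  push Not at hcon
  have h1 : (Finset.univ : Finset (Fin n)) ⊆ {i, j, l} := by
    intro k _
    by_cases h1 : k = i
    · simp [h1]
    · by_cases h2 : k = j
      · simp [h2]
      · simp [hcon k h1 h2]
  have h2 := Finset.card_le_card h1
  have h3 : ({i, j, l} : Finset (Fin n)).card ≤ 3 := Finset.card_le_three
  rw [Finset.card_univ, Fintype.card_fin] at h2
  omega

end grp

/-- leaf ZB -/
theorem t_ZB : S_ZB.{v} := by
  intro A _ n hn f hz
  -- the operators
  set E : Fin n → A := fun i => f (ee i) with hE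
  set N : Fin n → Fin n → A := fun i j => f (RR i j) - 1 with hN
  set L : Fin n → Fin n → A := fun i j => f (LL i j) - 1 with hL
  have hzN : ∀ i j k l : Fin n, i ≠ j → k ≠ l → j ≠ k → i ≠ l → N i j * N k l = 0 := hz
  have fR : ∀ i j, f (RR i j) = 1 + N i j := fun i j => by simp [hN]
  have fL : ∀ i j, f (LL i j) = 1 + L i j := fun i j => by simp [hL]
  have hEE : ∀ i, E i * E i = 1 := fun i => by
    simp only [hE]; rw [← map_mul, ee_mul, map_one]
  have hEc : ∀ i k, E i * E k = E k * E i := fun i k => by
    simp only [hE]; rw [← map_mul, ee_comm, map_mul]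
  have hEN : ∀ i j k, i ≠ j → k ≠ i → k ≠ j → E k * N i j = N i j * E k := by
    intro i j k hij hki hkj
    have h1 : f (ee k) * f (RR i j) = f (RR i j) * f (ee k) := by
      rw [← map_mul, ee_RR_comm hij hki hkj, map_mul]
    simp only [hE, hN, mul_sub, sub_mul, h1, mul_one, one_mul]
  -- the left transvections
  have hLE : ∀ i j, i ≠ j → L i j = -(E i * N i j * E i) := by
    intro i j hij
    have hNN := hzN i j i j hij hij hij.symm hij
    have h1 : f (ee i) * f (RR i j) * f (ee i) * f (LL i j) = 1 := by
      rw [← map_mul, ← map_mul, ← map_mul, ee_RR hij, map_one]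
    have h2 : (1 + E i * N i j * E i) * (1 + L i j) = 1 := by
      have this : f (ee i) * (1 + N i j) * f (ee i) = 1 + E i * N i j * E i := by
        rw [mul_add, add_mul, mul_one]
        show E i * E i + E i * N i j * E i = _
        rw [hEE]
      have e : (1 + E i * N i j * E i) * (1 + L i j) =
          f (ee i) * f (RR i j) * f (ee i) * f (LL i j) := by
        rw [fR, fL, this]
      rw [e, h1]
    have h3 : (1 - E i * N i j * E i) * (1 + E i * N i j * E i) = 1 := by
      have h4 : E i * N i j * E i * (E i * N i j * E i) = 0 := by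
        calc E i * N i j * E i * (E i * N i j * E i) = E i * N i j * (E i * E i) * N i j * E i := by
              noncomm_ring
          _ = E i * (N i j * N i j) * E i := by rw [hEE]; noncomm_ring
          _ = 0 := by rw [hNN]; simp
      calc _ = 1 - E i * N i j * E i * (E i * N i j * E i) := by noncomm_ring
        _ = 1 := by rw [h4, sub_zero]
    have h5 : 1 + L i j = 1 - E i * N i j * E i := by
      calc 1 + L i j = (1 - E i * N i j * E i) * (1 + E i * N i j * E i) * (1 + L i j) := by
            rw [h3, one_mul]
        _ = (1 - E i * N i j * E i) * ((1 + E i * N i j * E i) * (1 + L i j)) := mul_assoc _ _ _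
        _ = _ := by rw [h2, mul_one]
    calc L i j = (1 + L i j) - 1 := by abel
      _ = -(E i * N i j * E i) := by rw [h5]; abel
  -- different first indices
  have LN : ∀ i j k l, i ≠ j → k ≠ l → j ≠ k → i ≠ l → i ≠ k → L i j * N k l = 0 := by
    intro i j k l hij hkl hjk hil hik
    rw [hLE i j hij]
    calc -(E i * N i j * E i) * N k l = -(E i * N i j * (E i * N k l)) := by noncomm_ring
      _ = -(E i * (N i j * N k l) * E i) := by
          rw [hEN k l i hkl hik hil]; noncomm_ring
      _ = 0 := by rw [hzN i j k l hij hkl hjk hil]; simp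
  have NL : ∀ i j k l, i ≠ j → k ≠ l → j ≠ k → i ≠ l → i ≠ k → N i j * L k l = 0 := by
    intro i j k l hij hkl hjk hil hik
    rw [hLE k l hkl]
    calc N i j * -(E k * N k l * E k) = -(N i j * E k * N k l * E k) := by noncomm_ring
      _ = -(E k * (N i j * N k l) * E k) := by
          rw [← hEN i j k hij hik.symm hjk.symm]; noncomm_ring
      _ = 0 := by rw [hzN i j k l hij hkl hjk hil]; simp
  have LL0 : ∀ i j k l, i ≠ j → k ≠ l → j ≠ k → i ≠ l → L i j * L k l = 0 := by
    intro i j k l hij hkl hjk hil
    by_cases hik : i = k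
    · subst hik
      rw [hLE i j hij, hLE i l hkl]
      calc -(E i * N i j * E i) * -(E i * N i l * E i) =
            E i * N i j * (E i * E i) * N i l * E i := by noncomm_ring
        _ = E i * (N i j * N i l) * E i := by rw [hEE]; noncomm_ring
        _ = 0 := by rw [hzN i j i l hij hkl hjk hil]; simp
    · rw [hLE i j hij]
      calc -(E i * N i j * E i) * L k l = -(E i * N i j * (E i * L k l)) := by noncomm_ring
        _ = -(E i * N i j * (L k l * E i)) := by
            have h1 : E i * L k l = L k l * E i := by
              rw [hLE k l hkl]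
              calc E i * -(E k * N k l * E k) = -(E i * E k * N k l * E k) := by noncomm_ring
                _ = -(E k * (E i * N k l) * E k) := by rw [hEc i k]; noncomm_ring
                _ = -(E k * N k l * (E i * E k)) := by
                    rw [hEN k l i hkl hik hil]; noncomm_ring
                _ = -(E k * N k l * E k) * E i := by rw [hEc i k]; noncomm_ring
            rw [h1]
        _ = -(E i * (N i j * L k l) * E i) := by noncomm_ring
        _ = 0 := by rw [NL i j k l hij hkl hjk hil hik]; simp
  -- the same first index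
  have hcm : ∀ i j l, i ≠ j → i ≠ l → N i j * L i l = L i l * N i j := by
    intro i j l hij hil
    have h1 : f (RR i j) * f (LL i l) = f (LL i l) * f (RR i j) := by
      rw [← map_mul, RL_comm hij hil, map_mul]
    rw [fR, fL] at h1
    have h2 : N i j * L i l - L i l * N i j =
        (1 + N i j) * (1 + L i l) - (1 + L i l) * (1 + N i j) := by noncomm_ring
    rw [h1, sub_self] at h2
    exact sub_eq_zero.1 h2
  have hrl : ∀ i k l, i ≠ k → i ≠ l → k ≠ l →
      (1 + N k l) * (1 + L i k) = (1 + L i l) * (1 + L i k) * (1 + N k l) := by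
    intro i k l hik hil hkl
    rw [← fR, ← fL, ← fL, ← map_mul, RLL hik hil hkl, map_mul, map_mul]
  have LNs : ∀ i j l, i ≠ j → i ≠ l → j ≠ l → L i l * N i j = 0 := by
    intro i j l hij hil hjl
    obtain ⟨k, hki, hkj, hkl⟩ := exists_ne3 hn i j l
    have h1 := hrl i k l hki.symm hil hkl
    have h2 : N k l * N i j = 0 := hzN k l i j hkl hij hil.symm hkj
    have h3 := hcm i j k hij hki.symm
    have h4 : L i l * N i j * (1 + L i k) = 0 := by
      have e1 : (1 + N k l) * (1 + L i k) * N i j = N i j * (1 + L i k) := by
        calc (1 + N k l) * (1 + L i k) * N i j = (1 + N k l) * (N i j + L i k * N i j) := by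
              noncomm_ring
          _ = (1 + N k l) * (N i j + N i j * L i k) := by rw [h3]
          _ = N i j * (1 + L i k) + N k l * N i j * (1 + L i k) := by noncomm_ring
          _ = _ := by rw [h2]; simp
      have e2 : (1 + L i l) * (1 + L i k) * (1 + N k l) * N i j =
          N i j * (1 + L i k) + L i l * N i j * (1 + L i k) := by
        calc (1 + L i l) * (1 + L i k) * (1 + N k l) * N i j =
              (1 + L i l) * (1 + L i k) * (N i j + N k l * N i j) := by noncomm_ring
          _ = (1 + L i l) * (N i j + L i k * N i j) := by rw [h2]; noncomm_ring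
          _ = (1 + L i l) * (N i j + N i j * L i k) := by rw [h3]
          _ = _ := by noncomm_ring
      rw [h1, e2] at e1
      exact left_eq_add.1 e1.symm
    have h5 : (1 + L i k) * f ((LL i k)⁻¹) = 1 := by
      rw [← fL, ← map_mul, mul_inv_cancel, map_one]
    calc L i l * N i j = L i l * N i j * ((1 + L i k) * f ((LL i k)⁻¹)) := by rw [h5, mul_one]
      _ = (L i l * N i j * (1 + L i k)) * f ((LL i k)⁻¹) := by noncomm_ring
      _ = 0 := by rw [h4, zero_mul]
  have NLe : ∀ i j, i ≠ j → N i j * L i j = 0 := by
    intro i j hij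
    obtain ⟨k, hki, hkj, -⟩ := exists_ne3 hn i j j
    have h1 := hrl i k j hki.symm hij hkj
    have h2 : L i j * L i k = 0 := LL0 i j i k hij hki.symm hij.symm hki.symm
    have h3 : L i j * N k j = 0 := LN i j k j hij hkj hkj.symm hij hki.symm
    have h4 : N i j * N k j = 0 := hzN i j k j hij hkj hkj.symm hij
    have h5 : N i j * L i k = 0 := by
      rw [hcm i j k hij hki.symm]
      exact LNs i j k hij hki.symm hkj.symm
    have h6 : N k j * L i k = L i j + L i k * N k j := by
      have e1 : (1 + N k j) * (1 + L i k) = 1 + N k j + L i k + N k j * L i k := by noncomm_ring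
      have e2 : (1 + L i j) * (1 + L i k) * (1 + N k j) = 1 + N k j + L i k +
          (L i j + L i k * N k j) + L i j * L i k + L i j * N k j + L i j * L i k * N k j := by
        noncomm_ring
      rw [h2, h3, zero_mul, add_zero, add_zero, add_zero] at e2
      rw [e1, e2] at h1
      exact add_left_cancel h1
    calc N i j * L i j = N i j * (N k j * L i k - L i k * N k j) := by rw [h6]; noncomm_ring
      _ = N i j * N k j * L i k - N i j * L i k * N k j := by noncomm_ring
      _ = 0 := by rw [h4, h5]; simp
  -- conclusion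
  intro a b i j k l hij hkl hjk hil
  have htt : ∀ (s : Bool) (i j : Fin n), f (TT s i j) - 1 = if s then N i j else L i j := by
    intro s i j
    cases s <;> simp [TT, hN, hL]
  rw [htt, htt]
  cases a <;> cases b
  · simpa using LL0 i j k l hij hkl hjk hil
  · by_cases hik : i = k
    · subst hik
      by_cases hjl : j = l
      · subst hjl
        have h1 := NLe i j hij
        rw [hcm i j j hij hij] at h1
        simpa using h1
      · simpa using LNs i l j hkl hij (Ne.symm hjl)
    · simpa using LN i j k l hij hkl hjk hil hik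
  · by_cases hik : i = k
    · subst hik
      by_cases hjl : j = l
      · subst hjl
        simpa using NLe i j hij
      · have h1 := LNs i j l hij hkl hjl
        rw [← hcm i j l hij hkl] at h1
        simpa using h1
    · simpa using NL i j k l hij hkl hjk hil hik
  · simpa using hzN i j k l hij hkl hjk hil

end Pool.Agent.N66.AF.ZB
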