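import Pool.Agent.N66.AF.Main
import Pool.Agent.N66.AF.ZA
import Pool.Agent.N66.AF.ZB
import Pool.Agent.N66.AF.CN
import Pool.Agent.N66.AF.SN
import Pool.Agent.N66.AF.PU
import Pool.Agent.N66.AF.DU
import Pool.Agent.N66.AF.UW
import Pool.Agent.N66.AF.TB
import Pool.Agent.N66.AF.MM
import Pool.Agent.N66.AF.CR
import Pool.Agent.N66.AF.FV
import Pool.Agent.N66.AF.SG
import Pool.Agent.N66.AF.CC
import Pool.Agent.N66.AF.FI
import Pool.Agent.N66.AF.GA
import Pool.Agent.N66.AF.IN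
import Pool.Agent.N66.AF.PA

set_option autoImplicit false

/-! Project AF: all leaves. -/

namespace Pool.Agent.N66.AF

universe u

theorem lv : Lv.{u} where
  ZA := ZA.t_ZA
  ZB := ZB.t_ZB
  CN := CN.t_CN
  SN := SN.t_SN
  PU := PU.t_PU
  DU := DU.t_DU
  UW := UW.t_UW
  TB := TB.t_TB
  MM := MM.t_MM
  CR := CR.t_CR
  FV := FV.t_FV
  SG := SG.t_SG
  CC := CC.t_CC
  FI := FI.t_FI
  GA := GA.t_GA
  IN := IN.t_IN
  PA := PA.t_PA

end Pool.Agent.N66.AF
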