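import Pool.Agent.N66.AF.Stm

set_option autoImplicit false

/-! Project AF: assembly. -/

namespace Pool.Agent.N66.AF

open FreeGroup (of)

universe u v

section alg
variable {A : Type v} [Ring A] {n : ℕ}

theorem rel_of (hZA : S_ZA.{v}) (hZB : S_ZB.{v}) (hCN : S_CN.{v}) (hSN : S_SN.{v}) (hn : 6 ≤ n)
    (f : MulAut (FreeGroup (Fin n)) →* A)
    (h1 : ∀ i j : Fin n, i ≠ j → (f (RR i j) - 1) * (f (RR i j) - 1) = 0)
    (h2 : ∀ i j k l : Fin n, i ≠ j → i ≠ k → i ≠ l → j ≠ k → j ≠ l → k ≠ l →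
      (f (RR i j) - 1) * (f (RR k l) - 1) = 0) :
    Rel (fun s i j => f (TT s i j) - 1) := by
  have hz := hZB A n hn f (hZA A n hn f h1 h2)
  refine ⟨hz, hCN A n hn f hz, ?_⟩
  intro i j l h3 h4 h5
  have h := hSN A n hn f hz i j l h3 h4 h5
  show f (RR i l) - 1 - (f (LL i l) - 1) = f (RR j l) - 1 - (f (LL j l) - 1)
  rw [sub_sub_sub_cancel_right, sub_sub_sub_cancel_right, h]

theorem Rel.toN {X : Bool → Fin n → Fin n → A} (h : Rel X) : RelN (X true) :=
  ⟨h.zero true true, h.comm true true⟩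

theorem RelN.dual {N : Fin n → Fin n → A} (h : RelN N) : RelN (fun i j => - N j i) := by
  refine ⟨?_, ?_⟩
  · intro i j k l h1 h2 h3 h4
    rw [neg_mul_neg]
    exact h.zero j i l k h1.symm h2.symm h4 h3
  · intro i j k h1 h2 h3
    rw [neg_mul_neg, neg_mul_neg, h.comm k j i h2.symm h1.symm h3.symm, neg_sub]

theorem tab_of (hPU : S_PU.{v}) (hDU : S_DU.{v}) (hUW : S_UW.{v}) (hTB : S_TB.{v}) (hn : 6 ≤ n)
    {X : Bool → Fin n → Fin n → A} (h : Rel X) : ∃ P R U W, Tab X P R U W := by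
  obtain ⟨P, hP⟩ := hPU A n hn _ h.toN
  obtain ⟨Q, hQ⟩ := hPU A n hn _ h.toN.dual
  obtain ⟨D, hD, hD2⟩ := hDU A n hn X h
  obtain ⟨U, W, hU⟩ := hUW A n hn _ D h.toN hD2
  exact ⟨P, _, U, W, hTB A n hn X P Q D U W h.toN hP hQ hD hU⟩

/-- the vector `b φ` -/
def bv (φ : MulAut (FreeGroup (Fin n))) : Fin n → ℤ := fun k => ∑ j, mat φ⁻¹ k j * cr φ j

/-- the value of the representation -/
def FF (P R : Fin n → Fin n → A) (U W : Fin n → A) (φ : MulAut (FreeGroup (Fin n))) : A :=
  Fv P R U W (mat φ) (mat φ⁻¹) (cr φ) (bv φ)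

theorem mat_one (hMM : S_MM) : mat (1 : MulAut (FreeGroup (Fin n))) = 1 := by
  ext k i
  show ex k ((1 : MulAut (FreeGroup (Fin n))) (of i)) = _
  rw [MulAut.one_apply, ((hMM n).2.2.2 k k i).2, Matrix.one_apply]
  by_cases h : i = k
  · rw [if_pos h, if_pos h.symm]
  · rw [if_neg h, if_neg fun h' => h h'.symm]

theorem cr_one (hMM : S_MM) : cr (1 : MulAut (FreeGroup (Fin n))) = 0 := by
  funext j
  show - ∑ i, ∑ k, q j k ((1 : MulAut (FreeGroup (Fin n))) (of i)) * _ = 0
  rw [neg_eq_zero]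
  refine Finset.sum_eq_zero fun i _ => Finset.sum_eq_zero fun k _ => ?_
  rw [MulAut.one_apply, ((hMM n).2.2.2 j k i).1, zero_mul]

theorem Fv_one (P R : Fin n → Fin n → A) (U W : Fin n → A) : Fv P R U W 1 1 0 0 = 1 := by
  have e1 : ∀ Z : Fin n → Fin n → A,
      (∑ i, ∑ k, (1 : Matrix (Fin n) (Fin n) ℤ) k i • Z i k) = ∑ i, Z i i := by
    intro Z
    refine Finset.sum_congr rfl fun i _ => ?_
    rw [Finset.sum_eq_single i]
    · rw [Matrix.one_apply_eq, one_smul]
    · intro k _ hk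
      rw [Matrix.one_apply_ne hk, zero_smul]
    · intro h
      exact absurd (Finset.mem_univ i) h
  unfold Fv
  rw [e1, e1]
  simp only [Pi.zero_apply, zero_smul, Finset.sum_const_zero, add_zero]
  abel

theorem FF_one (hMM : S_MM) (P R : Fin n → Fin n → A) (U W : Fin n → A) :
    FF P R U W 1 = 1 := by
  have h : bv (1 : MulAut (FreeGroup (Fin n))) = 0 := by
    funext k
    show ∑ j, _ * cr (1 : MulAut (FreeGroup (Fin n))) j = 0
    rw [cr_one hMM]
    simp
  unfold FF
  rw [h, cr_one hMM, inv_one, mat_one hMM, Fv_one]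

theorem mat_inv (hMM : S_MM) (φ : MulAut (FreeGroup (Fin n))) : mat φ⁻¹ * mat φ = 1 := by
  rw [← (hMM n).1, inv_mul_cancel, mat_one hMM]

theorem FF_step (hMM : S_MM) (hCR : S_CR) (hFV : S_FV.{v}) {X : Bool → Fin n → Fin n → A}
    {P R : Fin n → Fin n → A} {U W : Fin n → A} (hT : Tab X P R U W)
    (φ : MulAut (FreeGroup (Fin n))) (s : Bool) {a b : Fin n} (hab : a ≠ b) :
    FF P R U W φ * (1 + X s a b) = FF P R U W (φ * TT s a b) := by
  obtain ⟨h1, h2, h3⟩ := hCR hMM n φ a b hab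
  obtain ⟨m1, m2⟩ := h1 s
  obtain ⟨f1, f2⟩ := hFV A n X P R U W hT (mat φ) (mat φ⁻¹) (cr φ) (bv φ) a b hab
  have e1 : mat (φ * TT s a b) = fun k i => mat φ k i + if i = a then mat φ k b else 0 := by
    funext k i; exact m1 k i
  have e2 : mat (φ * TT s a b)⁻¹ = fun k i => mat φ⁻¹ k i - if k = b then mat φ⁻¹ a i else 0 := by
    funext k i; exact m2 k i
  have hi : ∀ k, ∑ j, mat φ⁻¹ k j * mat φ j b = if k = b then 1 else 0 := by
    intro k
    have := congrFun (congrFun (mat_inv hMM φ) k) b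
    rw [Matrix.mul_apply, Matrix.one_apply] at this
    exact this
  cases s with
  | true =>
    have e3 : cr (φ * TT true a b) = cr φ := h2
    have e4 : bv (φ * TT true a b) = fun j => bv φ j - if j = b then bv φ a else 0 := by
      funext k
      show ∑ j, mat (φ * TT true a b)⁻¹ k j * cr (φ * TT true a b) j = _
      rw [e2, e3]
      simp only [sub_mul, Finset.sum_sub_distrib]
      congr 1
      by_cases hk : k = b
      · simp only [hk, if_true]; rfl
      · simp only [if_neg hk, zero_mul, Finset.sum_const_zero]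
    unfold FF
    rw [f1, e1, e2, e3, e4]
  | false =>
    have e3 : cr (φ * TT false a b) = fun j => cr φ j - mat φ j b := by
      funext j; exact h3 j
    have e4 : bv (φ * TT false a b) = fun j => bv φ j - if j = b then bv φ a + 1 else 0 := by
      funext k
      show ∑ j, mat (φ * TT false a b)⁻¹ k j * cr (φ * TT false a b) j = _
      rw [e2, e3]
      have hk1 : ∀ x : Fin n, ∑ j, mat φ⁻¹ x j * (cr φ j - mat φ j b) =
          bv φ x - if x = b then 1 else 0 := by
        intro x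
        simp only [mul_sub, Finset.sum_sub_distrib, hi]
        rfl
      simp only [sub_mul, Finset.sum_sub_distrib, hk1]
      by_cases hk : k = b
      · subst hk
        simp only [if_true, hk1, if_neg hab]
        ring
      · simp only [if_neg hk, zero_mul, Finset.sum_const_zero, sub_zero]
    unfold FF
    rw [f2, e1, e2, e3, e4]

/-- the value of `f` on the subgroup generated by the transvections -/
theorem value (hMM : S_MM) (hCR : S_CR) (hFV : S_FV.{v})
    (f : MulAut (FreeGroup (Fin n)) →* A)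
    {P R : Fin n → Fin n → A} {U W : Fin n → A}
    (hT : Tab (fun s i j => f (TT s i j) - 1) P R U W)
    {φ : MulAut (FreeGroup (Fin n))} (hφ : φ ∈ SA n) : f φ = FF P R U W φ := by
  have step : ∀ (x : MulAut (FreeGroup (Fin n))) (s : Bool) (a b : Fin n), a ≠ b →
      FF P R U W x * f (TT s a b) = FF P R U W (x * TT s a b) := by
    intro x s a b hab
    have := FF_step hMM hCR hFV hT x s hab
    rwa [add_sub_cancel] at this
  unfold SA at hφ
  induction hφ using Subgroup.closure_induction_right with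
  | one => rw [map_one, FF_one hMM]
  | mul_right x hx y hy ih =>
    obtain ⟨s, a, b, hab, rfl⟩ := hy
    rw [map_mul, ih, step x s a b hab]
  | mul_inv_cancel x hx y hy ih =>
    obtain ⟨s, a, b, hab, rfl⟩ := hy
    have h1 := step (x * (TT s a b)⁻¹) s a b hab
    rw [inv_mul_cancel_right, ← ih] at h1
    have h2 : f (TT s a b) * f (TT s a b)⁻¹ = 1 := by rw [← map_mul, mul_inv_cancel, map_one]
    rw [map_mul, ← h1, mul_assoc, h2, mul_one]

/-- elements with small invariants act trivially -/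
theorem triv_of (hMM : S_MM) (hCR : S_CR) (hFV : S_FV.{v})
    (f : MulAut (FreeGroup (Fin n)) →* A)
    {P R : Fin n → Fin n → A} {U W : Fin n → A}
    (hT : Tab (fun s i j => f (TT s i j) - 1) P R U W) (p : ℤ) (hp : ∀ x : A, p • x = 0)
    {φ : MulAut (FreeGroup (Fin n))} (hφ : φ ∈ SA n)
    (h1 : ∀ k i, p ∣ mat φ k i - (1 : Matrix (Fin n) (Fin n) ℤ) k i)
    (h2 : (∀ j, p ∣ cr φ j) ∨ (U = 0 ∧ W = 0)) : f φ = 1 := by
  rw [value hMM hCR hFV f hT hφ]
  have hd : ∀ {z w : ℤ} (x : A), p ∣ z - w → z • x = w • x := by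
    intro z w x h
    obtain ⟨t, ht⟩ := h
    have : z = w + p * t := by linarith
    rw [this, add_smul, mul_smul, hp, add_zero]
  have h3 : ∀ k i, p ∣ mat φ⁻¹ k i - (1 : Matrix (Fin n) (Fin n) ℤ) k i := by
    intro k i
    have e : mat φ⁻¹ k i - (1 : Matrix (Fin n) (Fin n) ℤ) k i =
        - ∑ j, mat φ⁻¹ k j * (mat φ j i - (1 : Matrix (Fin n) (Fin n) ℤ) j i) := by
      simp only [mul_sub, Finset.sum_sub_distrib]
      have h5 := congrFun (congrFun (mat_inv hMM φ) k) i
      have h6 := congrFun (congrFun (mul_one (mat φ⁻¹)) k) i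
      rw [Matrix.mul_apply] at h5 h6
      rw [h5, h6]
      ring
    rw [e]
    exact (Finset.dvd_sum fun j _ => (h1 j i).mul_left _).neg_right
  rw [← Fv_one P R U W]
  have hs : ∀ Z : Fin n → Fin n → A, ∀ M : Matrix (Fin n) (Fin n) ℤ,
      (∀ k i, p ∣ M k i - (1 : Matrix (Fin n) (Fin n) ℤ) k i) →
      (∑ i, ∑ k, M k i • Z i k) = ∑ i, ∑ k, (1 : Matrix (Fin n) (Fin n) ℤ) k i • Z i k :=
    fun Z M hM => Finset.sum_congr rfl fun i _ => Finset.sum_congr rfl fun k _ => hd _ (hM k i)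
  have h4 : ∑ j, cr φ j • U j = 0 ∧ ∑ j, bv φ j • W j = 0 := by
    rcases h2 with h2 | ⟨rfl, rfl⟩
    · constructor
      · refine Finset.sum_eq_zero fun j _ => ?_
        rw [hd (w := 0) _ (by simpa using h2 j), zero_smul]
      · refine Finset.sum_eq_zero fun j _ => ?_
        have : p ∣ bv φ j := Finset.dvd_sum fun k _ => (h2 k).mul_left _
        rw [hd (w := 0) _ (by simpa using this), zero_smul]
    · simp
  unfold FF Fv
  rw [hs P _ h1, hs R _ h3, h4.1, h4.2]
  simp

theorem UW_zero {X : Bool → Fin n → Fin n → A}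
    {P R : Fin n → Fin n → A} {U W : Fin n → A} (hT : Tab X P R U W)
    (h : ∀ i j, i ≠ j → X true i j = X false i j) (hn : 2 ≤ n) : U = 0 ∧ W = 0 := by
  have key : ∀ j, U j = 0 ∧ W j = 0 := by
    intro j
    obtain ⟨i, hi⟩ : ∃ i : Fin n, i ≠ j := by
      by_contra hcon
      push Not at hcon
      have h0 := hcon ⟨0, by omega⟩
      have h1 := hcon ⟨1, by omega⟩
      rw [← h1] at h0
      exact absurd (Fin.mk.inj_iff.1 h0) (by omega)
    have e := h i j hi
    rw [hT.tr i j hi, hT.fl i j hi] at e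
    have e2 : U j + W j = 0 := by
      have := sub_eq_zero.2 e
      have e3 : P i j - R i j - (P i j - R i j - U j - W j) = U j + W j := by abel
      rw [e3] at this
      exact this
    have e4 : U j = 0 := by
      rw [← hT.PU j j, eq_neg_of_add_eq_zero_left e2, mul_neg, hT.PW, neg_zero]
    rw [e4, zero_add] at e2
    exact ⟨e4, e2⟩
  exact ⟨funext fun j => (key j).1, funext fun j => (key j).2⟩

end alg

end Pool.Agent.N66.AF
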