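import Pool.Agent.N66.AF.Asm

set_option autoImplicit false

/-! Project AF: consequences for matrix representations. -/

namespace Pool.Agent.N66.AF

open FreeGroup (of)

universe u v

/-- the leaves -/
structure Lv : Prop where
  ZA : S_ZA.{u}
  ZB : S_ZB.{u}
  CN : S_CN.{u}
  SN : S_SN.{u}
  PU : S_PU.{u}
  DU : S_DU.{u}
  UW : S_UW.{u}
  TB : S_TB.{u}
  MM : S_MM
  CR : S_CR
  FV : S_FV.{u}
  SG : S_SG
  CC : S_CC
  FI : S_FI
  GA : S_GA
  IN : S_IN.{u}
  PA : S_PA.{u}

section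
variable {n d : ℕ} {K : Type u} [Field K]

/-- `f` as a homomorphism to matrices -/
def toM (f : MulAut (FreeGroup (Fin n)) →* Matrix.GeneralLinearGroup (Fin d) K) :
    MulAut (FreeGroup (Fin n)) →* Matrix (Fin d) (Fin d) K := (Units.coeHom _).comp f

theorem toM_one {f : MulAut (FreeGroup (Fin n)) →* Matrix.GeneralLinearGroup (Fin d) K}
    {φ : MulAut (FreeGroup (Fin n))} : toM f φ = 1 ↔ f φ = 1 := by
  constructor
  · intro h
    apply Units.ext
    exact h
  · intro h
    show ((f φ : Matrix (Fin d) (Fin d) K)) = 1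
    rw [h]
    rfl

theorem n_large (hd : d < (n / 2 - 5).choose 2) : 14 ≤ n := by
  by_contra hcon
  rw [Nat.choose_eq_zero_of_lt (by omega)] at hd
  omega

theorem rel_rep (L : Lv.{u}) (hd : d < (n / 2 - 5).choose 2)
    (f : MulAut (FreeGroup (Fin n)) →* Matrix.GeneralLinearGroup (Fin d) K) :
    Rel (fun s i j => toM f (TT s i j) - 1) := by
  obtain ⟨h1, h2⟩ := L.PA n d hd K f
  have hn := n_large hd
  exact rel_of L.ZA L.ZB L.CN L.SN (by omega) (toM f) h1 h2

theorem kill (L : Lv.{u}) (hd : d < (n / 2 - 5).choose 2)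
    (f : MulAut (FreeGroup (Fin n)) →* Matrix.GeneralLinearGroup (Fin d) K)
    (p : ℤ) (hp : (p : K) = 0)
    {φ : MulAut (FreeGroup (Fin n))} (hφ : φ ∈ SA n)
    (h1 : ∀ k i, p ∣ mat φ k i - (1 : Matrix (Fin n) (Fin n) ℤ) k i)
    (h2 : ∀ j, p ∣ cr φ j) : f φ = 1 := by
  have hn := n_large hd
  obtain ⟨P, R, U, W, hT⟩ := tab_of L.PU L.DU L.UW L.TB (by omega) (rel_rep L hd f)
  rw [← toM_one]
  refine triv_of L.MM L.CR L.FV (toM f) hT p ?_ hφ h1 (Or.inl h2)
  intro x
  ext i j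
  rw [Matrix.smul_apply, zsmul_eq_mul, hp, zero_mul, Matrix.zero_apply]

theorem kill_out (L : Lv.{u}) (hd : d < (n / 2 - 5).choose 2)
    (f : MulAut (FreeGroup (Fin n)) →* Matrix.GeneralLinearGroup (Fin d) K)
    (hinn : ∀ g : FreeGroup (Fin n), f (MulAut.conj g) = 1) (hn1 : (n : K) - 1 ≠ 0)
    (p : ℤ) (hp : (p : K) = 0)
    {φ : MulAut (FreeGroup (Fin n))} (hφ : φ ∈ SA n)
    (h1 : ∀ k i, p ∣ mat φ k i - (1 : Matrix (Fin n) (Fin n) ℤ) k i) : f φ = 1 := by
  have hn := n_large hd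
  have hR := rel_rep L hd f
  obtain ⟨P, R, U, W, hT⟩ := tab_of L.PU L.DU L.UW L.TB (by omega) hR
  have hUW : U = 0 ∧ W = 0 := by
    refine UW_zero hT ?_ (by omega)
    intro i j hij
    have e1 := L.IN _ n (by omega) (toM f) hR i j hij
    rw [toM_one.2 (hinn (of j))] at e1
    have e2 : ((n : ℤ) - 1) • (toM f (RR i j) - toM f (LL i j)) = 0 := by
      have := e1.symm
      rwa [sub_eq_self] at this
    have e3 : toM f (RR i j) - toM f (LL i j) = 0 := by
      ext a b
      have e4 := congrFun (congrFun e2 a) b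
      rw [Matrix.smul_apply, zsmul_eq_mul, Matrix.zero_apply] at e4
      push_cast at e4
      rcases mul_eq_zero.1 e4 with h | h
      · exact absurd h hn1
      · exact h
    show toM f (RR i j) - 1 = toM f (LL i j) - 1
    rw [sub_eq_zero.1 e3]
  rw [← toM_one]
  refine triv_of L.MM L.CR L.FV (toM f) hT p ?_ hφ h1 (Or.inr hUW)
  intro x
  ext i j
  rw [Matrix.smul_apply, zsmul_eq_mul, hp, zero_mul, Matrix.zero_apply]

theorem det_pm (hMM : S_MM) (φ : MulAut (FreeGroup (Fin n))) :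
    (mat φ).det = 1 ∨ (mat φ).det = -1 := by
  have h := congrArg Matrix.det (mat_inv hMM φ)
  rw [Matrix.det_mul, Matrix.det_one] at h
  exact Int.isUnit_iff.1 (IsUnit.of_mul_eq_one _ (by rw [mul_comm]; exact h))

theorem det_mod {M : Matrix (Fin n) (Fin n) ℤ} {p : ℕ}
    (h : ∀ k i, (p : ℤ) ∣ M k i - (1 : Matrix (Fin n) (Fin n) ℤ) k i) : (p : ℤ) ∣ M.det - 1 := by
  have h1 : M.map (Int.castRingHom (ZMod p)) = 1 := by
    ext k i
    have h2 := (ZMod.intCast_zmod_eq_zero_iff_dvd _ p).2 (h k i)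
    rw [Int.cast_sub, sub_eq_zero] at h2
    rw [Matrix.map_apply]
    show ((M k i : ℤ) : ZMod p) = _
    rw [h2, Matrix.one_apply, Matrix.one_apply]
    split_ifs <;> simp
  have h3 : ((M.det : ℤ) : ZMod p) = 1 := by
    have h4 := RingHom.map_det (Int.castRingHom (ZMod p)) M
    rw [RingHom.mapMatrix_apply, h1, Matrix.det_one] at h4
    exact h4
  rw [← ZMod.intCast_zmod_eq_zero_iff_dvd, Int.cast_sub, h3, Int.cast_one, sub_self]

theorem mem_SA (L : Lv.{u}) {φ : MulAut (FreeGroup (Fin n))} {p : ℕ} (hp : 3 ≤ p)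
    (h : ∀ k i, (p : ℤ) ∣ mat φ k i - (1 : Matrix (Fin n) (Fin n) ℤ) k i) : φ ∈ SA n := by
  apply L.SG
  rcases det_pm L.MM φ with h1 | h1
  · exact h1
  · exfalso
    have h2 := det_mod h
    rw [h1] at h2
    have h3 := Int.le_of_dvd (by norm_num) (show (p : ℤ) ∣ 2 by
      have := h2.neg_right
      norm_num at this
      exact this)
    omega

theorem cr_dvd {p : ℤ} {φ : MulAut (FreeGroup (Fin n))}
    (h : ∀ j k i, p ∣ q j k (φ (of i))) (j : Fin n) : p ∣ cr φ j := by
  show p ∣ - _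
  exact (Finset.dvd_sum fun i _ => Finset.dvd_sum fun k _ => (h j k i).mul_right _).neg_right

/-- automorphisms acting trivially modulo `Cp n p`, `p` odd -/
theorem kill_p (L : Lv.{u}) (hd : d < (n / 2 - 5).choose 2)
    (f : MulAut (FreeGroup (Fin n)) →* Matrix.GeneralLinearGroup (Fin d) K)
    {p : ℕ} (hp : p.Prime) [CharP K p] {φ : MulAut (FreeGroup (Fin n))}
    (h : ∀ x, φ x * x⁻¹ ∈ Cp n p) (hSA : φ ∈ SA n) : f φ = 1 := by
  obtain ⟨-, -, h1⟩ := L.CC n p hp
  obtain ⟨h2, h3⟩ := h1 φ h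
  exact kill L hd f p (by simp) hSA h2 (cr_dvd h3)

/-- characteristic zero and finite image: the transvections act trivially -/
theorem kill_zero (L : Lv.{u}) (hd : d < (n / 2 - 5).choose 2) [CharZero K]
    (f : MulAut (FreeGroup (Fin n)) →* Matrix.GeneralLinearGroup (Fin d) K)
    (hf : Finite f.range) {φ : MulAut (FreeGroup (Fin n))} (hφ : φ ∈ SA n) : f φ = 1 := by
  have hR := rel_rep L hd f
  have key : ∀ τ ∈ {τ : MulAut (FreeGroup (Fin n)) | ∃ (s : Bool) (i j : Fin n), i ≠ j ∧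
      τ = TT s i j}, τ ∈ f.ker := by
    rintro τ ⟨s, i, j, hij, rfl⟩
    rw [MonoidHom.mem_ker, ← toM_one]
    have hz := hR.zero s s i j i j hij hij hij.symm hij
    have hpow : ∀ k : ℕ, toM f (TT s i j) ^ k = 1 + k • (toM f (TT s i j) - 1) := by
      intro k
      induction k with
      | zero => simp
      | succ k ih =>
        rw [pow_succ, ih]
        have e : toM f (TT s i j) = 1 + (toM f (TT s i j) - 1) := by abel
        generalize toM f (TT s i j) - 1 = N at hz e ⊢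
        rw [e, mul_add, mul_one, add_mul, one_mul, smul_mul_assoc, hz, smul_zero, add_zero,
          succ_nsmul]
        abel
    obtain ⟨k, hk, hk2⟩ : ∃ k : ℕ, 0 < k ∧ (f (TT s i j)) ^ k = 1 := by
      have h1 : IsOfFinOrder (⟨f (TT s i j), ⟨_, rfl⟩⟩ : f.range) := isOfFinOrder_of_finite _
      obtain ⟨k, hk, hk2⟩ := isOfFinOrder_iff_pow_eq_one.1 h1
      exact ⟨k, hk, congrArg Subtype.val hk2⟩
    have h2 : toM f (TT s i j) ^ k = 1 := by
      rw [← map_pow, toM_one, map_pow, hk2]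
    rw [hpow k] at h2
    have h3 : k • (toM f (TT s i j) - 1) = 0 := by
      have := h2
      rwa [add_eq_left] at this
    have h4 : toM f (TT s i j) - 1 = 0 := by
      ext a b
      have h5 := congrFun (congrFun h3 a) b
      rw [Matrix.smul_apply, nsmul_eq_mul, Matrix.zero_apply] at h5
      rcases mul_eq_zero.1 h5 with h | h
      · exact absurd (Nat.cast_eq_zero.1 h) hk.ne'
      · exact h
    exact sub_eq_zero.1 h4
  have h1 : SA n ≤ f.ker := (Subgroup.closure_le _).2 key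
  exact h1 hφ

end

end Pool.Agent.N66.AF
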