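import Pool.Agent.N66.AF.Stm

set_option autoImplicit false

/-! Project AF, leaf IN: inner automorphisms. -/

namespace Pool.Agent.N66.AF.IN

open FreeGroup (of)
open Pool.Agent.N66.AF

universe v

section

variable {n : ℕ}

theorem TT_true (i j : Fin n) : TT true i j = RR i j := rfl

theorem TT_false (i j : Fin n) : TT false i j = LL i j := rfl

/-- the automorphism `x_k ↦ x_j x_k x_j⁻¹` -/
def kap (k j : Fin n) : MulAut (FreeGroup (Fin n)) := LL k j * (RR k j)⁻¹

theorem kap_self {k j : Fin n} (h : k ≠ j) : kap k j (of k) = of j * of k * (of j)⁻¹ := by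
  have h1 : (RR k j)⁻¹ (of k) = of k * (of j)⁻¹ := by
    have h2 : RR k j (of k * (of j)⁻¹) = of k := by
      rw [map_mul, map_inv, RR_self h, RR_ne h.symm]
      group
    calc (RR k j)⁻¹ (of k) = (RR k j)⁻¹ (RR k j (of k * (of j)⁻¹)) := by rw [h2]
      _ = _ := by rw [← MulAut.mul_apply, inv_mul_cancel, MulAut.one_apply]
  show LL k j ((RR k j)⁻¹ (of k)) = _
  rw [h1, map_mul, map_inv, LL_self h, LL_ne h.symm]

theorem kap_ne {k j i : Fin n} (h : i ≠ k) : kap k j (of i) = of i := by
  have h1 : (RR k j)⁻¹ (of i) = of i := by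
    have h2 : RR k j (of i) = of i := RR_ne h
    calc (RR k j)⁻¹ (of i) = (RR k j)⁻¹ (RR k j (of i)) := by rw [h2]
      _ = _ := by rw [← MulAut.mul_apply, inv_mul_cancel, MulAut.one_apply]
  show LL k j ((RR k j)⁻¹ (of i)) = _
  rw [h1, LL_ne h]

variable {A : Type v} [Ring A] {f : MulAut (FreeGroup (Fin n)) →* A}
  (hR : Rel (fun s i j => f (TT s i j) - 1))

include hR

theorem zz (a b : Bool) {k j : Fin n} (h : k ≠ j) :
    (f (TT a k j) - 1) * (f (TT b k j) - 1) = 0 :=
  hR.zero a b k j k j h h h.symm h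

theorem f_inv {k j : Fin n} (h : k ≠ j) : f (RR k j)⁻¹ = 1 - (f (RR k j) - 1) := by
  have h1 : (f (RR k j) - 1) * (f (RR k j) - 1) = 0 := zz hR true true h
  have h2 : f (RR k j) * (1 - (f (RR k j) - 1)) = 1 := by
    have : f (RR k j) * (1 - (f (RR k j) - 1)) = 1 - (f (RR k j) - 1) * (f (RR k j) - 1) := by
      noncomm_ring
    rw [this, h1, sub_zero]
  calc f (RR k j)⁻¹ = f (RR k j)⁻¹ * (f (RR k j) * (1 - (f (RR k j) - 1))) := by rw [h2, mul_one]
    _ = f ((RR k j)⁻¹ * RR k j) * (1 - (f (RR k j) - 1)) := by rw [map_mul, mul_assoc]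
    _ = _ := by rw [inv_mul_cancel, map_one, one_mul]

theorem f_kap {k j : Fin n} (h : k ≠ j) : f (kap k j) = 1 - (f (RR k j) - f (LL k j)) := by
  have h1 : (f (LL k j) - 1) * (f (RR k j) - 1) = 0 := zz hR false true h
  unfold kap
  rw [map_mul, f_inv hR h]
  have : f (LL k j) * (1 - (f (RR k j) - 1)) =
      1 - (f (RR k j) - f (LL k j)) - (f (LL k j) - 1) * (f (RR k j) - 1) := by
    noncomm_ring
  rw [this, h1, sub_zero]

theorem DD {k j : Fin n} (h : k ≠ j) :
    (f (RR k j) - f (LL k j)) * (f (RR k j) - f (LL k j)) = 0 := by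
  have h1 : (f (RR k j) - 1) * (f (RR k j) - 1) = 0 := zz hR true true h
  have h2 : (f (LL k j) - 1) * (f (RR k j) - 1) = 0 := zz hR false true h
  have h3 : (f (RR k j) - 1) * (f (LL k j) - 1) = 0 := zz hR true false h
  have h4 : (f (LL k j) - 1) * (f (LL k j) - 1) = 0 := zz hR false false h
  have : (f (RR k j) - f (LL k j)) * (f (RR k j) - f (LL k j)) =
      (f (RR k j) - 1) * (f (RR k j) - 1) - (f (LL k j) - 1) * (f (RR k j) - 1) -
        (f (RR k j) - 1) * (f (LL k j) - 1) + (f (LL k j) - 1) * (f (LL k j) - 1) := by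
    noncomm_ring
  rw [this, h1, h2, h3, h4]
  simp

theorem D_eq {k i j : Fin n} (hk : k ≠ j) (hi : i ≠ j) :
    f (RR k j) - f (LL k j) = f (RR i j) - f (LL i j) := by
  by_cases h : k = i
  · rw [h]
  · have h1 := hR.same k i j h hk hi
    simp only [TT_true, TT_false, sub_sub_sub_cancel_right] at h1
    exact h1

theorem main {i j : Fin n} (hij : i ≠ j) (S : Finset (Fin n)) : j ∉ S →
    ∃ c : MulAut (FreeGroup (Fin n)), (∀ k ∈ S, c (of k) = of j * of k * (of j)⁻¹) ∧
      (∀ k, k ∉ S → c (of k) = of k) ∧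
      f c = 1 - (S.card : ℤ) • (f (RR i j) - f (LL i j)) := by
  induction S using Finset.induction_on with
  | empty =>
    intro _
    refine ⟨1, fun k hk => absurd hk (Finset.notMem_empty k), fun k _ => rfl, ?_⟩
    simp
  | insert k S hk ih =>
    intro hj
    rw [Finset.mem_insert, not_or] at hj
    obtain ⟨c, hc1, hc2, hc3⟩ := ih hj.2
    have hkj : k ≠ j := fun h => hj.1 h.symm
    refine ⟨c * kap k j, ?_, ?_, ?_⟩
    · intro l hl
      rw [MulAut.mul_apply]
      by_cases hlk : l = k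
      · subst hlk
        rw [kap_self hkj, map_mul, map_mul, map_inv, hc2 j hj.2, hc2 l hk]
      · rw [kap_ne hlk]
        exact hc1 l ((Finset.mem_insert.1 hl).resolve_left hlk)
    · intro l hl
      rw [Finset.mem_insert, not_or] at hl
      rw [MulAut.mul_apply, kap_ne hl.1]
      exact hc2 l hl.2
    · rw [map_mul, hc3, f_kap hR hkj, D_eq hR hkj hij, Finset.card_insert_of_notMem hk]
      have h0 := DD hR hij
      set D := f (RR i j) - f (LL i j)
      push_cast
      rw [sub_mul, one_mul, mul_sub, mul_one, smul_mul_assoc, h0, smul_zero, sub_zero, add_smul,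
        one_smul]
      abel

end

theorem t_IN : S_IN.{v} := by
  intro A _ n hn f hR i j hij
  obtain ⟨c, hc1, hc2, hc3⟩ := main hR hij (Finset.univ.erase j) (Finset.notMem_erase _ _)
  have hc : c = MulAut.conj (of j) := by
    apply aut_ext
    intro x
    rw [MulAut.conj_apply]
    by_cases h : x = j
    · subst h
      rw [hc2 x (Finset.notMem_erase _ _)]
      group
    · rw [hc1 x (Finset.mem_erase.2 ⟨h, Finset.mem_univ _⟩)]
  rw [← hc, hc3, Finset.card_erase_of_mem (Finset.mem_univ _), Finset.card_univ, Fintype.card_fin,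
    Nat.cast_sub (by omega)]
  simp

end Pool.Agent.N66.AF.IN
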