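import Pool.Agent.N66.AF.Fin

set_option autoImplicit false

/-! Project AF: the final statements. -/

namespace Pool.Agent.N66.AF

open FreeGroup (of)

universe u

section
variable {n d : ℕ}

/-- `ψ` acts trivially on `F_n / C` and the kernel `N` contains all such elements, has finite index
and, if it contains the inner automorphisms, all elements acting as inner automorphisms -/
def Cong (C : Subgroup (FreeGroup (Fin n))) (N : Subgroup (MulAut (FreeGroup (Fin n)))) : Prop :=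
  N.FiniteIndex ∧ (∀ ψ : MulAut (FreeGroup (Fin n)), (∀ x, ψ x * x⁻¹ ∈ C) → ψ ∈ N) ∧
    ((∀ g : FreeGroup (Fin n), MulAut.conj g ∈ N) → ∀ ψ : MulAut (FreeGroup (Fin n)),
      (∃ g : FreeGroup (Fin n), ∀ x, ψ x * (g * x * g⁻¹)⁻¹ ∈ C) → ψ ∈ N)

theorem cong_of (L : Lv.{u}) {C : Subgroup (FreeGroup (Fin n))} (h1 : C.Characteristic)
    (h2 : C.FiniteIndex) {N : Subgroup (MulAut (FreeGroup (Fin n)))}
    (h : ∀ φ : MulAut (FreeGroup (Fin n)), (∀ x, φ x * x⁻¹ ∈ C) → φ ∈ N) : Cong C N := by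
  obtain ⟨h3, h4⟩ := L.FI n C h1 h2 N h
  exact ⟨h3, h, h4⟩

theorem char_inf {C D : Subgroup (FreeGroup (Fin n))} (hC : C.Characteristic)
    (hD : D.Characteristic) : (C ⊓ D).Characteristic := by
  rw [Subgroup.characteristic_iff_le_comap] at hC hD ⊢
  intro φ x hx
  exact ⟨hC φ hx.1, hD φ hx.2⟩

variable {K : Type u} [Field K]

theorem mem_SA_of_Cp (L : Lv.{u}) {p : ℕ} (hp : p.Prime) (h3 : 3 ≤ p)
    {φ : MulAut (FreeGroup (Fin n))} (h : ∀ x, φ x * x⁻¹ ∈ Cp n p) : φ ∈ SA n := by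
  obtain ⟨-, -, h1⟩ := L.CC n p hp
  exact mem_SA L h3 (h1 φ h).1

theorem char_p (L : Lv.{u}) (hd : d < (n / 2 - 5).choose 2)
    (f : MulAut (FreeGroup (Fin n)) →* Matrix.GeneralLinearGroup (Fin d) K)
    {p : ℕ} (hp : p.Prime) [CharP K p] :
    Cong (Cp n p ⊓ Cp n 3) f.ker ∧ (p ≠ 2 → Cong (Cp n p) f.ker) := by
  obtain ⟨c1, c2, -⟩ := L.CC n p hp
  obtain ⟨c3, c4, -⟩ := L.CC n 3 Nat.prime_three
  constructor
  · refine cong_of L (char_inf c1 c3) inferInstance fun φ hφ => ?_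
    rw [MonoidHom.mem_ker]
    exact kill_p L hd f hp (fun x => (hφ x).1)
      (mem_SA_of_Cp L Nat.prime_three le_rfl fun x => (hφ x).2)
  · intro hp2
    refine cong_of L c1 c2 fun φ hφ => ?_
    rw [MonoidHom.mem_ker]
    have := hp.two_le
    exact kill_p L hd f hp hφ (mem_SA_of_Cp L hp (by omega) hφ)

theorem fin_any (L : Lv.{u}) (hd : d < (n / 2 - 5).choose 2)
    (f : MulAut (FreeGroup (Fin n)) →* Matrix.GeneralLinearGroup (Fin d) K)
    (hf : Finite f.range) : ∃ p : ℕ, p.Prime ∧ Cong (Cp n p ⊓ Cp n 3) f.ker := by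
  obtain ⟨p, hp⟩ := CharP.exists K
  rcases CharP.char_is_prime_or_zero K p with h | h
  · exact ⟨p, h, (char_p L hd f h).1⟩
  · subst h
    have : CharZero K := CharP.charP_to_charZero K
    obtain ⟨c3, c4, -⟩ := L.CC n 3 Nat.prime_three
    refine ⟨3, Nat.prime_three, ?_⟩
    refine cong_of L (char_inf c3 c3) inferInstance fun φ hφ => ?_
    rw [MonoidHom.mem_ker]
    exact kill_zero L hd f hf (mem_SA_of_Cp L Nat.prime_three le_rfl fun x => (hφ x).2)

theorem mat_of_comm (L : Lv.{u}) {φ : MulAut (FreeGroup (Fin n))} {p : ℕ}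
    (h : ∀ x, ∃ y, ∃ c ∈ commutator (FreeGroup (Fin n)), φ x * x⁻¹ = y ^ p * c) (k i : Fin n) :
    (p : ℤ) ∣ mat φ k i - (1 : Matrix (Fin n) (Fin n) ℤ) k i := by
  obtain ⟨-, hm, -, ho⟩ := L.MM n
  obtain ⟨y, c, hc, e⟩ := h (of i)
  let E : FreeGroup (Fin n) →* Multiplicative ℤ :=
    FreeGroup.lift (fun i : Fin n => Multiplicative.ofAdd (if i = k then (1 : ℤ) else 0))
  have hE : ∀ g, ex k g = Multiplicative.toAdd (E g) := fun g => rfl
  have hc0 : E c = 1 := by
    have : commutator (FreeGroup (Fin n)) ≤ E.ker := Abelianization.commutator_subset_ker E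
    exact this hc
  have e2 := congrArg (fun g => Multiplicative.toAdd (E g)) e
  simp only [map_mul, map_inv, map_pow, hc0, mul_one, toAdd_mul, toAdd_inv, toAdd_pow] at e2
  have e3 : mat φ k i = Multiplicative.toAdd (E (φ (of i))) := rfl
  have e4 : (1 : Matrix (Fin n) (Fin n) ℤ) k i = Multiplicative.toAdd (E (of i)) := by
    rw [← hE, (ho k k i).2, Matrix.one_apply]
    by_cases hki : i = k
    · rw [if_pos hki, if_pos hki.symm]
    · rw [if_neg hki, if_neg fun h' => hki h'.symm]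
  rw [e3, e4]
  exact ⟨Multiplicative.toAdd (E y), by rw [nsmul_eq_mul] at e2; linarith⟩

theorem cr_of_one (L : Lv.{u}) {φ : MulAut (FreeGroup (Fin n))} (h : mat φ = 1) (j : Fin n) :
    cr φ j = - ∑ i, q j i (φ (of i)) := by
  have h1 := mat_inv L.MM φ
  rw [h, mul_one] at h1
  show - ∑ i, ∑ k, q j k (φ (of i)) * mat φ⁻¹ i k = _
  rw [h1]
  congr 1
  refine Finset.sum_congr rfl fun i _ => ?_
  rw [Finset.sum_eq_single i]
  · rw [Matrix.one_apply_eq, mul_one]
  · intro k _ hk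
    rw [Matrix.one_apply_ne hk.symm, mul_zero]
  · intro h'
    exact absurd (Finset.mem_univ i) h'

/-- elements of `IA_n` in the kernel of the contraction -/
theorem kill_IA (L : Lv.{u}) (hd : d < (n / 2 - 5).choose 2)
    (f : MulAut (FreeGroup (Fin n)) →* Matrix.GeneralLinearGroup (Fin d) K)
    {φ : MulAut (FreeGroup (Fin n))}
    (h : ∀ x, φ x * x⁻¹ ∈ commutator (FreeGroup (Fin n)))
    {p : ℕ} (hp : (p : K) = 0) (h2 : ∀ j, (p : ℤ) ∣ ∑ i, q j i (φ (of i))) : f φ = 1 := by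
  have h1 : mat φ = 1 := by
    ext k i
    have := mat_of_comm L (p := 0) (φ := φ) (fun x => ⟨1, _, h x, by simp⟩) k i
    simpa [sub_eq_zero] using this
  have hSA : φ ∈ SA n := L.SG n φ (by rw [h1, Matrix.det_one])
  refine kill L hd f p (by exact_mod_cast hp) hSA (fun k i => by rw [h1, sub_self]; exact dvd_zero _) ?_
  intro j
  rw [cr_of_one L h1 j]
  exact (h2 j).neg_right

theorem kill_gamma (L : Lv.{u}) (hd : d < (n / 2 - 5).choose 2)
    (f : MulAut (FreeGroup (Fin n)) →* Matrix.GeneralLinearGroup (Fin d) K)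
    {φ : MulAut (FreeGroup (Fin n))}
    (h : ∀ x, φ x * x⁻¹ ∈ (⊤ : Subgroup (FreeGroup (Fin n))).lowerCentralSeries 2) :
    f φ = 1 := by
  obtain ⟨h1, h2⟩ := L.GA n φ h
  have hSA : φ ∈ SA n := L.SG n φ (by rw [h1, Matrix.det_one])
  refine kill L hd f 0 (by simp) hSA (fun k i => by rw [h1, sub_self]) ?_
  intro j
  rw [cr_of_one L h1 j, Finset.sum_eq_zero fun i _ => h2 j i i, neg_zero]

theorem out_IA (L : Lv.{u}) (hd : d < (n / 2 - 5).choose 2)
    (f : MulAut (FreeGroup (Fin n)) →* Matrix.GeneralLinearGroup (Fin d) K)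
    (hinn : ∀ g : FreeGroup (Fin n), f (MulAut.conj g) = 1) (hn1 : (n : K) - 1 ≠ 0)
    {φ : MulAut (FreeGroup (Fin n))} :
    ((∀ x, φ x * x⁻¹ ∈ commutator (FreeGroup (Fin n))) → f φ = 1) ∧
    ∀ p : ℕ, p.Prime → CharP K p → p ≠ 2 →
      (∀ x, ∃ y, ∃ c ∈ commutator (FreeGroup (Fin n)), φ x * x⁻¹ = y ^ p * c) → f φ = 1 := by
  constructor
  · intro h
    have h1 : mat φ = 1 := by
      ext k i
      have := mat_of_comm L (p := 0) (φ := φ) (fun x => ⟨1, _, h x, by simp⟩) k i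
      simpa [sub_eq_zero] using this
    have hSA : φ ∈ SA n := L.SG n φ (by rw [h1, Matrix.det_one])
    exact kill_out L hd f hinn hn1 0 (by simp) hSA (fun k i => by rw [h1, sub_self])
  · intro p hp hK hp2 h
    have h1 := mat_of_comm L h
    have := hp.two_le
    exact kill_out L hd f hinn hn1 p (by simp) (mem_SA L (by omega) h1) h1

end

end Pool.Agent.N66.AF
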